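import Pool.Agent.GCU.Defs

/-!
# GCU-Cel: good cells and good subcells

A cell `c` is good if `8 |c ∩ X| ≤ |c|`; a subcell `A ∈ 𝓑 c` is good if `2 |A ∩ X| ≤ |A|` and it is irregular to few parts.
-/

set_option autoImplicit false

open Finset

namespace GCU

private lemma cel_size {n : ℕ} (P : Finpartition (univ : Finset (Fin n)))
    (hP : P.IsEquipartition) (c : Finset (Fin n)) (hc : c ∈ P.parts) :
    n ≤ 2 * P.parts.card * c.card ∧ P.parts.card * c.card ≤ 2 * n := by
  have hk : 0 < P.parts.card := card_pos.2 ⟨c, hc⟩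
  have hkn : P.parts.card ≤ n := by
    have := P.card_parts_le_card
    simpa using this
  have h1 := hP.average_le_card_part hc
  have h2 := hP.card_part_le_average_add_one hc
  rw [card_univ, Fintype.card_fin] at h1 h2
  have hq : 1 ≤ n / P.parts.card := (Nat.one_le_div_iff hk).2 hkn
  have h3 : n < P.parts.card * (n / P.parts.card + 1) := by
    have := Nat.lt_mul_div_succ n hk
    simpa using this
  have h4 : P.parts.card * (n / P.parts.card) ≤ n := Nat.mul_div_le n _
  constructor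
  · calc n ≤ P.parts.card * (n / P.parts.card + 1) := h3.le
      _ ≤ P.parts.card * (2 * (n / P.parts.card)) := Nat.mul_le_mul_left _ (by omega)
      _ = 2 * P.parts.card * (n / P.parts.card) := by ring
      _ ≤ 2 * P.parts.card * c.card := Nat.mul_le_mul_left _ h1
  · calc P.parts.card * c.card ≤ P.parts.card * (n / P.parts.card + 1) := Nat.mul_le_mul_left _ h2
      _ ≤ P.parts.card * (2 * (n / P.parts.card)) := Nat.mul_le_mul_left _ (by omega)
      _ = 2 * (P.parts.card * (n / P.parts.card)) := by ring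
      _ ≤ 2 * n := Nat.mul_le_mul_left _ h4

open Classical in
/-- disjoint sets inside `c` -/
private lemma cel_sum_le {n : ℕ} (Q : Finpartition (univ : Finset (Fin n)))
    (𝓑 : Finset (Finset (Fin n))) (h𝓑 : 𝓑 ⊆ Q.parts) (c X : Finset (Fin n))
    (hc : ∀ A ∈ 𝓑, A ⊆ c) : ∑ A ∈ 𝓑, ((A ∩ X).card : ℝ) ≤ (c ∩ X).card := by
  have h1 : ∑ A ∈ 𝓑, (A ∩ X).card = (𝓑.biUnion (fun A => A ∩ X)).card := by
    rw [card_biUnion]
    intro A hA B hB hAB
    exact (Q.disjoint (h𝓑 hA) (h𝓑 hB) hAB).mono inter_subset_left inter_subset_left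
  have h2 : (𝓑.biUnion (fun A => A ∩ X)).card ≤ (c ∩ X).card := by
    refine card_le_card ?_
    intro x hx
    obtain ⟨A, hA, hx⟩ := mem_biUnion.1 hx
    rw [mem_inter] at hx ⊢
    exact ⟨hc A hA hx.1, hx.2⟩
  rw [← h1] at h2
  exact_mod_cast h2

open Classical in
private lemma cel_irr {n : ℕ} (G : SimpleGraph (Fin n)) (ε : ℝ)
    (Q : Finpartition (univ : Finset (Fin n))) (hreg : GCR.Reg G ε Q) :
    ∑ A ∈ Q.parts, (irr G ε Q A : ℝ) ≤ ε * Q.parts.card ^ 2 := by
  refine le_trans (le_of_eq ?_) hreg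
  rw [card_filter, sum_product]
  push_cast
  refine sum_congr rfl fun A _ => ?_
  unfold irr
  rw [card_filter]
  push_cast
  refine sum_congr rfl fun Y _ => ?_
  refine if_congr ?_ rfl rfl
  rw [ne_comm]

open Classical in
theorem cel {n : ℕ} (hn : 0 < n) (G : SimpleGraph (Fin n))
    (P Q : Finpartition (univ : Finset (Fin n))) (hP : P.IsEquipartition)
    (hQe : Q.IsEquipartition) (ε δ θ : ℝ) (hδ : 0 < δ)
    (hε : 32 * (P.parts.card : ℝ) * ε ≤ δ) (hreg : GCR.Reg G ε Q)
    (𝓑 : Finset (Fin n) → Finset (Finset (Fin n)))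
    (h𝓑 : ∀ c ∈ P.parts, 𝓑 c ⊆ Q.parts ∧ (∀ A ∈ 𝓑 c, A ⊆ c) ∧
        3 / 4 * (c.card : ℝ) ≤ ∑ A ∈ 𝓑 c, (A.card : ℝ))
    (X : Finset (Fin n)) (hX : (X.card : ℝ) ≤ θ * n) (s : ℕ)
    (hs : (s : ℝ) ≤ (1 - 16 * θ) * P.parts.card) :
    ∃ (c : Fin s → Finset (Fin n)) (𝓒 : Fin s → Finset (Finset (Fin n))), Function.Injective c ∧
      (∀ i, c i ∈ P.parts) ∧ (∀ i, 𝓒 i ⊆ 𝓑 (c i)) ∧
      (∀ i, 1 / (8 * ((P.parts.card : ℝ) + 1)) * n ≤ ∑ A ∈ 𝓒 i, (A.card : ℝ)) ∧
      ∀ i, ∀ A ∈ 𝓒 i, 2 * (A ∩ X).card ≤ A.card ∧ (irr G ε Q A : ℝ) ≤ δ * Q.parts.card := by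
  have hn' : (0 : ℝ) < n := by exact_mod_cast hn
  have hPne : P.parts.Nonempty := by
    obtain ⟨A, hA, _⟩ := P.exists_mem (mem_univ (⟨0, hn⟩ : Fin n))
    exact ⟨A, hA⟩
  have hQne : Q.parts.Nonempty := by
    obtain ⟨A, hA, _⟩ := Q.exists_mem (mem_univ (⟨0, hn⟩ : Fin n))
    exact ⟨A, hA⟩
  have hk : (0 : ℝ) < P.parts.card := by exact_mod_cast card_pos.2 hPne
  have hK : (0 : ℝ) < Q.parts.card := by exact_mod_cast card_pos.2 hQne
  have hsP : ∀ c ∈ P.parts, (n : ℝ) ≤ 2 * P.parts.card * c.card := fun c hc => by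
    exact_mod_cast (cel_size P hP c hc).1
  have hsQ : ∀ A ∈ Q.parts, (Q.parts.card : ℝ) * A.card ≤ 2 * n := fun A hA => by
    exact_mod_cast (cel_size Q hQe A hA).2
  -- number of good cells
  have hgood : s ≤ (P.parts.filter (fun c => 8 * (c ∩ X).card ≤ c.card)).card := by
    have h1 : ∑ c ∈ P.parts.filter (fun c => ¬ 8 * (c ∩ X).card ≤ c.card), (c.card : ℝ) ≤
        8 * X.card := by
      have h2 : ∑ c ∈ P.parts, ((c ∩ X).card : ℝ) ≤ X.card := by
        have := cel_sum_le P P.parts (Subset.refl _) univ X (fun _ _ => subset_univ _)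
        rwa [univ_inter] at this
      calc ∑ c ∈ P.parts.filter (fun c => ¬ 8 * (c ∩ X).card ≤ c.card), (c.card : ℝ) ≤
          ∑ c ∈ P.parts.filter (fun c => ¬ 8 * (c ∩ X).card ≤ c.card), 8 * ((c ∩ X).card : ℝ) := by
            refine sum_le_sum fun c hc => ?_
            have := (mem_filter.1 hc).2
            push Not at this
            exact_mod_cast this.le
        _ ≤ ∑ c ∈ P.parts, 8 * ((c ∩ X).card : ℝ) :=
            sum_le_sum_of_subset_of_nonneg (filter_subset _ _) fun _ _ _ => by positivity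
        _ = 8 * ∑ c ∈ P.parts, ((c ∩ X).card : ℝ) := by rw [mul_sum]
        _ ≤ 8 * X.card := by linarith
    have h2 : ((P.parts.filter (fun c => ¬ 8 * (c ∩ X).card ≤ c.card)).card : ℝ) * n ≤
        2 * P.parts.card * (8 * X.card) := by
      calc ((P.parts.filter (fun c => ¬ 8 * (c ∩ X).card ≤ c.card)).card : ℝ) * n =
          ∑ _c ∈ P.parts.filter (fun c => ¬ 8 * (c ∩ X).card ≤ c.card), (n : ℝ) := by
            rw [sum_const, nsmul_eq_mul]
        _ ≤ ∑ c ∈ P.parts.filter (fun c => ¬ 8 * (c ∩ X).card ≤ c.card),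
            2 * P.parts.card * (c.card : ℝ) :=
            sum_le_sum fun c hc => hsP c (mem_filter.1 hc).1
        _ = 2 * P.parts.card * ∑ c ∈ P.parts.filter (fun c => ¬ 8 * (c ∩ X).card ≤ c.card),
            (c.card : ℝ) := by rw [mul_sum]
        _ ≤ 2 * P.parts.card * (8 * X.card) := mul_le_mul_of_nonneg_left h1 (by positivity)
    have h3 : ((P.parts.filter (fun c => ¬ 8 * (c ∩ X).card ≤ c.card)).card : ℝ) ≤
        16 * θ * P.parts.card := by
      have h4 : 2 * (P.parts.card : ℝ) * (8 * X.card) ≤ 16 * θ * P.parts.card * n := by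
        calc 2 * (P.parts.card : ℝ) * (8 * X.card) = 16 * P.parts.card * X.card := by ring
          _ ≤ 16 * P.parts.card * (θ * n) := mul_le_mul_of_nonneg_left hX (by positivity)
          _ = _ := by ring
      exact le_of_mul_le_mul_right (h2.trans h4) hn'
    have h4 := card_filter_add_card_filter_not (s := P.parts)
      (fun c : Finset (Fin n) => 8 * (c ∩ X).card ≤ c.card)
    have h5 : (P.parts.card : ℝ) =
        ((P.parts.filter (fun c => 8 * (c ∩ X).card ≤ c.card)).card : ℝ) +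
        ((P.parts.filter (fun c => ¬ 8 * (c ∩ X).card ≤ c.card)).card : ℝ) := by
      exact_mod_cast h4.symm
    have h6 : (s : ℝ) ≤ ((P.parts.filter (fun c => 8 * (c ∩ X).card ≤ c.card)).card : ℝ) := by
      linarith
    exact_mod_cast h6
  obtain ⟨t, htsub, htcard⟩ := exists_subset_card_eq hgood
  have hct : ∀ i : Fin s, ((t.equivFinOfCardEq htcard).symm i).1 ∈ t := fun i =>
    ((t.equivFinOfCardEq htcard).symm i).2
  -- irregular parts
  have hirr : ∑ A ∈ Q.parts.filter (fun A => ¬ (irr G ε Q A : ℝ) ≤ δ * Q.parts.card),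
      (A.card : ℝ) ≤ n / (16 * P.parts.card) := by
    have h1 := cel_irr G ε Q hreg
    have h2 : ((Q.parts.filter (fun A => ¬ (irr G ε Q A : ℝ) ≤ δ * Q.parts.card)).card : ℝ) *
        (δ * Q.parts.card) ≤ ε * Q.parts.card ^ 2 := by
      calc _ = ∑ _A ∈ Q.parts.filter (fun A => ¬ (irr G ε Q A : ℝ) ≤ δ * Q.parts.card),
            (δ * Q.parts.card) := by rw [sum_const, nsmul_eq_mul]
        _ ≤ ∑ A ∈ Q.parts.filter (fun A => ¬ (irr G ε Q A : ℝ) ≤ δ * Q.parts.card),
            (irr G ε Q A : ℝ) := sum_le_sum fun A hA => (not_le.1 (mem_filter.1 hA).2).le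
        _ ≤ ∑ A ∈ Q.parts, (irr G ε Q A : ℝ) :=
            sum_le_sum_of_subset_of_nonneg (filter_subset _ _) fun _ _ _ => by positivity
        _ ≤ _ := h1
    have h3 : (∑ A ∈ Q.parts.filter (fun A => ¬ (irr G ε Q A : ℝ) ≤ δ * Q.parts.card),
        (A.card : ℝ)) * Q.parts.card ≤
        ((Q.parts.filter (fun A => ¬ (irr G ε Q A : ℝ) ≤ δ * Q.parts.card)).card : ℝ) *
          (2 * n) := by
      rw [sum_mul]
      calc _ ≤ ∑ _A ∈ Q.parts.filter (fun A => ¬ (irr G ε Q A : ℝ) ≤ δ * Q.parts.card),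
            (2 * n : ℝ) := sum_le_sum fun A hA => by
              have := hsQ A (mem_filter.1 hA).1
              linarith
        _ = _ := by rw [sum_const, nsmul_eq_mul]
    set r := ((Q.parts.filter (fun A => ¬ (irr G ε Q A : ℝ) ≤ δ * Q.parts.card)).card : ℝ)
    set S := ∑ A ∈ Q.parts.filter (fun A => ¬ (irr G ε Q A : ℝ) ≤ δ * Q.parts.card),
        (A.card : ℝ)
    have h4 : r * δ ≤ ε * Q.parts.card := by
      have h5 : (r * δ) * Q.parts.card ≤ (ε * Q.parts.card) * Q.parts.card := by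
        calc (r * δ) * Q.parts.card = r * (δ * Q.parts.card) := by ring
          _ ≤ ε * Q.parts.card ^ 2 := h2
          _ = _ := by ring
      exact le_of_mul_le_mul_right h5 hK
    rw [le_div_iff₀ (by positivity)]
    have h5 : (S * (16 * P.parts.card)) * (δ * Q.parts.card) ≤ n * (δ * Q.parts.card) := by
      calc (S * (16 * P.parts.card)) * (δ * Q.parts.card) =
          (S * Q.parts.card) * (16 * P.parts.card * δ) := by ring
        _ ≤ (r * (2 * n)) * (16 * P.parts.card * δ) :=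
          mul_le_mul_of_nonneg_right h3 (by positivity)
        _ = (r * δ) * (32 * P.parts.card * n) := by ring
        _ ≤ (ε * Q.parts.card) * (32 * P.parts.card * n) :=
          mul_le_mul_of_nonneg_right h4 (by positivity)
        _ = (32 * P.parts.card * ε) * (Q.parts.card * n) := by ring
        _ ≤ δ * (Q.parts.card * n) := mul_le_mul_of_nonneg_right hε (by positivity)
        _ = n * (δ * Q.parts.card) := by ring
    exact le_of_mul_le_mul_right h5 (by positivity)
  refine ⟨fun i => ((t.equivFinOfCardEq htcard).symm i).1, fun i =>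
    (𝓑 ((t.equivFinOfCardEq htcard).symm i).1).filter
      (fun A => 2 * (A ∩ X).card ≤ A.card ∧ (irr G ε Q A : ℝ) ≤ δ * Q.parts.card),
    ?_, ?_, ?_, ?_, ?_⟩
  · intro i j hij
    exact (t.equivFinOfCardEq htcard).symm.injective (Subtype.ext hij)
  · intro i
    exact (mem_filter.1 (htsub (hct i))).1
  · intro i
    exact filter_subset _ _
  · intro i
    set c := ((t.equivFinOfCardEq htcard).symm i).1 with hc
    obtain ⟨hcP, hcX⟩ := mem_filter.1 (htsub (hct i))
    rw [← hc] at hcP hcX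
    obtain ⟨hB1, hB2, hB3⟩ := h𝓑 c hcP
    have h1 : ∑ A ∈ 𝓑 c, (A.card : ℝ) ≤
        ∑ A ∈ (𝓑 c).filter (fun A => 2 * (A ∩ X).card ≤ A.card ∧
          (irr G ε Q A : ℝ) ≤ δ * Q.parts.card), (A.card : ℝ) +
        ∑ A ∈ 𝓑 c, 2 * ((A ∩ X).card : ℝ) +
        ∑ A ∈ Q.parts.filter (fun A => ¬ (irr G ε Q A : ℝ) ≤ δ * Q.parts.card), (A.card : ℝ) := by
      have h2 : ∑ A ∈ (𝓑 c).filter (fun A => ¬ (irr G ε Q A : ℝ) ≤ δ * Q.parts.card),
          (A.card : ℝ) ≤
          ∑ A ∈ Q.parts.filter (fun A => ¬ (irr G ε Q A : ℝ) ≤ δ * Q.parts.card),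
            (A.card : ℝ) :=
        sum_le_sum_of_subset_of_nonneg (filter_subset_filter _ hB1) fun _ _ _ => by positivity
      refine le_trans ?_ (add_le_add_right h2 _)
      rw [sum_filter, sum_filter, ← sum_add_distrib, ← sum_add_distrib]
      refine sum_le_sum fun A _ => ?_
      have hA0 : (0 : ℝ) ≤ A.card := Nat.cast_nonneg _
      have hA1 : (0 : ℝ) ≤ (A ∩ X).card := Nat.cast_nonneg _
      by_cases ha : 2 * (A ∩ X).card ≤ A.card
      · by_cases hb : (irr G ε Q A : ℝ) ≤ δ * Q.parts.card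
        · rw [if_pos ⟨ha, hb⟩, if_neg (not_not.2 hb)]
          linarith
        · rw [if_neg (fun h => hb h.2), if_pos hb]
          linarith
      · rw [if_neg (fun h => ha h.1)]
        have h3 : (A.card : ℝ) ≤ 2 * ((A ∩ X).card : ℝ) := by
          push Not at ha
          exact_mod_cast ha.le
        split_ifs <;> linarith
    have h2 : ∑ A ∈ 𝓑 c, 2 * ((A ∩ X).card : ℝ) ≤ c.card / 4 := by
      rw [← mul_sum]
      have h3 := cel_sum_le Q (𝓑 c) hB1 c X hB2
      have h4 : 8 * ((c ∩ X).card : ℝ) ≤ c.card := by exact_mod_cast hcX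
      linarith
    have h3 := hsP c hcP
    have h4 : (n : ℝ) / (16 * P.parts.card) ≤ c.card / 8 := by
      rw [div_le_iff₀ (by positivity)]
      calc (n : ℝ) ≤ 2 * P.parts.card * c.card := h3
        _ = _ := by ring
    have h5 : 1 / (8 * ((P.parts.card : ℝ) + 1)) * n ≤ c.card / 4 := by
      rw [one_div, inv_mul_le_iff₀ (by positivity)]
      have : (0 : ℝ) ≤ c.card := Nat.cast_nonneg _
      nlinarith
    have h6 : (0 : ℝ) ≤ c.card := Nat.cast_nonneg _
    linarith
  · intro i A hA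
    exact (mem_filter.1 hA).2

end GCU
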