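import Pool.Agent.GCU.Defs
import Pool.Agent.GCQ.SM
import Pool.Agent.GCP.Count

/-!
# GCU-Clq: a transversal clique with typical traces

By the counting lemma there are at least `q * ∏ |A i|` transversal cliques of `A'`, `q = 1 / 2 * (g ^ (s ^ 2) * (1 / 2) ^ s)`;
the second moment bound `GCQ.sm`, summed over `Y ∈ 𝒴`, shows that some clique has typical traces.
-/

set_option autoImplicit false

open Finset

namespace GCU

private theorem dn_nonneg {n : ℕ} (G : SimpleGraph (Fin n)) (U V : Finset (Fin n)) :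
    0 ≤ GCP.dn G U V := by
  unfold GCP.dn
  positivity

private theorem dn_le_one {n : ℕ} (G : SimpleGraph (Fin n)) (U V : Finset (Fin n)) :
    GCP.dn G U V ≤ 1 := by
  unfold GCP.dn
  apply div_le_one_of_le₀ _ (by positivity)
  have h : GCP.edg G U V ≤ U.card * V.card := by
    classical
    unfold GCP.edg
    rw [← Finset.card_product]
    exact Finset.card_le_card (Finset.filter_subset _ _)
  exact_mod_cast h

open Classical in
theorem clq {n s : ℕ} (G : SimpleGraph (Fin n)) (A A' : Fin s → Finset (Fin n))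
    (hA : ∀ i, A' i ⊆ A i) (hne : ∀ i, (A i).Nonempty) (hA2 : ∀ i, (A i).card ≤ 2 * (A' i).card)
    (ε g δ : ℝ) (hε : 0 ≤ ε) (hg0 : 0 < g) (hg1 : g ≤ 1) (hδ : 0 ≤ δ)
    (hbad : ∀ i j, i < j → ¬ GCP.BadP G ε g (A i) (A j))
    (h1 : (s : ℝ) ^ 2 * ε ≤ 1 / 2 * (g ^ (s ^ 2) * (1 / 2) ^ s))
    (h2 : 2 ^ s * (2 * (s + 2) * √ε) ≤ δ * (1 / 2 * (g ^ (s ^ 2) * (1 / 2) ^ s)))
    (𝒴 : Finset (Finset (Fin n))) (h𝒴 : ∑ Y ∈ 𝒴, (Y.card : ℝ) ≤ n)
    (hcut : ∀ Y ∈ 𝒴, ∀ i, GCP.Cut G (A i) Y ε (GCP.dn G (A i) Y)) :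
    ∃ u ∈ GCP.trans G A', ∑ Y ∈ 𝒴, ∑ S : Finset (Fin s),
      |(((Y.filter (fun v => GCQ.tr G u v = S)).card : ℕ) : ℝ) -
        (∏ i, if i ∈ S then GCP.dn G (A i) Y else 1 - GCP.dn G (A i) Y) * Y.card| ≤ δ * n := by
  have hd : ∀ i j, i < j → GCP.Cut G (A i) (A j) ε (GCP.dn G (A i) (A j)) ∧
      g ≤ GCP.dn G (A i) (A j) := by
    intro i j hij
    have h := hbad i j hij
    unfold GCP.BadP at h
    push Not at h
    exact ⟨h.2.1, h.2.2⟩
  obtain ⟨W, hW⟩ : ∃ W : ℝ, W = ∏ i, ((A i).card : ℝ) := ⟨_, rfl⟩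
  have hW0 : 0 < W := by
    rw [hW]
    exact Finset.prod_pos fun i _ => by exact_mod_cast (hne i).card_pos
  obtain ⟨E, hE⟩ : ∃ E : ℝ, E = g ^ (s ^ 2) * (1 / 2) ^ s := ⟨_, rfl⟩
  rw [← hE] at h1 h2
  have hE0 : 0 < E := by rw [hE]; positivity
  obtain ⟨K, hK⟩ : ∃ K : ℝ, K = ((GCP.trans G A').card : ℝ) := ⟨_, rfl⟩
  -- (1) the number of the transversal cliques
  have hcount : 1 / 2 * E * W ≤ K := by
    have h3 := GCP.count G A A' hA ε hε (fun i j => GCP.dn G (A i) (A j))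
      (fun i j _ => dn_nonneg G _ _) (fun i j _ => dn_le_one G _ _) (fun i j hij => (hd i j hij).1)
    rw [← hW, ← hK] at h3
    have h4 := (abs_le.1 h3).1
    have h5 : g ^ (s ^ 2) ≤ ∏ p ∈ GCP.prs s, GCP.dn G (A p.1) (A p.2) := by
      have hc : (GCP.prs s).card ≤ s ^ 2 := by
        unfold GCP.prs
        refine (Finset.card_le_univ _).trans ?_
        simp [sq]
      calc g ^ (s ^ 2) ≤ g ^ (GCP.prs s).card := pow_le_pow_of_le_one hg0.le hg1 hc
        _ = ∏ p ∈ GCP.prs s, g := by rw [Finset.prod_const]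
        _ ≤ _ := Finset.prod_le_prod (fun p _ => hg0.le) (fun p hp =>
            (hd p.1 p.2 (by simpa [GCP.prs] using hp)).2)
    have h6 : (1 / 2) ^ s * W ≤ ∏ i, ((A' i).card : ℝ) := by
      rw [hW]
      calc (1 / 2 : ℝ) ^ s * ∏ i, ((A i).card : ℝ) = ∏ i, (1 / 2 * ((A i).card : ℝ)) := by
            rw [Finset.prod_mul_distrib, Finset.prod_const, Finset.card_univ, Fintype.card_fin]
        _ ≤ _ := Finset.prod_le_prod (fun i _ => by positivity) (fun i _ => by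
            have : ((A i).card : ℝ) ≤ 2 * ((A' i).card : ℝ) := by exact_mod_cast hA2 i
            linarith)
    have h7 : E * W ≤ (∏ p ∈ GCP.prs s, GCP.dn G (A p.1) (A p.2)) * ∏ i, ((A' i).card : ℝ) := by
      rw [hE, mul_assoc]
      exact mul_le_mul h5 h6 (by positivity) (le_trans (by positivity) h5)
    have h8 : (s : ℝ) ^ 2 * ε * W ≤ 1 / 2 * E * W := mul_le_mul_of_nonneg_right h1 hW0.le
    linarith
  have hK0 : 0 < K := lt_of_lt_of_le (by positivity) hcount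
  have hne' : (GCP.trans G A').Nonempty := by
    rw [← Finset.card_pos]
    rw [hK] at hK0
    exact_mod_cast hK0
  -- (2) the second moment
  have hsum : ∑ u ∈ GCP.trans G A', ∑ Y ∈ 𝒴, ∑ S : Finset (Fin s),
      |(((Y.filter (fun v => GCQ.tr G u v = S)).card : ℕ) : ℝ) -
        (∏ i, if i ∈ S then GCP.dn G (A i) Y else 1 - GCP.dn G (A i) Y) * Y.card| ≤
      ∑ u ∈ GCP.trans G A', δ * n := by
    rw [Finset.sum_comm]
    have h3 : ∀ Y ∈ 𝒴, ∑ u ∈ GCP.trans G A', ∑ S : Finset (Fin s),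
        |(((Y.filter (fun v => GCQ.tr G u v = S)).card : ℕ) : ℝ) -
          (∏ i, if i ∈ S then GCP.dn G (A i) Y else 1 - GCP.dn G (A i) Y) * Y.card| ≤
        2 ^ s * (2 * (s + 2) * √ε) * W * Y.card := by
      intro Y hY
      rw [hW]
      exact GCQ.sm G A A' Y hA ε hε (fun i j => GCP.dn G (A i) (A j)) (fun i => GCP.dn G (A i) Y)
        (fun i j _ => ⟨dn_nonneg G _ _, dn_le_one G _ _⟩) (fun i => ⟨dn_nonneg G _ _, dn_le_one G _ _⟩)
        (fun i j hij => (hd i j hij).1) (fun i => hcut Y hY i)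
    refine (Finset.sum_le_sum h3).trans ?_
    rw [← Finset.mul_sum, Finset.sum_const, nsmul_eq_mul, ← hK]
    calc 2 ^ s * (2 * (s + 2) * √ε) * W * ∑ Y ∈ 𝒴, (Y.card : ℝ)
        ≤ 2 ^ s * (2 * (s + 2) * √ε) * W * n := by
          apply mul_le_mul_of_nonneg_left h𝒴
          positivity
      _ ≤ δ * (1 / 2 * E) * W * n := by
          gcongr
      _ = 1 / 2 * E * W * (δ * n) := by ring
      _ ≤ K * (δ * n) := by
          apply mul_le_mul_of_nonneg_right hcount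
          positivity
  obtain ⟨u, hu, hu2⟩ := Finset.exists_le_of_sum_le hne' hsum
  exact ⟨u, hu, hu2⟩

end GCU
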