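import Pool.Agent.GCU.Chb

/-!
# GCU-DegP: blocks with typical traces see the degrees

`bad_card`: in `Y ∈ 𝒴` few vertices have a trace whose size is far from `∑ i, dn G (A i) Y` (Chebyshev, `Mdl`).
`cut_step`: `Cut` with the subsets `A i` and `V0 ∩ Y` replaces the densities by the degrees to the sets `A i`.
`cs_step`: Cauchy-Schwarz replaces the `A i` by the parts `c i`. `parts_step`: the degrees to the parts `c i` add up
to at most the degree. `degP` adds the errors.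
-/

set_option autoImplicit false

open Finset

namespace GCU

open Classical in
private theorem bad_card {n s : ℕ} (G : SimpleGraph (Fin n)) (u : Fin s → Fin n) (Y : Finset (Fin n))
    (x : Fin s → ℝ) (hx : ∀ i, 0 ≤ x i ∧ x i ≤ 1) (hs : 0 < s) (t : ℝ) (ht : 0 < t) :
    ((Y.filter (fun v => t * s ≤ |((GCQ.tr G u v).card : ℝ) - ∑ i, x i|)).card : ℝ) ≤
      Y.card / (t ^ 2 * s) + ∑ S : Finset (Fin s),
        |(((Y.filter (fun v => GCQ.tr G u v = S)).card : ℕ) : ℝ) -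
          (∏ i, if i ∈ S then x i else 1 - x i) * Y.card| := by
  have hne : (univ : Finset (Fin s)).Nonempty := ⟨⟨0, hs⟩, mem_univ _⟩
  have hchb := chb x hx univ hne t ht
  rw [card_univ, Fintype.card_fin] at hchb
  have hw : ∀ S : Finset (Fin s), 0 ≤ ∏ i, if i ∈ S then x i else 1 - x i := by
    intro S
    refine prod_nonneg fun i _ => ?_
    split_ifs
    · exact (hx i).1
    · linarith [(hx i).2]
  have h1 : ((Y.filter (fun v => t * s ≤ |((GCQ.tr G u v).card : ℝ) - ∑ i, x i|)).card : ℝ) =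
      ∑ S : Finset (Fin s), if t * s ≤ |(S.card : ℝ) - ∑ i, x i| then
        (((Y.filter (fun v => GCQ.tr G u v = S)).card : ℕ) : ℝ) else 0 := by
    rw [card_eq_sum_card_fiberwise (f := fun v => GCQ.tr G u v) (t := univ) (fun _ _ => by simp)]
    push_cast
    refine sum_congr rfl fun S _ => ?_
    rw [filter_filter]
    split_ifs with h
    · congr 2
      refine filter_congr fun v _ => ?_
      constructor
      · exact fun h' => h'.2
      · intro h'
        exact ⟨by rw [h']; exact h, h'⟩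
    · rw [Nat.cast_eq_zero, card_eq_zero]
      refine filter_eq_empty_iff.2 fun v _ h' => h ?_
      rw [← h'.2]
      exact h'.1
  have h2 : ∑ S : Finset (Fin s), (if t * s ≤ |(S.card : ℝ) - ∑ i, x i| then
        (((Y.filter (fun v => GCQ.tr G u v = S)).card : ℕ) : ℝ) else 0) ≤
      ∑ S : Finset (Fin s), (Y.card * ((∏ i, if i ∈ S then x i else 1 - x i) *
        (if t * s ≤ |((S ∩ univ).card : ℝ) - ∑ i, x i| then 1 else 0)) +
        |(((Y.filter (fun v => GCQ.tr G u v = S)).card : ℕ) : ℝ) -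
          (∏ i, if i ∈ S then x i else 1 - x i) * Y.card|) := by
    refine sum_le_sum fun S _ => ?_
    rw [inter_univ]
    have h3 := le_abs_self ((((Y.filter (fun v => GCQ.tr G u v = S)).card : ℕ) : ℝ) -
          (∏ i, if i ∈ S then x i else 1 - x i) * Y.card)
    split_ifs with h
    · linarith
    · have := abs_nonneg ((((Y.filter (fun v => GCQ.tr G u v = S)).card : ℕ) : ℝ) -
          (∏ i, if i ∈ S then x i else 1 - x i) * Y.card)
      simp only [mul_zero, zero_add]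
      exact this
  rw [h1]
  refine h2.trans ?_
  rw [sum_add_distrib, ← mul_sum]
  have h4 : (∑ S : Finset (Fin s), (∏ i, if i ∈ S then x i else 1 - x i) *
        (if t * s ≤ |((S ∩ univ).card : ℝ) - ∑ i, x i| then 1 else 0)) ≤ 1 / (t ^ 2 * s) := hchb
  have h5 := mul_le_mul_of_nonneg_left h4 (Nat.cast_nonneg (α := ℝ) Y.card)
  rw [mul_one_div] at h5
  linarith

open Classical in
private theorem edg_sum {n : ℕ} (G : SimpleGraph (Fin n)) (A V : Finset (Fin n)) :
    (GCP.edg G A V : ℝ) = ∑ v ∈ V, ((A ∩ nh G v).card : ℝ) := by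
  unfold GCP.edg
  rw [card_filter, sum_product_right]
  push_cast
  refine sum_congr rfl fun v _ => ?_
  have h1 : A ∩ nh G v = A.filter (fun a => G.Adj a v) := by
    ext a
    simp [nh, G.adj_comm a v]
  rw [h1, card_filter]
  push_cast
  rfl

private theorem cut_step {n : ℕ} (G : SimpleGraph (Fin n)) {A Y V : Finset (Fin n)} (hA : A.Nonempty)
    (hV : V ⊆ Y) {ε : ℝ} (hcut : GCP.Cut G A Y ε (GCP.dn G A Y)) :
    GCP.dn G A Y * V.card ≤ ∑ v ∈ V, GCR.rd A (nh G v) + ε * Y.card := by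
  have hAc : (0 : ℝ) < A.card := by exact_mod_cast hA.card_pos
  have h1 := (abs_le.1 (hcut A (Subset.refl _) V hV)).1
  rw [edg_sum] at h1
  have h2 : ∑ v ∈ V, GCR.rd A (nh G v) = (∑ v ∈ V, ((A ∩ nh G v).card : ℝ)) / A.card := by
    unfold GCR.rd
    rw [sum_div]
  rw [h2]
  have h3 : GCP.dn G A Y * V.card * A.card ≤
      ((∑ v ∈ V, ((A ∩ nh G v).card : ℝ)) / A.card + ε * Y.card) * A.card := by
    rw [add_mul, div_mul_cancel₀ _ hAc.ne']
    linarith
  exact le_of_mul_le_mul_right h3 hAc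

private theorem cs_step {n s : ℕ} (G : SimpleGraph (Fin n)) (A c : Fin s → Finset (Fin n))
    (V0 : Finset (Fin n)) {B : ℝ} (hB : 0 ≤ B) (h : (n : ℝ) * s * ∑ i, cl G (A i) (c i) ≤ B ^ 2) :
    ∑ v ∈ V0, ∑ i, GCR.rd (A i) (nh G v) ≤ ∑ v ∈ V0, ∑ i, GCR.rd (c i) (nh G v) + B := by
  have h1 : (∑ p ∈ V0 ×ˢ (univ : Finset (Fin s)),
      (GCR.rd (A p.2) (nh G p.1) - GCR.rd (c p.2) (nh G p.1))) ^ 2 ≤ B ^ 2 := by
    refine le_trans sq_sum_le_card_mul_sum_sq (le_trans ?_ h)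
    have h2 : ((V0 ×ˢ (univ : Finset (Fin s))).card : ℝ) ≤ n * s := by
      rw [card_product, card_univ, Fintype.card_fin]
      push_cast
      have h3 : V0.card ≤ n := by simpa using card_le_univ V0
      have h4 : (V0.card : ℝ) ≤ n := by exact_mod_cast h3
      exact mul_le_mul_of_nonneg_right h4 (Nat.cast_nonneg _)
    have h5 : ∑ p ∈ V0 ×ˢ (univ : Finset (Fin s)),
        (GCR.rd (A p.2) (nh G p.1) - GCR.rd (c p.2) (nh G p.1)) ^ 2 ≤ ∑ i, cl G (A i) (c i) := by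
      rw [sum_product_right]
      refine sum_le_sum fun i _ => ?_
      unfold cl
      exact sum_le_sum_of_subset_of_nonneg (subset_univ _) (fun _ _ _ => sq_nonneg _)
    exact mul_le_mul h2 h5 (sum_nonneg fun _ _ => sq_nonneg _) (by positivity)
  have h2 := le_trans (le_abs_self _) (abs_le_of_sq_le_sq h1 hB)
  rw [sum_product] at h2
  simp only [sum_sub_distrib] at h2
  linarith

private theorem parts_step {n s : ℕ} (G : SimpleGraph (Fin n))
    (P : Finpartition (univ : Finset (Fin n))) (hP : P.IsEquipartition)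
    (c : Fin s → Finset (Fin n)) (hc : Function.Injective c) (hcP : ∀ i, c i ∈ P.parts) {ζ : ℝ}
    (hζ : 0 < ζ) (hks : (P.parts.card : ℝ) ≤ (1 + ζ / 8) * s) (hn1 : 2 * P.parts.card ≤ n)
    (hn0 : 0 < n) (hk0 : 0 < P.parts.card) (v : Fin n) :
    ∑ i, GCR.rd (c i) (nh G v) ≤ s / n * (GCQ.dg G v : ℝ) + ζ / 8 * s +
      2 * (P.parts.card : ℝ) ^ 2 / n := by
  classical
  set k := P.parts.card with hk
  have hnR : (0 : ℝ) < n := by exact_mod_cast hn0
  have hkR : (0 : ℝ) < k := by exact_mod_cast hk0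
  have h2k : (2 : ℝ) * k ≤ n := by exact_mod_cast hn1
  have hnk : (0 : ℝ) < n - k := by linarith
  have hdgn : (GCQ.dg G v : ℝ) ≤ n := by
    have : GCQ.dg G v ≤ n := by
      unfold GCQ.dg
      simpa using card_filter_le (univ : Finset (Fin n)) (fun w => G.Adj v w)
    exact_mod_cast this
  have hdg0 : (0 : ℝ) ≤ GCQ.dg G v := Nat.cast_nonneg _
  -- size of the parts
  have hsize : ∀ i, ((n : ℝ) - k) / k ≤ (c i).card := by
    intro i
    have h1 := hP.average_le_card_part (hcP i)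
    rw [card_univ, Fintype.card_fin] at h1
    have h2 : n < k * (n / k) + k := Nat.lt_mul_div_succ n hk0
    have h3 : (n : ℝ) < k * ((n / k : ℕ) : ℝ) + k := by exact_mod_cast h2
    have h4 : ((n / k : ℕ) : ℝ) ≤ (c i).card := by exact_mod_cast h1
    rw [div_le_iff₀ hkR]
    have h5 : (k : ℝ) * ((n / k : ℕ) : ℝ) ≤ k * (c i).card := mul_le_mul_of_nonneg_left h4 hkR.le
    linarith
  have hpos : (0 : ℝ) < (n - k) / k := div_pos hnk hkR
  have hsum : ∑ i, ((c i ∩ nh G v).card : ℝ) ≤ GCQ.dg G v := by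
    have h1 : (((univ : Finset (Fin s)).biUnion (fun i => c i ∩ nh G v)).card : ℝ) =
        ∑ i, ((c i ∩ nh G v).card : ℝ) := by
      rw [card_biUnion]
      · push_cast
        rfl
      · intro i _ j _ hij
        have h2 : Disjoint (c i) (c j) := P.disjoint (hcP i) (hcP j) (fun h => hij (hc h))
        exact h2.mono inter_subset_left inter_subset_left
    rw [← h1]
    have h3 : ((univ : Finset (Fin s)).biUnion (fun i => c i ∩ nh G v)).card ≤ GCQ.dg G v := by
      unfold GCQ.dg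
      refine card_le_card ?_
      intro w hw
      rw [mem_biUnion] at hw
      obtain ⟨i, _, hi⟩ := hw
      have h4 := (mem_inter.1 hi).2
      simpa [nh] using h4
    exact_mod_cast h3
  have h1 : ∑ i, GCR.rd (c i) (nh G v) ≤ ∑ i, ((c i ∩ nh G v).card : ℝ) * (k / (n - k)) := by
    refine sum_le_sum fun i _ => ?_
    unfold GCR.rd
    have h2 : (0 : ℝ) < (c i).card := lt_of_lt_of_le hpos (hsize i)
    rw [div_eq_mul_inv]
    refine mul_le_mul_of_nonneg_left ?_ (Nat.cast_nonneg _)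
    have h3 := inv_anti₀ hpos (hsize i)
    rwa [inv_div] at h3
  have h2 : ∑ i, ((c i ∩ nh G v).card : ℝ) * (k / (n - k)) ≤ GCQ.dg G v * (k / (n - k)) := by
    rw [← sum_mul]
    exact mul_le_mul_of_nonneg_right hsum (by positivity)
  have h3 : (k : ℝ) / (n - k) ≤ k / n + 2 * k ^ 2 / n ^ 2 := by
    have e : (k : ℝ) / n + 2 * k ^ 2 / n ^ 2 = (k * n + 2 * k ^ 2) / n ^ 2 := by
      field_simp
    rw [e, div_le_div_iff₀ hnk (by positivity)]
    have h4 : (0 : ℝ) ≤ k * k * (n - 2 * k) := by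
      have : (0 : ℝ) ≤ n - 2 * k := by linarith
      positivity
    nlinarith [h4]
  have h4 : (GCQ.dg G v : ℝ) * (k / (n - k)) ≤ GCQ.dg G v * (k / n + 2 * k ^ 2 / n ^ 2) :=
    mul_le_mul_of_nonneg_left h3 hdg0
  have h5 : (GCQ.dg G v : ℝ) * (2 * k ^ 2 / n ^ 2) ≤ 2 * k ^ 2 / n := by
    have h6 : (GCQ.dg G v : ℝ) * (2 * k ^ 2 / n ^ 2) ≤ n * (2 * k ^ 2 / n ^ 2) :=
      mul_le_mul_of_nonneg_right hdgn (by positivity)
    have h7 : (n : ℝ) * (2 * k ^ 2 / n ^ 2) = 2 * k ^ 2 / n := by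
      field_simp
    linarith
  have h6 : (GCQ.dg G v : ℝ) * (k / n) ≤ s / n * (GCQ.dg G v : ℝ) + ζ / 8 * s := by
    have h7 : (GCQ.dg G v : ℝ) * (k / n) ≤ GCQ.dg G v * ((1 + ζ / 8) * s / n) :=
      mul_le_mul_of_nonneg_left (div_le_div_of_nonneg_right hks hnR.le) hdg0
    have h8 : (GCQ.dg G v : ℝ) * ((1 + ζ / 8) * s / n) =
        s / n * (GCQ.dg G v : ℝ) + ζ / 8 * s * (GCQ.dg G v / n) := by
      ring
    have h9 : (GCQ.dg G v : ℝ) / n ≤ 1 := (div_le_one hnR).2 hdgn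
    have h10 : ζ / 8 * s * (GCQ.dg G v / n) ≤ ζ / 8 * s * 1 :=
      mul_le_mul_of_nonneg_left h9 (by positivity)
    linarith
  rw [mul_add] at h4
  linarith

private theorem rd_nonneg {n : ℕ} (A T : Finset (Fin n)) : 0 ≤ GCR.rd A T := by
  unfold GCR.rd
  positivity

private theorem dn_mem {n : ℕ} (G : SimpleGraph (Fin n)) (A Y : Finset (Fin n)) :
    0 ≤ GCP.dn G A Y ∧ GCP.dn G A Y ≤ 1 := by
  classical
  constructor
  · unfold GCP.dn
    positivity
  · unfold GCP.dn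
    have h : GCP.edg G A Y ≤ A.card * Y.card := by
      unfold GCP.edg
      exact (card_filter_le _ _).trans (by rw [card_product])
    have h' : (GCP.edg G A Y : ℝ) ≤ A.card * Y.card := by exact_mod_cast h
    exact div_le_one_of_le₀ h' (by positivity)

theorem degP {n s : ℕ} (G : SimpleGraph (Fin n)) (u : Fin s → Fin n)
    (A : Fin s → Finset (Fin n)) (hne : ∀ i, (A i).Nonempty) (𝒴 : Finset (Finset (Fin n)))
    (δ ε ζ η : ℝ) (hM : Mdl G u A 𝒴 δ) (hε0 : 0 ≤ ε)
    (hcut : ∀ Y ∈ 𝒴, ∀ i, GCP.Cut G (A i) Y ε (GCP.dn G (A i) Y))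
    (P : Finpartition (univ : Finset (Fin n))) (hP : P.IsEquipartition)
    (c : Fin s → Finset (Fin n)) (hc : Function.Injective c) (hcP : ∀ i, c i ∈ P.parts)
    (hcl : ∑ i, cl G (A i) (c i) ≤ 8 * η * P.parts.card * n) (hζ : 0 < ζ) (hζ1 : ζ ≤ 1)
    (hη0 : 0 ≤ η) (hη : √(8 * η) * 2 ≤ ζ / 8) (hks : (P.parts.card : ℝ) ≤ (1 + ζ / 8) * s)
    (hs : 512 ≤ ζ ^ 3 * s) (hδ : δ ≤ ζ / 8) (hε : ε ≤ ζ / 16)
    (hn1 : 2 * P.parts.card ≤ n) (hn : 2 * (P.parts.card : ℝ) ^ 2 ≤ ζ / 16 * s * n) :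
    DegS G u ζ := by
  classical
  intro V0
  obtain ⟨hdisj, hcov, hdev⟩ := hM
  -- positivity
  have hs0 : 0 < s := by
    rcases Nat.eq_zero_or_pos s with h | h
    · rw [h] at hs
      norm_num at hs
    · exact h
  have hsR : (0 : ℝ) < s := by exact_mod_cast hs0
  have hn0 : 0 < n := by
    obtain ⟨x, _⟩ := hne ⟨0, hs0⟩
    exact lt_of_le_of_lt (Nat.zero_le _) x.2
  have hnR : (0 : ℝ) < n := by exact_mod_cast hn0
  set k := P.parts.card with hk
  have hsk : s ≤ k := by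
    have h1 : (univ.image c).card ≤ P.parts.card :=
      card_le_card (fun x hx => by
        obtain ⟨i, _, rfl⟩ := mem_image.1 hx
        exact hcP i)
    rw [card_image_of_injective _ hc, card_univ, Fintype.card_fin] at h1
    exact h1
  have hk0 : 0 < k := lt_of_lt_of_le hs0 hsk
  have hkR : (0 : ℝ) < k := by exact_mod_cast hk0
  have hskR : (s : ℝ) ≤ k := by exact_mod_cast hsk
  have hk2s : (k : ℝ) ≤ 2 * s := by
    have h1 : (1 + ζ / 8) * s ≤ 2 * s := mul_le_mul_of_nonneg_right (by linarith) hsR.le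
    linarith
  set t : ℝ := ζ / 8 with ht
  have ht0 : 0 < t := by rw [ht]; linarith
  set T : Fin n → ℝ := fun v => ((GCQ.tr G u v).card : ℝ) with hT
  have hTs : ∀ v, T v ≤ s := by
    intro v
    have h1 : (GCQ.tr G u v).card ≤ s := by simpa using card_le_univ (GCQ.tr G u v)
    show ((GCQ.tr G u v).card : ℝ) ≤ s
    exact_mod_cast h1
  have hT0 : ∀ v, 0 ≤ T v := fun v => Nat.cast_nonneg _
  set U : Finset (Fin n) := 𝒴.biUnion id with hU
  have hUcard : (U.card : ℝ) = ∑ Y ∈ 𝒴, (Y.card : ℝ) := by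
    rw [hU, card_biUnion (fun a ha b hb hab => hdisj ha hb hab)]
    push_cast
    rfl
  have hUn : (U.card : ℝ) ≤ n := by
    have : U.card ≤ n := by simpa using card_le_univ U
    exact_mod_cast this
  -- the vertices outside
  have hout : ∑ v ∈ V0 \ U, T v ≤ s * (δ * n) := by
    have h1 : ∑ v ∈ V0 \ U, T v ≤ ∑ v ∈ V0 \ U, (s : ℝ) := sum_le_sum fun v _ => hTs v
    rw [sum_const, nsmul_eq_mul] at h1
    have h2 : ((V0 \ U).card : ℝ) ≤ δ * n := by
      have h3 : (V0 \ U).card ≤ Uᶜ.card := card_le_card (fun v hv => by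
        rw [mem_compl]
        exact (mem_sdiff.1 hv).2)
      have h4 : ((V0 \ U).card : ℝ) ≤ (Uᶜ.card : ℝ) := by exact_mod_cast h3
      have h5 : (Uᶜ.card : ℝ) = n - U.card := by
        have h6 := card_add_card_compl U
        rw [Fintype.card_fin] at h6
        have h7 : (U.card : ℝ) + Uᶜ.card = n := by exact_mod_cast h6
        linarith
      rw [hUcard] at h5
      linarith
    have h3 : ((V0 \ U).card : ℝ) * s ≤ δ * n * s := mul_le_mul_of_nonneg_right h2 hsR.le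
    linarith
  have hin : ∑ v ∈ V0 ∩ U, T v = ∑ Y ∈ 𝒴, ∑ v ∈ V0 ∩ Y, T v := by
    have h1 : V0 ∩ U = 𝒴.biUnion (fun Y => V0 ∩ Y) := by
      ext v
      simp only [hU, mem_inter, mem_biUnion, id]
      constructor
      · rintro ⟨h1, Y, hY, hv⟩
        exact ⟨Y, hY, h1, hv⟩
      · rintro ⟨Y, hY, h1, hv⟩
        exact ⟨h1, Y, hY, hv⟩
    rw [h1, sum_biUnion]
    intro a ha b hb hab
    have h2 : Disjoint a b := hdisj ha hb hab
    exact h2.mono inter_subset_right inter_subset_right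
  -- the vertices of one set
  set dev : Finset (Fin n) → ℝ := fun Y => ∑ S : Finset (Fin s),
    |(((Y.filter (fun v => GCQ.tr G u v = S)).card : ℕ) : ℝ) -
      (∏ i, if i ∈ S then GCP.dn G (A i) Y else 1 - GCP.dn G (A i) Y) * Y.card| with hdevdef
  have hone : ∀ Y ∈ 𝒴, ∑ v ∈ V0 ∩ Y, T v ≤ ∑ v ∈ V0 ∩ Y, ∑ i, GCR.rd (A i) (nh G v) +
      s * ε * Y.card + t * s * Y.card + s * (Y.card / (t ^ 2 * s) + dev Y) := by
    intro Y hY
    have hbad := bad_card G u Y (fun i => GCP.dn G (A i) Y) (fun i => dn_mem G (A i) Y) hs0 t ht0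
    set y : ℝ := ∑ i, GCP.dn G (A i) Y with hy
    have hpt : ∀ v ∈ V0 ∩ Y, T v ≤ y + t * s + (if t * s ≤ |T v - y| then (s : ℝ) else 0) := by
      intro v _
      have hy0 : 0 ≤ y := sum_nonneg fun i _ => (dn_mem G (A i) Y).1
      split_ifs with h
      · have h1 := hTs v
        have h2 : 0 ≤ t * s := by positivity
        linarith
      · have h1 := le_abs_self (T v - y)
        linarith
    have h1 := sum_le_sum hpt
    rw [sum_add_distrib, sum_const, nsmul_eq_mul] at h1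
    have h2 : ∑ v ∈ V0 ∩ Y, (if t * s ≤ |T v - y| then (s : ℝ) else 0) ≤
        s * (Y.card / (t ^ 2 * s) + dev Y) := by
      have h3 : ∑ v ∈ V0 ∩ Y, (if t * s ≤ |T v - y| then (s : ℝ) else 0) ≤
          ∑ v ∈ Y, (if t * s ≤ |T v - y| then (s : ℝ) else 0) :=
        sum_le_sum_of_subset_of_nonneg inter_subset_right (fun v _ _ => by
          split_ifs
          · exact hsR.le
          · exact le_rfl)
      refine le_trans h3 ?_
      rw [← sum_filter, sum_const, nsmul_eq_mul, mul_comm]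
      exact mul_le_mul_of_nonneg_left hbad hsR.le
    have h4 : ((V0 ∩ Y).card : ℝ) * y ≤ ∑ v ∈ V0 ∩ Y, ∑ i, GCR.rd (A i) (nh G v) + s * ε * Y.card := by
      rw [sum_comm, hy, mul_sum]
      have h5 : ∀ i ∈ (univ : Finset (Fin s)), ((V0 ∩ Y).card : ℝ) * GCP.dn G (A i) Y ≤
          ∑ v ∈ V0 ∩ Y, GCR.rd (A i) (nh G v) + ε * Y.card := by
        intro i _
        rw [mul_comm]
        exact cut_step G (hne i) inter_subset_right (hcut Y hY i)
      refine le_trans (sum_le_sum h5) ?_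
      rw [sum_add_distrib, sum_const, card_univ, Fintype.card_fin, nsmul_eq_mul]
      linarith
    have h6 : ((V0 ∩ Y).card : ℝ) ≤ Y.card := by
      exact_mod_cast card_le_card inter_subset_right
    have h7 : ((V0 ∩ Y).card : ℝ) * (t * s) ≤ Y.card * (t * s) :=
      mul_le_mul_of_nonneg_right h6 (by positivity)
    rw [mul_add] at h1
    linarith
  have hsum := sum_le_sum hone
  -- the sums of the errors
  have hdevs : ∑ Y ∈ 𝒴, dev Y ≤ δ * n := hdev
  have hYs : ∑ Y ∈ 𝒴, (Y.card : ℝ) ≤ n := by rw [← hUcard]; exact hUn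
  have hYs0 : 0 ≤ ∑ Y ∈ 𝒴, (Y.card : ℝ) := sum_nonneg fun _ _ => Nat.cast_nonneg _
  have hA1 : ∑ Y ∈ 𝒴, ∑ v ∈ V0 ∩ Y, ∑ i, GCR.rd (A i) (nh G v) ≤
      ∑ v ∈ V0, ∑ i, GCR.rd (A i) (nh G v) := by
    rw [← sum_biUnion (t := fun Y => V0 ∩ Y)]
    · refine sum_le_sum_of_subset_of_nonneg ?_ (fun v _ _ => sum_nonneg fun i _ => rd_nonneg _ _)
      intro v hv
      obtain ⟨Y, _, hv'⟩ := mem_biUnion.1 hv
      exact (mem_inter.1 hv').1
    · intro a ha b hb hab
      have h2 : Disjoint a b := hdisj ha hb hab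
      exact h2.mono inter_subset_right inter_subset_right
  have hcs := cs_step G A c V0 (B := √(8 * η) * k * n) (by positivity) (by
    have h1 : (√(8 * η) * k * n) ^ 2 = 8 * η * (k ^ 2 * n ^ 2) := by
      rw [mul_pow, mul_pow, Real.sq_sqrt (by positivity)]
      ring
    rw [h1]
    have h2 : (n : ℝ) * s * ∑ i, cl G (A i) (c i) ≤ n * s * (8 * η * k * n) :=
      mul_le_mul_of_nonneg_left hcl (by positivity)
    have h3 : (n : ℝ) * s * (8 * η * k * n) ≤ n * k * (8 * η * k * n) := by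
      refine mul_le_mul_of_nonneg_right ?_ (by positivity)
      exact mul_le_mul_of_nonneg_left hskR hnR.le
    linarith)
  have hB : √(8 * η) * k * n ≤ t * s * n := by
    have h1 : √(8 * η) * k ≤ √(8 * η) * (2 * s) :=
      mul_le_mul_of_nonneg_left hk2s (Real.sqrt_nonneg _)
    have h2 : √(8 * η) * 2 * s ≤ t * s := mul_le_mul_of_nonneg_right hη hsR.le
    exact mul_le_mul_of_nonneg_right (by linarith) hnR.le
  have hps : ∑ v ∈ V0, ∑ i, GCR.rd (c i) (nh G v) ≤
      s / n * ∑ v ∈ V0, (GCQ.dg G v : ℝ) + ζ / 8 * s * n + 2 * (k : ℝ) ^ 2 := by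
    have h1 : ∀ v ∈ V0, ∑ i, GCR.rd (c i) (nh G v) ≤ s / n * (GCQ.dg G v : ℝ) +
        (ζ / 8 * s + 2 * (k : ℝ) ^ 2 / n) := by
      intro v _
      have h2 := parts_step G P hP c hc hcP hζ hks hn1 hn0 hk0 v
      linarith
    have h2 := sum_le_sum h1
    rw [sum_add_distrib, ← mul_sum, sum_const, nsmul_eq_mul] at h2
    have h3 : (V0.card : ℝ) ≤ n := by
      have : V0.card ≤ n := by simpa using card_le_univ V0
      exact_mod_cast this
    have h4 : (V0.card : ℝ) * (ζ / 8 * s + 2 * (k : ℝ) ^ 2 / n) ≤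
        n * (ζ / 8 * s + 2 * (k : ℝ) ^ 2 / n) := mul_le_mul_of_nonneg_right h3 (by positivity)
    have h5 : (n : ℝ) * (ζ / 8 * s + 2 * (k : ℝ) ^ 2 / n) = ζ / 8 * s * n + 2 * (k : ℝ) ^ 2 := by
      field_simp
    linarith
  have hsplit : ∑ v ∈ V0, T v = ∑ v ∈ V0 \ U, T v + ∑ v ∈ V0 ∩ U, T v := by
    rw [← sum_union (disjoint_sdiff_inter V0 U), sdiff_union_inter]
  have hE : ∑ Y ∈ 𝒴, (∑ v ∈ V0 ∩ Y, ∑ i, GCR.rd (A i) (nh G v) +
      s * ε * Y.card + t * s * Y.card + s * (Y.card / (t ^ 2 * s) + dev Y)) =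
      ∑ Y ∈ 𝒴, ∑ v ∈ V0 ∩ Y, ∑ i, GCR.rd (A i) (nh G v) +
      (s * ε + t * s + 1 / t ^ 2) * ∑ Y ∈ 𝒴, (Y.card : ℝ) + s * ∑ Y ∈ 𝒴, dev Y := by
    rw [mul_sum, mul_sum, ← sum_add_distrib, ← sum_add_distrib]
    refine sum_congr rfl fun Y _ => ?_
    have h1 : (s : ℝ) * (Y.card / (t ^ 2 * s)) = 1 / t ^ 2 * Y.card := by
      field_simp
    rw [mul_add, h1]
    ring
  rw [hE] at hsum
  have ht2 : 1 / t ^ 2 ≤ t * s := by
    rw [div_le_iff₀ (by positivity)]
    have h1 : t * s * t ^ 2 = ζ ^ 3 * s / 512 := by rw [ht]; ring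
    rw [h1]
    linarith
  have hcoef : (s * ε + t * s + 1 / t ^ 2) * ∑ Y ∈ 𝒴, (Y.card : ℝ) ≤
      (s * (ζ / 16) + t * s + t * s) * n := by
    have h0 : 0 ≤ (s : ℝ) * ε + t * s + 1 / t ^ 2 := by positivity
    have h1 : s * ε + t * s + 1 / t ^ 2 ≤ s * (ζ / 16) + t * s + t * s := by
      have := mul_le_mul_of_nonneg_left hε hsR.le
      linarith
    exact mul_le_mul h1 hYs hYs0 (by positivity)
  have hd1 : (s : ℝ) * ∑ Y ∈ 𝒴, dev Y ≤ s * (δ * n) := mul_le_mul_of_nonneg_left hdevs hsR.le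
  have hd2 : (s : ℝ) * (δ * n) ≤ s * (ζ / 8 * n) :=
    mul_le_mul_of_nonneg_left (mul_le_mul_of_nonneg_right hδ hnR.le) hsR.le
  have hfin : ∑ v ∈ V0, T v ≤ s / n * ∑ v ∈ V0, (GCQ.dg G v : ℝ) + ζ * s * n := by
    rw [hsplit, hin]
    have hpos : 0 ≤ ζ * s * n := by positivity
    have e1 : (s * (ζ / 16) + t * s + t * s) * n = ζ * s * n * (5 / 16) := by rw [ht]; ring
    have e2 : t * s * n = ζ * s * n / 8 := by rw [ht]; ring
    rw [e1] at hcoef
    rw [e2] at hB
    linarith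
  exact hfin

end GCU
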