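import Pool.Agent.GCU.Defs
import Pool.Agent.GCR.Eng

/-!
# GCU-EngV: the energy of the neighbourhoods stabilises

PLAN. Apply `GCR.energy` to `𝓣 = univ.image (nh G) ∪ univ.image (nh Gᶜ)` and `w T = #{v | nh G v = T} + #{v | nh Gᶜ v = T}`. For every `F` one has `∑ T ∈ 𝓣, w T * F T = ∑ v, F (nh G v) + ∑ v, F (nh Gᶜ v)` (`Finset.sum_fiberwise_of_maps_to` or
`Finset.card_eq_sum_card_fiberwise`); in particular `∑ T ∈ 𝓣, w T = 2 n`. So for some `j < J`: `∑ v, ∑ c, ∑ A ⊆ c, |A| (rd A (nh G v) - rd c (nh G v)) ^ 2 + (the same for Gᶜ) ≤ n / J * (2 n)`. Exchange the sums; `cl` is the sum over `v`.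
-/

set_option autoImplicit false

open Finset

namespace GCU

open Classical in
private theorem engV_fib {n : ℕ} (g : Fin n → Finset (Fin n)) (F : Finset (Fin n) → ℝ) :
    ∑ T : Finset (Fin n), ((univ.filter (fun v => g v = T)).card : ℝ) * F T = ∑ v, F (g v) := by
  rw [← Finset.sum_fiberwise (s := univ) g (fun v => F (g v))]
  refine Finset.sum_congr rfl fun T _ => ?_
  have h1 : ∀ v ∈ univ.filter (fun v => g v = T), F (g v) = F T := by
    intro v hv
    rw [(Finset.mem_filter.1 hv).2]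
  rw [Finset.sum_congr rfl h1, Finset.sum_const, nsmul_eq_mul]

open Classical in
private theorem engV_swap {n : ℕ} (P Q : Finpartition (univ : Finset (Fin n)))
    (f : Finset (Fin n) → Finset (Fin n) → Fin n → ℝ) :
    ∑ v, ∑ c ∈ P.parts, ∑ A ∈ Q.parts.filter (fun A => A ⊆ c), (A.card : ℝ) * f A c v =
      ∑ c ∈ P.parts, ∑ A ∈ Q.parts.filter (fun A => A ⊆ c), (A.card : ℝ) * ∑ v, f A c v := by
  rw [Finset.sum_comm]
  refine Finset.sum_congr rfl fun c _ => ?_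
  rw [Finset.sum_comm]
  refine Finset.sum_congr rfl fun A _ => ?_
  rw [Finset.mul_sum]

open Classical in
theorem engV {n J : ℕ} (hJ : 0 < J) (G : SimpleGraph (Fin n))
    (P : ℕ → Finpartition (univ : Finset (Fin n))) (hP : ∀ j, P (j + 1) ≤ P j) :
    ∃ j < J, ∑ c ∈ (P j).parts, ∑ A ∈ (P (j + 1)).parts.filter (fun A => A ⊆ c),
      (A.card : ℝ) * (cl G A c + cl Gᶜ A c) ≤ 2 * n ^ 2 / J := by
  obtain ⟨j, hj, h⟩ := GCR.energy hJ P hP univ
    (fun T => ((univ.filter (fun v => nh G v = T)).card : ℝ) +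
      ((univ.filter (fun v => nh Gᶜ v = T)).card : ℝ)) (fun T => by positivity)
  refine ⟨j, hj, ?_⟩
  simp only [add_mul, Finset.sum_add_distrib] at h
  rw [engV_fib (nh G) (fun T => ∑ c ∈ (P j).parts,
      ∑ A ∈ (P (j + 1)).parts.filter (fun A => A ⊆ c),
        (A.card : ℝ) * (GCR.rd A T - GCR.rd c T) ^ 2),
    engV_fib (nh Gᶜ) (fun T => ∑ c ∈ (P j).parts,
      ∑ A ∈ (P (j + 1)).parts.filter (fun A => A ⊆ c),
        (A.card : ℝ) * (GCR.rd A T - GCR.rd c T) ^ 2)] at h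
  have h1 := engV_fib (nh G) (fun _ => 1)
  have h2 := engV_fib (nh Gᶜ) (fun _ => 1)
  simp only [mul_one, Finset.sum_const, Finset.card_univ, Fintype.card_fin, nsmul_eq_mul] at h1 h2
  rw [h1, h2, engV_swap (P j) (P (j + 1)) (fun A c v => (GCR.rd A (nh G v) - GCR.rd c (nh G v)) ^ 2),
    engV_swap (P j) (P (j + 1)) (fun A c v => (GCR.rd A (nh Gᶜ v) - GCR.rd c (nh Gᶜ v)) ^ 2)] at h
  have h3 : ∑ c ∈ (P j).parts, ∑ A ∈ (P (j + 1)).parts.filter (fun A => A ⊆ c),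
      (A.card : ℝ) * (cl G A c + cl Gᶜ A c) =
      ∑ c ∈ (P j).parts, ∑ A ∈ (P (j + 1)).parts.filter (fun A => A ⊆ c),
        (A.card : ℝ) * ∑ v, (GCR.rd A (nh G v) - GCR.rd c (nh G v)) ^ 2 +
      ∑ c ∈ (P j).parts, ∑ A ∈ (P (j + 1)).parts.filter (fun A => A ⊆ c),
        (A.card : ℝ) * ∑ v, (GCR.rd A (nh Gᶜ v) - GCR.rd c (nh Gᶜ v)) ^ 2 := by
    rw [← Finset.sum_add_distrib]
    refine Finset.sum_congr rfl fun c _ => ?_
    rw [← Finset.sum_add_distrib]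
    refine Finset.sum_congr rfl fun A _ => ?_
    rw [mul_add]
    rfl
  rw [h3]
  refine h.trans (le_of_eq ?_)
  ring

end GCU
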