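import Pool.Agent.GCU.Defs

/-!
# GCU-Hom: no part of the cells is homogeneous to many vertices

PLAN. `k = P.parts.card`, `n / (2 k) ≤ |c| ≤ 2 n / k` for the parts `c` of `P` (`0 < k ≤ n`; see the private lemmas in `Pool/Agent/GCR/Hit.lean`, `GrdS.lean`). (1) `edg G (c i) V0 = ∑ v ∈ V0, |c i ∩ nh G v|`, so `∑ v ∈ V0, rd (c i) (nh G v) = edg G (c i) V0 / |c i| ≥ (k / (2 n)) edg G (c i) V0`.
Let `X` be the union of the `c i`, `i ∈ Z` (disjoint): `|X| ≥ |Z| n / (2 k) ≥ b s n / (2 k) ≥ b n / 4` (`k ≤ 2 s`), `∑ i ∈ Z, edg G (c i) V0 = edg G X V0`. (2) There are disjoint `X' ⊆ X` and `V' ⊆ V0` with `|X| ≤ 2 |X'| + 1` and `|V0| ≤ 2 |V'| + 1` (split `X ∩ V0` into two halves), so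
`|X'| ≥ b n / 8 - 1 / 2 ≥ b n / 16`, `|V'| ≥ n / 16 - 1 / 2 ≥ n / 32` by `hn1`, `hn2`; `NoHole` at `σ2`: `edg G X V0 ≥ edg G X' V' ≥ γ2 |X'| |V'| ≥ γ2 b n ^ 2 / 512`. So `∑ i ∈ Z, ∑ v ∈ V0, rd (c i) (nh G v) ≥ γ2 b k n / 1024`.
(3) Cauchy-Schwarz: `∑ i ∈ Z, ∑ v ∈ V0, |rd (A i) (nh G v) - rd (c i) (nh G v)| ≤ √(s n * ∑ i, cl G (A i) (c i)) ≤ √(s n 8 η k n) ≤ √(8 η) k n` (`s ≤ k` since `c` is injective into `P.parts`).
-/

set_option autoImplicit false

open Finset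

namespace GCU

private theorem split {n : ℕ} (X V : Finset (Fin n)) : ∃ X' V' : Finset (Fin n),
    X' ⊆ X ∧ V' ⊆ V ∧ Disjoint X' V' ∧ X.card ≤ 2 * X'.card + 1 ∧ V.card ≤ 2 * V'.card + 1 := by
  obtain ⟨I, hI, hIc⟩ := Finset.exists_subset_card_eq (s := X ∩ V) (n := (X ∩ V).card / 2)
    (Nat.div_le_self _ _)
  have hIX : I ⊆ X := hI.trans inter_subset_left
  have hIV : I ⊆ V := hI.trans inter_subset_right
  refine ⟨(X \ V) ∪ I, V \ I, ?_, sdiff_subset, ?_, ?_, ?_⟩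
  · exact union_subset sdiff_subset hIX
  · rw [disjoint_left]
    intro x hx hx'
    rw [mem_union, mem_sdiff] at hx
    rw [mem_sdiff] at hx'
    rcases hx with h | h
    · exact h.2 hx'.1
    · exact hx'.2 h
  · have hd : Disjoint (X \ V) I := by
      rw [disjoint_left]
      intro x hx hx'
      exact (mem_sdiff.1 hx).2 (hIV hx')
    rw [card_union_of_disjoint hd, hIc]
    have h1 := card_sdiff_add_card_inter X V
    omega
  · have h1 := card_sdiff_add_card_eq_card hIV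
    have h2 : (X ∩ V).card ≤ V.card := card_le_card inter_subset_right
    omega

private theorem cnt {n s : ℕ} (G : SimpleGraph (Fin n)) (c : Fin s → Finset (Fin n))
    (Z : Finset (Fin s)) (V0 X' V' : Finset (Fin n)) (hX : X' ⊆ Z.biUnion c) (hV : V' ⊆ V0) :
    GCP.edg G X' V' ≤ ∑ i ∈ Z, ∑ v ∈ V0, (c i ∩ nh G v).card := by
  classical
  have h1 : (X' ×ˢ V').filter (fun p => G.Adj p.1 p.2) ⊆
      Z.biUnion (fun i => V0.biUnion (fun v => (c i ∩ nh G v) ×ˢ {v})) := by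
    rintro ⟨x, v⟩ hxv
    rw [mem_filter, mem_product] at hxv
    obtain ⟨⟨hx, hv⟩, hadj⟩ := hxv
    obtain ⟨i, hi, hxi⟩ := mem_biUnion.1 (hX hx)
    rw [mem_biUnion]
    refine ⟨i, hi, ?_⟩
    rw [mem_biUnion]
    refine ⟨v, hV hv, ?_⟩
    rw [mem_product, mem_inter, mem_singleton]
    refine ⟨⟨hxi, ?_⟩, rfl⟩
    unfold nh
    rw [mem_filter]
    exact ⟨mem_univ _, hadj.symm⟩
  have h2 := (card_le_card h1).trans card_biUnion_le
  refine le_trans ?_ (h2.trans (sum_le_sum fun i _ => card_biUnion_le.trans (le_of_eq ?_)))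
  · unfold GCP.edg
    exact le_of_eq (by congr)
  · refine sum_congr rfl (fun v _ => ?_)
    rw [card_product, card_singleton, mul_one]

private theorem part_ge {n : ℕ} (P : Finpartition (univ : Finset (Fin n)))
    (hP : P.IsEquipartition) (c : Finset (Fin n)) (hc : c ∈ P.parts) :
    (n : ℝ) ≤ 2 * P.parts.card * c.card := by
  have hk : 0 < P.parts.card := Finset.card_pos.2 ⟨c, hc⟩
  have h1 := hP.average_le_card_part hc
  rw [Finset.card_univ, Fintype.card_fin] at h1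
  have h2 : P.parts.card ≤ n := by
    have := P.card_parts_le_card
    rwa [Finset.card_univ, Fintype.card_fin] at this
  have h3 : n < P.parts.card * (n / P.parts.card + 1) := by
    rw [Nat.mul_comm]; exact Nat.lt_mul_of_div_lt (Nat.lt_succ_self _) hk
  have h4 : 1 ≤ n / P.parts.card := (Nat.one_le_div_iff hk).2 h2
  have h5 : n ≤ 2 * P.parts.card * c.card := by
    calc n ≤ P.parts.card * (n / P.parts.card + 1) := h3.le
      _ ≤ P.parts.card * (2 * c.card) := Nat.mul_le_mul_left _ (by omega)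
      _ = 2 * P.parts.card * c.card := by ring
  exact_mod_cast h5

private theorem part_le {n : ℕ} {Q : Finpartition (univ : Finset (Fin n))} (hQ : Q.IsEquipartition)
    {A : Finset (Fin n)} (hA : A ∈ Q.parts) : (A.card : ℝ) * Q.parts.card ≤ 2 * n := by
  have hK : 0 < Q.parts.card := card_pos.2 ⟨A, hA⟩
  have h1 := hQ.card_part_le_average_add_one hA
  have h2 : Q.parts.card ≤ n := by
    have := Q.card_parts_le_card
    rwa [card_univ, Fintype.card_fin] at this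
  rw [card_univ, Fintype.card_fin] at h1
  have h3 : A.card * Q.parts.card ≤ 2 * n := by
    calc A.card * Q.parts.card ≤ (n / Q.parts.card + 1) * Q.parts.card :=
          Nat.mul_le_mul_right _ h1
      _ = n / Q.parts.card * Q.parts.card + Q.parts.card := by ring
      _ ≤ n + n := add_le_add (Nat.div_mul_le_self _ _) h2
      _ = 2 * n := by ring
  exact_mod_cast h3

private theorem cs {n s : ℕ} (Z : Finset (Fin s)) (V0 : Finset (Fin n))
    (f : Fin s → Fin n → ℝ) (M : ℝ) (hM : ∑ i, ∑ v, f i v ^ 2 ≤ M) :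
    ∑ i ∈ Z, ∑ v ∈ V0, |f i v| ≤ √((s : ℝ) * n * M) := by
  apply Real.le_sqrt_of_sq_le
  have h1 : ∑ i ∈ Z, ∑ v ∈ V0, |f i v| = ∑ p ∈ Z ×ˢ V0, |f p.1 p.2| :=
    (sum_product Z V0 (fun p : Fin s × Fin n => |f p.1 p.2|)).symm
  rw [h1]
  have h2 := sq_sum_le_card_mul_sum_sq (s := Z ×ˢ V0) (f := fun p => |f p.1 p.2|)
  refine h2.trans ?_
  have h3 : ∑ p ∈ Z ×ˢ V0, |f p.1 p.2| ^ 2 ≤ ∑ i, ∑ v, f i v ^ 2 := by
    rw [← sum_product' (s := univ) (t := univ) (f := fun i v => f i v ^ 2)]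
    refine le_trans (le_of_eq ?_) (sum_le_sum_of_subset_of_nonneg (subset_univ (Z ×ˢ V0))
      (fun p _ _ => sq_nonneg (f p.1 p.2)))
    exact sum_congr rfl (fun p _ => sq_abs _)
  have h4 : ((Z ×ˢ V0).card : ℝ) ≤ (s : ℝ) * n := by
    rw [card_product]
    have a1 : Z.card ≤ s := by simpa using card_le_univ Z
    have a2 : V0.card ≤ n := by simpa using card_le_univ V0
    exact_mod_cast Nat.mul_le_mul a1 a2
  have h5 : (0 : ℝ) ≤ ∑ p ∈ Z ×ˢ V0, |f p.1 p.2| ^ 2 := sum_nonneg (fun p _ => by positivity)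
  exact mul_le_mul h4 (h3.trans hM) h5 (by positivity)

theorem hom {n s : ℕ} (G : SimpleGraph (Fin n)) (γ : ℝ → ℝ) (σ0 σ2 γ2 b η : ℝ)
    (hσ : σ0 ≤ σ2) (hγ2 : 0 < γ2) (hγ : γ2 ≤ γ σ2) (hb : 0 < b) (hσb : σ2 ≤ b / 16)
    (hσ32 : σ2 ≤ 1 / 32) (hη : 0 ≤ η) (hn1 : 16 ≤ n) (hn2 : 8 ≤ b * n) (hG : GCR.NoHole G γ σ0)
    (P : Finpartition (univ : Finset (Fin n))) (hP : P.IsEquipartition)
    (hks : P.parts.card ≤ 2 * s) (c A : Fin s → Finset (Fin n)) (hc : Function.Injective c)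
    (hcP : ∀ i, c i ∈ P.parts) (hcl : ∑ i, cl G (A i) (c i) ≤ 8 * η * P.parts.card * n)
    (Z : Finset (Fin s)) (hZ : b * s ≤ Z.card) (V0 : Finset (Fin n))
    (hV0 : (n : ℝ) / 8 ≤ V0.card) :
    γ2 * b / 1024 * (P.parts.card * n) ≤
      ∑ i ∈ Z, ∑ v ∈ V0, GCR.rd (A i) (nh G v) + √(8 * η) * (P.parts.card * n) := by
  have hn0 : (0 : ℝ) < n := by
    have : 0 < n := by omega
    exact_mod_cast this
  -- the number of parts
  have hk0 : 0 < P.parts.card := by
    have hne : P.parts.Nonempty := by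
      rw [P.parts_nonempty_iff]
      have : 0 < n := by omega
      exact (univ_nonempty_iff.2 ⟨⟨0, this⟩⟩).ne_empty
    exact card_pos.2 hne
  have hkR : (0 : ℝ) < P.parts.card := by exact_mod_cast hk0
  have hsk : s ≤ P.parts.card := by
    have h1 : (univ.image c).card = s := by
      rw [card_image_of_injective _ hc, card_univ, Fintype.card_fin]
    rw [← h1]
    refine card_le_card ?_
    intro x hx
    obtain ⟨i, -, rfl⟩ := mem_image.1 hx
    exact hcP i
  have hks' : (P.parts.card : ℝ) ≤ 2 * s := by exact_mod_cast hks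
  have hsk' : (s : ℝ) ≤ P.parts.card := by exact_mod_cast hsk
  set k : ℝ := (P.parts.card : ℝ) with hk
  -- the union
  have hXc : b * n / 4 ≤ ((Z.biUnion c).card : ℝ) := by
    rw [card_biUnion]
    · push_cast
      have h1 : ∀ i ∈ Z, (n : ℝ) / (2 * k) ≤ ((c i).card : ℝ) := by
        intro i _
        have := part_ge P hP (c i) (hcP i)
        rw [div_le_iff₀ (by positivity)]
        linarith
      have h2 := card_nsmul_le_sum Z (fun i => ((c i).card : ℝ)) _ h1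
      rw [nsmul_eq_mul] at h2
      refine le_trans ?_ h2
      rw [mul_div_assoc', le_div_iff₀ (by positivity)]
      have h3 : b * s * n ≤ Z.card * n := mul_le_mul_of_nonneg_right hZ hn0.le
      have h4 : b * n / 4 * (2 * k) ≤ b * s * n := by
        have h5 : b * n * k ≤ b * n * (2 * s) := mul_le_mul_of_nonneg_left hks' (by positivity)
        nlinarith
      linarith
    · intro i _ j _ hij
      exact P.disjoint (hcP i) (hcP j) (fun h => hij (hc h))
  obtain ⟨X', V', hX', hV', hdis, hXc', hVc'⟩ := split (Z.biUnion c) V0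
  have hXr : ((Z.biUnion c).card : ℝ) ≤ 2 * X'.card + 1 := by exact_mod_cast hXc'
  have hVr : (V0.card : ℝ) ≤ 2 * V'.card + 1 := by exact_mod_cast hVc'
  have hn16 : (16 : ℝ) ≤ n := by exact_mod_cast hn1
  have hX1 : b * n / 16 ≤ (X'.card : ℝ) := by linarith
  have hV1 : (n : ℝ) / 32 ≤ (V'.card : ℝ) := by linarith
  have hhole := hG σ2 hσ X' V' hdis
    (le_trans (by have := mul_le_mul_of_nonneg_right hσb hn0.le; linarith) hX1)
    (le_trans (by have := mul_le_mul_of_nonneg_right hσ32 hn0.le; linarith) hV1)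
  have hedg : γ2 * b * n ^ 2 / 512 ≤ (GCP.edg G X' V' : ℝ) := by
    refine le_trans ?_ hhole
    have h1 : b * n / 16 * (n / 32) ≤ (X'.card : ℝ) * V'.card :=
      mul_le_mul hX1 hV1 (by positivity) (by positivity)
    have h2 : γ2 * (b * n / 16 * (n / 32)) ≤ γ σ2 * ((X'.card : ℝ) * V'.card) :=
      mul_le_mul hγ h1 (by positivity) (hγ2.le.trans hγ)
    refine le_trans (le_of_eq ?_) h2
    ring
  have hcnt := cnt G c Z V0 X' V' hX' hV'
  have hcnt' : (GCP.edg G X' V' : ℝ) ≤ ∑ i ∈ Z, ∑ v ∈ V0, ((c i ∩ nh G v).card : ℝ) := by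
    exact_mod_cast hcnt
  -- the densities in the cells
  have hrd : k / (2 * n) * ∑ i ∈ Z, ∑ v ∈ V0, ((c i ∩ nh G v).card : ℝ) ≤
      ∑ i ∈ Z, ∑ v ∈ V0, GCR.rd (c i) (nh G v) := by
    rw [mul_sum]
    refine sum_le_sum (fun i _ => ?_)
    rw [mul_sum]
    refine sum_le_sum (fun v _ => ?_)
    unfold GCR.rd
    have hci : (0 : ℝ) < (c i).card := by
      exact_mod_cast card_pos.2 (P.nonempty_of_mem_parts (hcP i))
    have hle := part_le hP (hcP i)
    rw [le_div_iff₀ hci, div_mul_eq_mul_div, div_mul_eq_mul_div, div_le_iff₀ (by positivity)]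
    have h0 : (0 : ℝ) ≤ ((c i ∩ nh G v).card : ℝ) := Nat.cast_nonneg _
    have := mul_le_mul_of_nonneg_left hle h0
    calc k * ((c i ∩ nh G v).card : ℝ) * (c i).card =
        ((c i ∩ nh G v).card : ℝ) * ((c i).card * k) := by ring
      _ ≤ ((c i ∩ nh G v).card : ℝ) * (2 * n) := this
      _ = _ := by ring
  have hmain : γ2 * b / 1024 * (k * n) ≤ ∑ i ∈ Z, ∑ v ∈ V0, GCR.rd (c i) (nh G v) := by
    refine le_trans ?_ hrd
    have h1 : k / (2 * n) * (γ2 * b * n ^ 2 / 512) ≤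
        k / (2 * n) * ∑ i ∈ Z, ∑ v ∈ V0, ((c i ∩ nh G v).card : ℝ) :=
      mul_le_mul_of_nonneg_left (hedg.trans hcnt') (by positivity)
    refine le_trans (le_of_eq ?_) h1
    field_simp
    ring
  -- Cauchy-Schwarz
  have hM : ∑ i, ∑ v, (GCR.rd (A i) (nh G v) - GCR.rd (c i) (nh G v)) ^ 2 ≤ 8 * η * k * n := hcl
  have hcs := cs Z V0 (fun i v => GCR.rd (A i) (nh G v) - GCR.rd (c i) (nh G v)) _ hM
  have hsq : √((s : ℝ) * n * (8 * η * k * n)) ≤ √(8 * η) * (k * n) := by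
    have h1 : √(8 * η) * (k * n) = √((8 * η) * (k * n) ^ 2) := by
      rw [Real.sqrt_mul (show (0 : ℝ) ≤ 8 * η by positivity) ((k * n) ^ 2),
        Real.sqrt_sq (by positivity)]
    rw [h1]
    apply Real.sqrt_le_sqrt
    have h2 : (s : ℝ) * (8 * η * k * n * n) ≤ k * (8 * η * k * n * n) :=
      mul_le_mul_of_nonneg_right hsk' (by positivity)
    calc (s : ℝ) * n * (8 * η * k * n) = (s : ℝ) * (8 * η * k * n * n) := by ring
      _ ≤ k * (8 * η * k * n * n) := h2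
      _ = 8 * η * (k * n) ^ 2 := by ring
  have hdiff : ∑ i ∈ Z, ∑ v ∈ V0, GCR.rd (c i) (nh G v) ≤
      ∑ i ∈ Z, ∑ v ∈ V0, GCR.rd (A i) (nh G v) +
        ∑ i ∈ Z, ∑ v ∈ V0, |GCR.rd (A i) (nh G v) - GCR.rd (c i) (nh G v)| := by
    rw [← sum_add_distrib]
    refine sum_le_sum (fun i _ => ?_)
    rw [← sum_add_distrib]
    refine sum_le_sum (fun v _ => ?_)
    have := neg_abs_le (GCR.rd (A i) (nh G v) - GCR.rd (c i) (nh G v))
    linarith
  linarith

end GCU
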