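import Pool.Agent.GCU.Chb

/-!
# GCU-SprP: blocks with typical traces are spread

PLAN. Let `Z` with `b s ≤ |Z|` (`Z` is nonempty: `b s > 0` by `hs`, which forces `s > 0`). `y Y = ∑ i ∈ Z, dn G (A i) Y`. LOWER: `𝒴0` = the `Y ∈ 𝒴` with `y Y < 2 η |Z|`, `V0` their union (disjoint): `∑ i ∈ Z, ∑ v ∈ V0, rd (A i) (nh G v) = ∑ i ∈ Z, ∑ Y ∈ 𝒴0, edg G (A i) Y / |A i|
= ∑ Y ∈ 𝒴0, y Y |Y| ≤ 2 η |Z| |V0|`, so `|V0| < n / 8` by `hG` (`∑ v ∈ Y, |A i ∩ nh G v| = edg G (A i) Y`; `dn * |A| |Y| = edg`, also when `A i` or `Y` is empty). The `v` with `|tr G u v ∩ Z| < η |Z|`: at most `δ n` outside the union of `𝒴` (`Mdl`), fewer than `n / 8` in `V0`, and for the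
other `Y ∈ 𝒴` the number of them in `Y` is `∑ S, [|S ∩ Z| < η |Z|] #{v ∈ Y | tr = S} ≤ ex (dn G (A ·) Y) (indicator) * |Y| + dev_Y ≤ |Y| / (η ^ 2 |Z|) + dev_Y` by `chb` with `t = η` (`y Y ≥ 2 η |Z|`, so `|S ∩ Z| < η |Z|` implies `||S ∩ Z| - y Y| ≥ η |Z|`).
Total at most `δ n + n / 8 + n / 32 + δ n ≤ n / 4` (`1 / (η ^ 2 |Z|) ≤ 1 / (η ^ 2 b s) ≤ 1 / 32` by `hs`). UPPER: in the same way with `Gᶜ`: `𝒴1` = the `Y` with `|Z| - y Y < 2 η |Z|`; `rd (A i) (nh Gᶜ v) ≤ 1 - rd (A i) (nh G v)` if `A i` is nonempty (the two sets `A i ∩ nh G v`, `A i ∩ nh Gᶜ v` are disjoint), so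
`∑ i ∈ Z, ∑ v ∈ V1, rd (A i) (nh Gᶜ v) ≤ ∑ Y ∈ 𝒴1, (|Z| - y Y) |Y| ≤ 2 η |Z| |V1|`. The two bad sets have together at most `n / 2` elements; the others satisfy both inequalities of `Spr`.
-/

set_option autoImplicit false

open Finset

namespace GCU

private theorem dn_mul {n : ℕ} (G : SimpleGraph (Fin n)) (X Y : Finset (Fin n)) :
    (GCP.edg G X Y : ℝ) = GCP.dn G X Y * (X.card * Y.card) := by
  unfold GCP.dn
  by_cases h : (X.card : ℝ) * Y.card = 0
  · have h1 : (GCP.edg G X Y : ℝ) ≤ X.card * Y.card := by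
      classical
      have h : GCP.edg G X Y ≤ X.card * Y.card := by
        unfold GCP.edg
        exact (card_filter_le _ _).trans (by rw [card_product])
      exact_mod_cast h
    have h2 : (0 : ℝ) ≤ (GCP.edg G X Y : ℝ) := Nat.cast_nonneg _
    rw [h] at h1 ⊢
    linarith
  · rw [div_mul_cancel₀ _ h]

private theorem dn_nn {n : ℕ} (G : SimpleGraph (Fin n)) (X Y : Finset (Fin n)) :
    0 ≤ GCP.dn G X Y := by
  unfold GCP.dn
  positivity

private theorem dn_le {n : ℕ} (G : SimpleGraph (Fin n)) (X Y : Finset (Fin n)) :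
    GCP.dn G X Y ≤ 1 := by
  classical
  unfold GCP.dn
  apply div_le_one_of_le₀ _ (by positivity)
  have h : GCP.edg G X Y ≤ X.card * Y.card := by
    unfold GCP.edg
    exact (card_filter_le _ _).trans (by rw [card_product])
  exact_mod_cast h

private theorem sum_rd {n : ℕ} (G : SimpleGraph (Fin n)) (A Y : Finset (Fin n)) (hA : A.Nonempty) :
    ∑ v ∈ Y, GCR.rd A (nh G v) = GCP.dn G A Y * Y.card := by
  classical
  have hA0 : (0 : ℝ) < A.card := by exact_mod_cast hA.card_pos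
  have h0 : ∀ v, (A ∩ nh G v).card = ∑ x ∈ A, if G.Adj x v then 1 else 0 := by
    intro v
    have e : A ∩ nh G v = A.filter (fun x => G.Adj x v) := by
      ext w
      simp [nh, G.adj_comm]
    rw [e, card_filter]
  have h1 : (∑ v ∈ Y, ((A ∩ nh G v).card : ℝ)) = GCP.edg G A Y := by
    have h2 : ∑ v ∈ Y, (A ∩ nh G v).card = GCP.edg G A Y := by
      unfold GCP.edg
      rw [card_filter, sum_product_right]
      exact sum_congr rfl (fun v _ => h0 v)
    exact_mod_cast h2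
  unfold GCR.rd
  rw [← sum_div, h1, dn_mul, div_eq_iff hA0.ne']
  ring

private theorem rd_compl {n : ℕ} (G : SimpleGraph (Fin n)) (A : Finset (Fin n)) (hA : A.Nonempty)
    (v : Fin n) : GCR.rd A (nh Gᶜ v) ≤ 1 - GCR.rd A (nh G v) := by
  classical
  have hA0 : (0 : ℝ) < A.card := by exact_mod_cast hA.card_pos
  unfold GCR.rd
  have h1 : (A ∩ nh Gᶜ v).card + (A ∩ nh G v).card ≤ A.card := by
    rw [← card_union_of_disjoint]
    · exact card_le_card (union_subset inter_subset_left inter_subset_left)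
    · rw [disjoint_left]
      intro w hw hw'
      simp only [mem_inter, nh, mem_filter, mem_univ, true_and, SimpleGraph.compl_adj] at hw hw'
      exact hw.2.2 hw'.2
  have h2 : ((A ∩ nh Gᶜ v).card : ℝ) + (A ∩ nh G v).card ≤ A.card := by exact_mod_cast h1
  rw [div_le_iff₀ hA0, sub_mul, div_mul_cancel₀ _ hA0.ne']
  linarith

private theorem badc {n s : ℕ} (G : SimpleGraph (Fin n)) (u : Fin s → Fin n)
    (A : Fin s → Finset (Fin n)) (𝒴 : Finset (Finset (Fin n)))
    (δ η : ℝ) (hM : Mdl G u A 𝒴 δ) (hη0 : 0 < η) (hδ : δ ≤ 1 / 64) (Z : Finset (Fin s))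
    (hZ : 32 ≤ η ^ 2 * Z.card) (B : Finset (Fin s) → Prop) (P : Finset (Fin n) → Prop)
    (hB : ∀ Y ∈ 𝒴, ¬ P Y → ∀ S, B S →
      η * Z.card ≤ |((S ∩ Z).card : ℝ) - ∑ i ∈ Z, GCP.dn G (A i) Y|)
    [DecidablePred B] [DecidablePred P]
    (hP : ∑ Y ∈ 𝒴.filter P, (Y.card : ℝ) ≤ n / 8) :
    ((univ.filter (fun v => B (GCQ.tr G u v))).card : ℝ) ≤ n / 4 := by
  classical
  obtain ⟨hd, hc, he⟩ := hM
  have hn0 : (0 : ℝ) ≤ n := Nat.cast_nonneg n
  have hZ0 : (0 : ℝ) < Z.card := by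
    by_contra h
    have h1 : (Z.card : ℝ) = 0 := le_antisymm (not_lt.1 h) (Nat.cast_nonneg _)
    rw [h1] at hZ
    linarith
  have hZne : Z.Nonempty := card_pos.1 (by exact_mod_cast hZ0)
  obtain ⟨w, hw⟩ : ∃ w : Finset (Fin n) → Finset (Fin s) → ℝ, ∀ Y S, w Y S =
      ∏ i, if i ∈ S then GCP.dn G (A i) Y else 1 - GCP.dn G (A i) Y := ⟨_, fun _ _ => rfl⟩
  obtain ⟨dev, hdev⟩ : ∃ dev : Finset (Fin n) → Finset (Fin s) → ℝ, ∀ Y S, dev Y S =
      |(((Y.filter (fun v => GCQ.tr G u v = S)).card : ℕ) : ℝ) - w Y S * Y.card| :=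
    ⟨_, fun _ _ => rfl⟩
  have he' : ∑ Y ∈ 𝒴, ∑ S : Finset (Fin s), dev Y S ≤ δ * n := by
    refine le_trans (le_of_eq ?_) he
    apply sum_congr rfl
    intro Y _
    apply sum_congr rfl
    intro S _
    rw [hdev, hw]
  have hdev0 : ∀ Y S, 0 ≤ dev Y S := fun Y S => by
    rw [hdev]
    exact abs_nonneg _
  -- the union
  have hun : ((𝒴.biUnion id).card : ℝ) = ∑ Y ∈ 𝒴, (Y.card : ℝ) := by
    rw [card_biUnion hd]
    push_cast
    rfl
  have hsub : univ.filter (fun v => B (GCQ.tr G u v)) ⊆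
      (univ \ 𝒴.biUnion id) ∪ 𝒴.biUnion (fun Y => Y.filter (fun v => B (GCQ.tr G u v))) := by
    intro v hv
    rw [mem_filter] at hv
    by_cases h : v ∈ 𝒴.biUnion id
    · rw [mem_biUnion] at h
      obtain ⟨Y, hY, hvY⟩ := h
      rw [mem_union, mem_biUnion]
      exact Or.inr ⟨Y, hY, mem_filter.2 ⟨hvY, hv.2⟩⟩
    · rw [mem_union, mem_sdiff]
      exact Or.inl ⟨mem_univ _, h⟩
  have h1 : ((univ.filter (fun v => B (GCQ.tr G u v))).card : ℝ) ≤
      ((univ \ 𝒴.biUnion id).card : ℝ) +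
        ∑ Y ∈ 𝒴, ((Y.filter (fun v => B (GCQ.tr G u v))).card : ℝ) := by
    have h2 := (card_le_card hsub).trans (card_union_le _ _)
    have h3 : (𝒴.biUnion (fun Y => Y.filter (fun v => B (GCQ.tr G u v)))).card ≤
      ∑ Y ∈ 𝒴, (Y.filter (fun v => B (GCQ.tr G u v))).card := card_biUnion_le
    have h4 := h2.trans (Nat.add_le_add_left h3 _)
    exact_mod_cast h4
  have h2 : ((univ \ 𝒴.biUnion id).card : ℝ) ≤ δ * n := by
    have h3 : ((univ \ 𝒴.biUnion id).card : ℝ) = n - (𝒴.biUnion id).card := by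
      have := card_sdiff_add_card_eq_card (subset_univ (𝒴.biUnion id))
      rw [card_univ, Fintype.card_fin] at this
      rw [eq_sub_iff_add_eq]
      exact_mod_cast this
    rw [h3, hun]
    linarith
  have h3 : ∀ Y ∈ 𝒴, ((Y.filter (fun v => B (GCQ.tr G u v))).card : ℝ) ≤
      (if P Y then (Y.card : ℝ) else 0) + 1 / 32 * Y.card + ∑ S : Finset (Fin s), dev Y S := by
    intro Y hY
    have hY0 : (0 : ℝ) ≤ Y.card := Nat.cast_nonneg _
    have hs0 : 0 ≤ ∑ S : Finset (Fin s), dev Y S := sum_nonneg (fun S _ => hdev0 Y S)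
    by_cases hPY : P Y
    · rw [if_pos hPY]
      have : ((Y.filter (fun v => B (GCQ.tr G u v))).card : ℝ) ≤ Y.card := by
        exact_mod_cast card_filter_le _ _
      linarith
    · rw [if_neg hPY]
      have e1 : (Y.filter (fun v => B (GCQ.tr G u v))).card =
          ∑ S : Finset (Fin s), if B S then (Y.filter (fun v => GCQ.tr G u v = S)).card else 0 := by
        rw [card_eq_sum_card_fiberwise (f := fun v => GCQ.tr G u v) (t := univ)
          (fun _ _ => by simp)]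
        apply sum_congr rfl
        intro S _
        rw [filter_filter]
        split_ifs with hBS
        · congr 1
          ext v
          simp only [mem_filter]
          constructor
          · rintro ⟨a, _, c⟩
            exact ⟨a, c⟩
          · rintro ⟨a, c⟩
            exact ⟨a, by rw [c]; exact hBS, c⟩
        · rw [card_eq_zero, filter_eq_empty_iff]
          rintro v _ ⟨h, h'⟩
          rw [h'] at h
          exact hBS h
      have e2 : ((Y.filter (fun v => B (GCQ.tr G u v))).card : ℝ) ≤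
          ∑ S : Finset (Fin s), (Y.card * (w Y S * (if B S then 1 else 0)) + dev Y S) := by
        rw [e1]
        push_cast
        apply sum_le_sum
        intro S _
        split_ifs with hBS
        · have := le_abs_self ((((Y.filter (fun v => GCQ.tr G u v = S)).card : ℕ) : ℝ) - w Y S * Y.card)
          rw [← hdev] at this
          linarith
        · have := hdev0 Y S
          simp only [mul_zero, zero_add]
          exact this
      rw [sum_add_distrib, ← mul_sum] at e2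
      have hx : ∀ i, 0 ≤ GCP.dn G (A i) Y ∧ GCP.dn G (A i) Y ≤ 1 := fun i => ⟨dn_nn G _ _, dn_le G _ _⟩
      have e3 : ∑ S : Finset (Fin s), w Y S * (if B S then 1 else 0) ≤ 1 / 32 := by
        have e4 := chb (fun i => GCP.dn G (A i) Y) hx Z hZne η hη0
        have e5 := GCQ.ex_le (fun i => GCP.dn G (A i) Y) hx (fun S => if B S then 1 else 0)
          (fun S => if η * Z.card ≤ |((S ∩ Z).card : ℝ) - ∑ i ∈ Z, GCP.dn G (A i) Y| then 1 else 0)
          (by
            intro S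
            show (if B S then (1 : ℝ) else 0) ≤ _
            by_cases hBS : B S
            · rw [if_pos hBS, if_pos (hB Y hY hPY S hBS)]
            · rw [if_neg hBS]
              split_ifs <;> norm_num)
        have e6 : GCQ.ex (fun i => GCP.dn G (A i) Y) (fun S => if B S then 1 else 0) =
            ∑ S : Finset (Fin s), w Y S * (if B S then 1 else 0) := by
          unfold GCQ.ex
          apply sum_congr rfl
          intro S _
          rw [hw]
        have e7 : 1 / (η ^ 2 * Z.card) ≤ 1 / 32 := one_div_le_one_div_of_le (by norm_num) hZ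
        rw [← e6]
        exact e5.trans (e4.trans e7)
      have e8 := mul_le_mul_of_nonneg_left e3 hY0
      linarith
  have h4 := sum_le_sum h3
  rw [sum_add_distrib, sum_add_distrib, ← mul_sum, ← sum_filter] at h4
  have h5 : ∑ Y ∈ 𝒴, (Y.card : ℝ) ≤ n := by
    rw [← hun]
    have := card_le_univ (𝒴.biUnion id)
    rw [Fintype.card_fin] at this
    exact_mod_cast this
  have h6 : δ * n ≤ 1 / 64 * n := mul_le_mul_of_nonneg_right hδ hn0
  linarith

theorem sprP {n s : ℕ} (hn : 0 < n) (G : SimpleGraph (Fin n)) (u : Fin s → Fin n)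
    (A : Fin s → Finset (Fin n)) (hne : ∀ i, (A i).Nonempty) (𝒴 : Finset (Finset (Fin n)))
    (δ b η : ℝ) (hM : Mdl G u A 𝒴 δ) (hb : 0 < b) (hη0 : 0 < η) (hη1 : η ≤ 1 / 8)
    (hs : 32 ≤ η ^ 2 * (b * s)) (hδ : δ ≤ 1 / 64)
    (hG : ∀ Z : Finset (Fin s), b * s ≤ Z.card → ∀ V0 : Finset (Fin n), (n : ℝ) / 8 ≤ V0.card →
      2 * η * Z.card * V0.card < ∑ i ∈ Z, ∑ v ∈ V0, GCR.rd (A i) (nh G v))
    (hG' : ∀ Z : Finset (Fin s), b * s ≤ Z.card → ∀ V0 : Finset (Fin n), (n : ℝ) / 8 ≤ V0.card →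
      2 * η * Z.card * V0.card < ∑ i ∈ Z, ∑ v ∈ V0, GCR.rd (A i) (nh Gᶜ v)) :
    Spr G u b η := by
  classical
  have hn0 : (0 : ℝ) < n := by exact_mod_cast hn
  intro Z hZ
  have hZ32 : 32 ≤ η ^ 2 * Z.card := hs.trans (mul_le_mul_of_nonneg_left hZ (by positivity))
  have hdis := hM.1
  -- sums over unions
  have hsum : ∀ (𝒵 : Finset (Finset (Fin n))), 𝒵 ⊆ 𝒴 → ∀ f : Fin n → ℝ,
      ∑ v ∈ 𝒵.biUnion id, f v = ∑ Y ∈ 𝒵, ∑ v ∈ Y, f v := by
    intro 𝒵 h𝒵 f
    rw [sum_biUnion (fun x hx y hy hxy => hdis (h𝒵 hx) (h𝒵 hy) hxy)]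
    rfl
  have hcard : ∀ (𝒵 : Finset (Finset (Fin n))), 𝒵 ⊆ 𝒴 →
      ((𝒵.biUnion id).card : ℝ) = ∑ Y ∈ 𝒵, (Y.card : ℝ) := by
    intro 𝒵 h𝒵
    have := hsum 𝒵 h𝒵 (fun _ => 1)
    simpa using this
  have lo : ((univ.filter (fun v => ((GCQ.tr G u v ∩ Z).card : ℝ) < η * Z.card)).card : ℝ) ≤ n / 4 := by
    apply badc G u A 𝒴 δ η hM hη0 hδ Z hZ32 (fun S => ((S ∩ Z).card : ℝ) < η * Z.card)
      (fun Y => ∑ i ∈ Z, GCP.dn G (A i) Y < 2 * η * Z.card)
    · intro Y _ hY S hS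
      rw [abs_sub_comm]
      have := le_abs_self (∑ i ∈ Z, GCP.dn G (A i) Y - ((S ∩ Z).card : ℝ))
      linarith
    · by_contra hcon
      push Not at hcon
      rw [← hcard _ (filter_subset _ _)] at hcon
      have h1 := hG Z hZ _ hcon.le
      rw [hcard _ (filter_subset _ _)] at h1
      have h2 : ∑ i ∈ Z, ∑ v ∈ (𝒴.filter (fun Y => ∑ i ∈ Z, GCP.dn G (A i) Y < 2 * η * Z.card)).biUnion id,
          GCR.rd (A i) (nh G v) ≤ 2 * η * Z.card *
            ∑ Y ∈ 𝒴.filter (fun Y => ∑ i ∈ Z, GCP.dn G (A i) Y < 2 * η * Z.card), (Y.card : ℝ) := by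
        rw [sum_congr rfl (fun i _ => hsum _ (filter_subset _ _) _), sum_comm, mul_sum]
        apply sum_le_sum
        intro Y hY
        rw [mem_filter] at hY
        rw [sum_congr rfl (fun i _ => sum_rd G (A i) Y (hne i)), ← sum_mul]
        exact mul_le_mul_of_nonneg_right hY.2.le (Nat.cast_nonneg _)
      linarith
  have hi : ((univ.filter (fun v => (1 - η) * Z.card < ((GCQ.tr G u v ∩ Z).card : ℝ))).card : ℝ) ≤ n / 4 := by
    apply badc G u A 𝒴 δ η hM hη0 hδ Z hZ32 (fun S => (1 - η) * Z.card < ((S ∩ Z).card : ℝ))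
      (fun Y => Z.card - ∑ i ∈ Z, GCP.dn G (A i) Y < 2 * η * Z.card)
    · intro Y _ hY S hS
      have := le_abs_self (((S ∩ Z).card : ℝ) - ∑ i ∈ Z, GCP.dn G (A i) Y)
      linarith
    · by_contra hcon
      push Not at hcon
      rw [← hcard _ (filter_subset _ _)] at hcon
      have h1 := hG' Z hZ _ hcon.le
      rw [hcard _ (filter_subset _ _)] at h1
      have h2 : ∑ i ∈ Z, ∑ v ∈ (𝒴.filter (fun Y => Z.card - ∑ i ∈ Z, GCP.dn G (A i) Y < 2 * η * Z.card)).biUnion id,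
          GCR.rd (A i) (nh Gᶜ v) ≤ 2 * η * Z.card *
            ∑ Y ∈ 𝒴.filter (fun Y => Z.card - ∑ i ∈ Z, GCP.dn G (A i) Y < 2 * η * Z.card), (Y.card : ℝ) := by
        rw [sum_congr rfl (fun i _ => hsum _ (filter_subset _ _) _), sum_comm, mul_sum]
        apply sum_le_sum
        intro Y hY
        rw [mem_filter] at hY
        have h3 : ∀ i ∈ Z, ∑ v ∈ Y, GCR.rd (A i) (nh Gᶜ v) ≤ (1 - GCP.dn G (A i) Y) * Y.card := by
          intro i _
          calc ∑ v ∈ Y, GCR.rd (A i) (nh Gᶜ v) ≤ ∑ v ∈ Y, (1 - GCR.rd (A i) (nh G v)) :=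
                sum_le_sum (fun v _ => rd_compl G (A i) (hne i) v)
            _ = (1 - GCP.dn G (A i) Y) * Y.card := by
                rw [sum_sub_distrib, sum_rd G (A i) Y (hne i), sum_const, nsmul_eq_mul]
                ring
        refine (sum_le_sum h3).trans ?_
        rw [← sum_mul, sum_sub_distrib, sum_const, nsmul_eq_mul, mul_one]
        exact mul_le_mul_of_nonneg_right hY.2.le (Nat.cast_nonneg _)
      linarith
  have hsub : (univ : Finset (Fin n)) ⊆
      (univ.filter (fun v => η * Z.card ≤ ((GCQ.tr G u v ∩ Z).card : ℝ) ∧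
        ((GCQ.tr G u v ∩ Z).card : ℝ) ≤ (1 - η) * Z.card)) ∪
      ((univ.filter (fun v => ((GCQ.tr G u v ∩ Z).card : ℝ) < η * Z.card)) ∪
      (univ.filter (fun v => (1 - η) * Z.card < ((GCQ.tr G u v ∩ Z).card : ℝ)))) := by
    intro v _
    simp only [mem_union, mem_filter, mem_univ, true_and]
    by_cases h1 : ((GCQ.tr G u v ∩ Z).card : ℝ) < η * Z.card
    · exact Or.inr (Or.inl h1)
    · by_cases h2 : (1 - η) * Z.card < ((GCQ.tr G u v ∩ Z).card : ℝ)
      · exact Or.inr (Or.inr h2)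
      · exact Or.inl ⟨not_lt.1 h1, not_lt.1 h2⟩
  have h1 := (card_le_card hsub).trans ((card_union_le _ _).trans
    (Nat.add_le_add_left (card_union_le _ _) _))
  rw [card_univ, Fintype.card_fin] at h1
  have h2 : (n : ℝ) ≤ ((univ.filter (fun v => η * Z.card ≤ ((GCQ.tr G u v ∩ Z).card : ℝ) ∧
        ((GCQ.tr G u v ∩ Z).card : ℝ) ≤ (1 - η) * Z.card)).card : ℝ) +
      (((univ.filter (fun v => ((GCQ.tr G u v ∩ Z).card : ℝ) < η * Z.card)).card : ℝ) +
      ((univ.filter (fun v => (1 - η) * Z.card < ((GCQ.tr G u v ∩ Z).card : ℝ))).card : ℝ)) := by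
    exact_mod_cast h1
  linarith

end GCU
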