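import Pool.Agent.GCU.Defs

/-!
# GCU-Tot: most parts are regular to all `A i`

PLAN. `K = Q.parts.card`, every part of `Q` has at most `2 n / K` elements (`0 < K ≤ n`; `IsEquipartition.card_part_le_average_add_one`). The parts of `Q` have total size `n` (`Q.sum_card_parts`), so it is enough that the parts which are not in the filter have total size at most `δ n`.
Such a part `Y` is equal to some `A i` or irregular to some `A i`: at most `s + s δ1 K` parts, total size at most `(s + s δ1 K) * 2 n / K ≤ δ n` by `h1` (`4 s ≤ δ K`) and `h2` (`4 s δ1 ≤ δ`).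
-/

set_option autoImplicit false

open Finset

namespace GCU

open Classical in
theorem tot {n s : ℕ} (hn : 0 < n) (G : SimpleGraph (Fin n))
    (Q : Finpartition (univ : Finset (Fin n))) (hQ : Q.IsEquipartition)
    (A : Fin s → Finset (Fin n)) (ε δ δ1 : ℝ)
    (hirr : ∀ i, (irr G ε Q (A i) : ℝ) ≤ δ1 * Q.parts.card)
    (h1 : 4 * (s : ℝ) ≤ δ * Q.parts.card) (h2 : 4 * (s : ℝ) * δ1 ≤ δ) :
    (1 - δ) * n ≤ ∑ Y ∈ Q.parts.filter (fun Y => ∀ i, Y ≠ A i ∧
      GCP.Cut G (A i) Y ε (GCP.dn G (A i) Y)), (Y.card : ℝ) := by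
  have huniv : (univ : Finset (Fin n)).card = n := by rw [card_univ, Fintype.card_fin]
  have hK0 : 0 < Q.parts.card := by
    rw [Finset.card_pos]
    by_contra hcon
    rw [Finset.not_nonempty_iff_eq_empty] at hcon
    have h := Q.sum_card_parts
    rw [hcon, Finset.sum_empty, huniv] at h
    omega
  have hKn : Q.parts.card ≤ n := by
    have h := Q.card_parts_le_card
    rwa [huniv] at h
  have hKr : (0 : ℝ) < Q.parts.card := by exact_mod_cast hK0
  have hnr : (0 : ℝ) < n := by exact_mod_cast hn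
  have hpart : ∀ Y ∈ Q.parts, (Y.card : ℝ) ≤ 2 * n / Q.parts.card := by
    intro Y hY
    have h := hQ.card_part_le_average_add_one hY
    rw [huniv] at h
    rw [le_div_iff₀ hKr]
    have h3 : Y.card * Q.parts.card ≤ (n / Q.parts.card + 1) * Q.parts.card :=
      Nat.mul_le_mul_right _ h
    have h4 : n / Q.parts.card * Q.parts.card ≤ n := Nat.div_mul_le_self _ _
    have h5 : Y.card * Q.parts.card ≤ 2 * n := by
      have h6 : (n / Q.parts.card + 1) * Q.parts.card = n / Q.parts.card * Q.parts.card +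
        Q.parts.card := by ring
      omega
    exact_mod_cast h5
  have hsum : ∑ Y ∈ Q.parts, (Y.card : ℝ) = n := by
    have h := Q.sum_card_parts
    rw [huniv] at h
    exact_mod_cast h
  have hsplit := Finset.sum_filter_add_sum_filter_not Q.parts (fun Y => ∀ i, Y ≠ A i ∧
      GCP.Cut G (A i) Y ε (GCP.dn G (A i) Y)) (fun Y => (Y.card : ℝ))
  have hsub : Q.parts.filter (fun Y => ¬ ∀ i, Y ≠ A i ∧ GCP.Cut G (A i) Y ε (GCP.dn G (A i) Y)) ⊆
      univ.image A ∪ univ.biUnion (fun i => Q.parts.filter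
        (fun Y => Y ≠ A i ∧ ¬ GCP.Cut G (A i) Y ε (GCP.dn G (A i) Y))) := by
    intro Y hY
    rw [Finset.mem_filter] at hY
    obtain ⟨hY1, hY2⟩ := hY
    rw [not_forall] at hY2
    obtain ⟨i, hi⟩ := hY2
    by_cases h : Y = A i
    · exact Finset.mem_union_left _ (Finset.mem_image.2 ⟨i, Finset.mem_univ i, h.symm⟩)
    · refine Finset.mem_union_right _ (Finset.mem_biUnion.2 ⟨i, Finset.mem_univ i, ?_⟩)
      rw [Finset.mem_filter]
      exact ⟨hY1, h, fun hc => hi ⟨h, hc⟩⟩
  have hcard : ((Q.parts.filter (fun Y => ¬ ∀ i, Y ≠ A i ∧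
      GCP.Cut G (A i) Y ε (GCP.dn G (A i) Y))).card : ℝ) ≤ s + s * (δ1 * Q.parts.card) := by
    have h1' : (Q.parts.filter (fun Y => ¬ ∀ i, Y ≠ A i ∧
        GCP.Cut G (A i) Y ε (GCP.dn G (A i) Y))).card ≤ s + ∑ i, irr G ε Q (A i) := by
      refine (Finset.card_le_card hsub).trans ((Finset.card_union_le _ _).trans ?_)
      refine add_le_add ?_ ?_
      · refine Finset.card_image_le.trans ?_
        rw [card_univ, Fintype.card_fin]
      · refine Finset.card_biUnion_le.trans ?_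
        exact Finset.sum_le_sum fun i _ => le_of_eq rfl
    have h2' : (∑ i, (irr G ε Q (A i) : ℝ)) ≤ s * (δ1 * Q.parts.card) := by
      have h3 := Finset.sum_le_sum (s := (univ : Finset (Fin s))) fun i _ => hirr i
      rw [Finset.sum_const, card_univ, Fintype.card_fin, nsmul_eq_mul] at h3
      exact h3
    calc ((Q.parts.filter (fun Y => ¬ ∀ i, Y ≠ A i ∧
        GCP.Cut G (A i) Y ε (GCP.dn G (A i) Y))).card : ℝ)
        ≤ ((s + ∑ i, irr G ε Q (A i) : ℕ) : ℝ) := by exact_mod_cast h1'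
      _ = s + ∑ i, (irr G ε Q (A i) : ℝ) := by push_cast; ring
      _ ≤ _ := by linarith
  have hbad : ∑ Y ∈ Q.parts.filter (fun Y => ¬ ∀ i, Y ≠ A i ∧
      GCP.Cut G (A i) Y ε (GCP.dn G (A i) Y)), (Y.card : ℝ) ≤ δ * n := by
    have h3 : ∑ Y ∈ Q.parts.filter (fun Y => ¬ ∀ i, Y ≠ A i ∧
        GCP.Cut G (A i) Y ε (GCP.dn G (A i) Y)), (Y.card : ℝ) ≤
        (Q.parts.filter (fun Y => ¬ ∀ i, Y ≠ A i ∧
          GCP.Cut G (A i) Y ε (GCP.dn G (A i) Y))).card • (2 * n / Q.parts.card : ℝ) :=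
      Finset.sum_le_card_nsmul _ _ _ fun Y hY => hpart Y (Finset.mem_of_mem_filter Y hY)
    rw [nsmul_eq_mul] at h3
    have h4 : (0 : ℝ) ≤ 2 * n / Q.parts.card := by positivity
    have h5 := mul_le_mul_of_nonneg_right hcard h4
    have h6 : ((s : ℝ) + s * (δ1 * Q.parts.card)) * (2 * n / Q.parts.card) ≤ δ * n := by
      rw [mul_div_assoc', div_le_iff₀ hKr]
      have h7 : (4 * (s : ℝ)) * (n / 2) ≤ (δ * Q.parts.card) * (n / 2) :=
        mul_le_mul_of_nonneg_right h1 (by positivity)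
      have h8 : (4 * (s : ℝ) * δ1) * (n * Q.parts.card / 2) ≤ δ * (n * Q.parts.card / 2) :=
        mul_le_mul_of_nonneg_right h2 (by positivity)
      nlinarith
    linarith
  linarith

end GCU
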