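import Pool.Agent.GCU.Defs

/-!
# GCU-Typ2: typical subcells

A Markov inequality in every cell for the distance between the degrees to the subcell and to the cell.
-/

set_option autoImplicit false

open Finset

namespace GCU

private lemma typ_size {n : ℕ} (P : Finpartition (univ : Finset (Fin n)))
    (hP : P.IsEquipartition) (c : Finset (Fin n)) (hc : c ∈ P.parts) :
    n ≤ 2 * P.parts.card * c.card ∧ P.parts.card * c.card ≤ 2 * n := by
  have hk : 0 < P.parts.card := card_pos.2 ⟨c, hc⟩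
  have hkn : P.parts.card ≤ n := by
    have := P.card_parts_le_card
    simpa using this
  have h1 := hP.average_le_card_part hc
  have h2 := hP.card_part_le_average_add_one hc
  rw [card_univ, Fintype.card_fin] at h1 h2
  have hq : 1 ≤ n / P.parts.card := (Nat.one_le_div_iff hk).2 hkn
  have h3 : n < P.parts.card * (n / P.parts.card + 1) := by
    have := Nat.lt_mul_div_succ n hk
    simpa using this
  have h4 : P.parts.card * (n / P.parts.card) ≤ n := Nat.mul_div_le n _
  constructor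
  · calc n ≤ P.parts.card * (n / P.parts.card + 1) := h3.le
      _ ≤ P.parts.card * (2 * (n / P.parts.card)) := Nat.mul_le_mul_left _ (by omega)
      _ = 2 * P.parts.card * (n / P.parts.card) := by ring
      _ ≤ 2 * P.parts.card * c.card := Nat.mul_le_mul_left _ h1
  · calc P.parts.card * c.card ≤ P.parts.card * (n / P.parts.card + 1) := Nat.mul_le_mul_left _ h2
      _ ≤ P.parts.card * (2 * (n / P.parts.card)) := Nat.mul_le_mul_left _ (by omega)
      _ = 2 * (P.parts.card * (n / P.parts.card)) := by ring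
      _ ≤ 2 * n := Nat.mul_le_mul_left _ h4

open Classical in
private lemma typ_sub {n : ℕ} (P Q : Finpartition (univ : Finset (Fin n))) (hQ : Q ≤ P)
    (c : Finset (Fin n)) (hc : c ∈ P.parts) :
    ∑ A ∈ Q.parts.filter (fun A => A ⊆ c), (A.card : ℝ) = c.card := by
  have h1 : c = (Q.parts.filter (fun A => A ⊆ c)).biUnion id := by
    ext x
    simp only [mem_biUnion, mem_filter, id]
    constructor
    · intro hx
      obtain ⟨A, hA, hxA⟩ := Q.exists_mem (mem_univ x)
      obtain ⟨c', hc', hAc'⟩ := hQ hA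
      have : c = c' := P.eq_of_mem_parts hc hc' hx (hAc' hxA)
      exact ⟨A, ⟨hA, this ▸ hAc'⟩, hxA⟩
    · rintro ⟨A, ⟨_, hA⟩, hx⟩
      exact hA hx
  have h2 : c.card = ∑ A ∈ Q.parts.filter (fun A => A ⊆ c), A.card := by
    conv_lhs => rw [h1]
    rw [card_biUnion]
    · rfl
    · intro A hA B hB hAB
      exact Q.disjoint (mem_filter.1 hA).1 (mem_filter.1 hB).1 hAB
  rw [h2]
  push_cast
  rfl

open Classical in
/-- the Markov inequality in a cell -/
private lemma typ_mk {ι : Type*} (S : Finset ι) (m Φ : ι → ℝ) (C : ℝ) (hm : ∀ i ∈ S, 0 < m i)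
    (hΦ : ∀ i ∈ S, 0 ≤ Φ i) (hC : ∑ i ∈ S, m i = C) (hC0 : 0 < C) :
    3 / 4 * C ≤ ∑ i ∈ S.filter (fun i => Φ i * C ≤ 4 * ∑ j ∈ S, m j * Φ j), m i := by
  set E := ∑ j ∈ S, m j * Φ j with hE
  have hE0 : 0 ≤ E := sum_nonneg fun i hi => mul_nonneg (hm i hi).le (hΦ i hi)
  by_contra hcon
  push Not at hcon
  have h1 := sum_filter_add_sum_filter_not S (fun i => Φ i * C ≤ 4 * E) m
  rw [hC] at h1
  have h2 : C / 4 < ∑ i ∈ S.filter (fun i => ¬ Φ i * C ≤ 4 * E), m i := by linarith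
  have hne : (S.filter (fun i => ¬ Φ i * C ≤ 4 * E)).Nonempty := by
    rw [nonempty_iff_ne_empty]
    intro h
    rw [h, sum_empty] at h2
    linarith
  have h3 : ∑ i ∈ S.filter (fun i => ¬ Φ i * C ≤ 4 * E), m i * (4 * E) <
      ∑ i ∈ S.filter (fun i => ¬ Φ i * C ≤ 4 * E), m i * (Φ i * C) := by
    refine sum_lt_sum_of_nonempty hne ?_
    intro i hi
    rw [mem_filter, not_le] at hi
    exact mul_lt_mul_of_pos_left hi.2 (hm i hi.1)
  have h4 : ∑ i ∈ S.filter (fun i => ¬ Φ i * C ≤ 4 * E), m i * (Φ i * C) ≤ E * C := by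
    rw [hE, sum_mul]
    refine (sum_le_sum_of_subset_of_nonneg (filter_subset _ _) ?_).trans (le_of_eq ?_)
    · intro i hi _
      exact mul_nonneg (hm i hi).le (mul_nonneg (hΦ i hi) hC0.le)
    · exact sum_congr rfl fun i _ => by ring
  rw [← sum_mul] at h3
  have h5 : C / 4 * (4 * E) ≤ (∑ i ∈ S.filter (fun i => ¬ Φ i * C ≤ 4 * E), m i) * (4 * E) :=
    mul_le_mul_of_nonneg_right h2.le (by linarith)
  linarith

private lemma cl_nonneg {n : ℕ} (G : SimpleGraph (Fin n)) (A c : Finset (Fin n)) :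
    0 ≤ cl G A c := sum_nonneg fun _ _ => sq_nonneg _

open Classical in
theorem typ2 {n : ℕ} (hn : 0 < n) (G : SimpleGraph (Fin n))
    (P Q : Finpartition (univ : Finset (Fin n)))
    (hP : P.IsEquipartition) (hQ : Q ≤ P) (η : ℝ) (hη : 0 ≤ η)
    (hE : ∑ c ∈ P.parts, ∑ A ∈ Q.parts.filter (fun A => A ⊆ c),
      (A.card : ℝ) * (cl G A c + cl Gᶜ A c) ≤ η * n ^ 2) :
    ∃ 𝓑 : Finset (Fin n) → Finset (Finset (Fin n)),
      (∀ c ∈ P.parts, 𝓑 c ⊆ Q.parts ∧ (∀ A ∈ 𝓑 c, A ⊆ c) ∧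
        3 / 4 * (c.card : ℝ) ≤ ∑ A ∈ 𝓑 c, (A.card : ℝ)) ∧
      ∀ a : Finset (Fin n) → Finset (Fin n), (∀ c ∈ P.parts, a c ∈ 𝓑 c) →
        ∑ c ∈ P.parts, (cl G (a c) c + cl Gᶜ (a c) c) ≤ 8 * η * P.parts.card * n := by
  have hn' : (0 : ℝ) < n := by exact_mod_cast hn
  let Φ : Finset (Fin n) → Finset (Fin n) → ℝ := fun c A => cl G A c + cl Gᶜ A c
  let E : Finset (Fin n) → ℝ := fun c =>
    ∑ A ∈ Q.parts.filter (fun A => A ⊆ c), (A.card : ℝ) * Φ c A
  have hΦ0 : ∀ c A, 0 ≤ Φ c A := fun c A => add_nonneg (cl_nonneg _ _ _) (cl_nonneg _ _ _)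
  have hEsum : ∑ c ∈ P.parts, E c ≤ η * n ^ 2 := hE
  refine ⟨fun c => (Q.parts.filter (fun A => A ⊆ c)).filter
    (fun A => Φ c A * (c.card : ℝ) ≤ 4 * E c), ?_, ?_⟩
  · intro c hc
    have hc0 : (0 : ℝ) < c.card := by exact_mod_cast card_pos.2 (P.nonempty_of_mem_parts hc)
    refine ⟨(filter_subset _ _).trans (filter_subset _ _), ?_, ?_⟩
    · intro A hA
      exact (mem_filter.1 (mem_filter.1 hA).1).2
    · exact typ_mk (Q.parts.filter (fun A => A ⊆ c)) (fun A => (A.card : ℝ)) (Φ c) c.card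
        (fun A hA => by
          exact_mod_cast card_pos.2 (Q.nonempty_of_mem_parts (mem_filter.1 hA).1))
        (fun A _ => hΦ0 c A) (typ_sub P Q hQ c hc) hc0
  · intro a ha
    have h1 : ∀ c ∈ P.parts, Φ c (a c) * n ≤ 8 * P.parts.card * E c := by
      intro c hc
      have h2 := (mem_filter.1 (ha c hc)).2
      have h3 : ((n : ℕ) : ℝ) ≤ ((2 * P.parts.card * c.card : ℕ) : ℝ) := by
        exact_mod_cast (typ_size P hP c hc).1
      push_cast at h3
      calc Φ c (a c) * n ≤ Φ c (a c) * (2 * P.parts.card * c.card) :=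
            mul_le_mul_of_nonneg_left h3 (hΦ0 _ _)
        _ = 2 * P.parts.card * (Φ c (a c) * c.card) := by ring
        _ ≤ 2 * P.parts.card * (4 * E c) := mul_le_mul_of_nonneg_left h2 (by positivity)
        _ = 8 * P.parts.card * E c := by ring
    have h3 : (∑ c ∈ P.parts, Φ c (a c)) * n ≤ 8 * P.parts.card * (η * n ^ 2) := by
      rw [sum_mul]
      refine (sum_le_sum h1).trans ?_
      rw [← mul_sum]
      exact mul_le_mul_of_nonneg_left hEsum (by positivity)
    have h4 : (∑ c ∈ P.parts, Φ c (a c)) * n ≤ (8 * η * P.parts.card * n) * n := by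
      refine h3.trans (le_of_eq ?_)
      ring
    exact le_of_mul_le_mul_right h4 hn'

end GCU
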