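import Pool.Agent.GCU.Chn2
import Pool.Agent.GCU.EngV
import Pool.Agent.GCU.Typ2
import Pool.Agent.GCU.Cel
import Pool.Agent.GCU.Clq
import Pool.Agent.GCU.Hom
import Pool.Agent.GCU.SprP
import Pool.Agent.GCU.DegP
import Pool.Agent.GCU.Tot
import Pool.Agent.GCR.Grd

/-!
# GCU-Blk: existence of spread blocks (assembly, helper92)
-/

set_option autoImplicit false

open Finset

namespace GCU

open GCR

/-- the parameters of level `k` -/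
private theorem par (γ : ℝ → ℝ) (hγ : ∀ σ, 0 < σ → 0 < γ σ) (ζ δ : ℝ) (hζ : 0 < ζ) (hδ : 0 < δ)
    (k s : ℕ) : ∃ σ0 ε g δ1 : ℝ, 0 < σ0 ∧ 0 < ε ∧ 0 < g ∧ g ≤ 1 ∧ 0 < δ1 ∧ ε ≤ ζ / 16 ∧
    32 * (k : ℝ) * ε ≤ δ1 ∧ 4 * (s : ℝ) * δ1 ≤ δ ∧
    (s : ℝ) ^ 2 * ε ≤ 1 / 2 * (g ^ (s ^ 2) * (1 / 2) ^ s) ∧
    2 ^ s * (2 * (s + 2) * √ε) ≤ δ * (1 / 2 * (g ^ (s ^ 2) * (1 / 2) ^ s)) ∧
    ∀ n : ℕ, 0 < n → ∀ G : SimpleGraph (Fin n), NoHole G γ σ0 →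
      ∀ Q : Finpartition (univ : Finset (Fin n)), Q.IsEquipartition → Reg G ε Q →
      ∀ 𝓑 : Fin s → Finset (Finset (Fin n)), (∀ i, 𝓑 i ⊆ Q.parts) →
        (∀ i j, i ≠ j → Disjoint (𝓑 i) (𝓑 j)) →
        (∀ i, 1 / (8 * ((k : ℝ) + 1)) * n ≤ ∑ A ∈ 𝓑 i, (A.card : ℝ)) →
        ∃ a : Fin s → Finset (Fin n), (∀ i, a i ∈ 𝓑 i) ∧
          ∀ i j, i < j → ¬ GCP.BadP G ε g (a i) (a j) := by
  obtain ⟨σ0, ε0, g, h1, h2, h3, h4, h5⟩ := greedy γ hγ s (1 / (8 * ((k : ℝ) + 1))) (by positivity)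
  obtain ⟨δ1, hδ1⟩ : ∃ δ1 : ℝ, δ1 = δ / (4 * (s + 1)) := ⟨_, rfl⟩
  have hδ10 : 0 < δ1 := by rw [hδ1]; positivity
  obtain ⟨q, hq⟩ : ∃ q : ℝ, q = 1 / 2 * (g ^ (s ^ 2) * (1 / 2) ^ s) := ⟨_, rfl⟩
  have hq0 : 0 < q := by rw [hq]; positivity
  obtain ⟨x, hx⟩ : ∃ x : ℝ, x = δ * q / (2 ^ s * (2 * (s + 2))) := ⟨_, rfl⟩
  have hx0 : 0 < x := by rw [hx]; positivity
  obtain ⟨ε, he0, he1, he2, he3, he4, he5⟩ : ∃ ε : ℝ, 0 < ε ∧ ε ≤ ε0 ∧ ε ≤ ζ / 16 ∧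
      ε ≤ δ1 / (32 * (k + 1)) ∧ ε ≤ q / ((s : ℝ) ^ 2 + 1) ∧ ε ≤ x ^ 2 := by
    refine ⟨min (min ε0 (ζ / 16)) (min (δ1 / (32 * (k + 1))) (min (q / ((s : ℝ) ^ 2 + 1)) (x ^ 2))),
      lt_min (lt_min h2 (by positivity)) (lt_min (by positivity) (lt_min (by positivity)
        (by positivity))), ?_, ?_, ?_, ?_, ?_⟩
    · exact (min_le_left _ _).trans (min_le_left _ _)
    · exact (min_le_left _ _).trans (min_le_right _ _)
    · exact (min_le_right _ _).trans (min_le_left _ _)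
    · exact (min_le_right _ _).trans ((min_le_right _ _).trans (min_le_left _ _))
    · exact (min_le_right _ _).trans ((min_le_right _ _).trans (min_le_right _ _))
  refine ⟨σ0, ε, g, δ1, h1, he0, h3, h4, hδ10, he2, ?_, ?_, ?_, ?_, ?_⟩
  · rw [le_div_iff₀ (by positivity)] at he3
    nlinarith
  · rw [hδ1, ← mul_div_assoc, div_le_iff₀ (by positivity)]
    nlinarith
  · rw [← hq]
    rw [le_div_iff₀ (by positivity)] at he4
    nlinarith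
  · rw [← hq]
    have h6 : √ε ≤ x := by
      rw [show x = √(x ^ 2) from (Real.sqrt_sq hx0.le).symm]
      exact Real.sqrt_le_sqrt he5
    calc (2 : ℝ) ^ s * (2 * (s + 2) * √ε) ≤ 2 ^ s * (2 * (s + 2) * x) := by
          refine mul_le_mul_of_nonneg_left ?_ (by positivity)
          exact mul_le_mul_of_nonneg_left h6 (by positivity)
      _ = δ * q := by rw [hx]; field_simp
  · intro n hn G hG Q hQ hreg 𝓑 hB1 hB2 hB3
    exact h5 n hn G hG ε he0.le he1 Q hQ hreg 𝓑 hB1 hB2 hB3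

private theorem exists_le_all (s : ℕ → ℝ) (hs : ∀ k, 0 < s k) (M : ℕ) :
    ∃ σ : ℝ, 0 < σ ∧ ∀ k ≤ M, σ ≤ s k := by
  induction M with
  | zero => exact ⟨s 0, hs 0, fun k hk => by rw [Nat.le_zero.1 hk]⟩
  | succ M ih =>
    obtain ⟨σ, h1, h2⟩ := ih
    refine ⟨min σ (s (M + 1)), lt_min h1 (hs _), fun k hk => ?_⟩
    rcases Nat.lt_or_ge M k with h | h
    · have : k = M + 1 := by omega
      rw [this]; exact min_le_right _ _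
    · exact (min_le_left _ _).trans (h2 k h)

private theorem cl_nonneg {n : ℕ} (G : SimpleGraph (Fin n)) (A c : Finset (Fin n)) :
    0 ≤ cl G A c := Finset.sum_nonneg fun _ _ => sq_nonneg _

open Classical in
/-- everything for fixed partitions -/
private theorem core {n : ℕ} (hn : 0 < n) (G : SimpleGraph (Fin n)) (γ : ℝ → ℝ)
    (b ζ δ η η0 σ0 σ2 γ2 ε g δ1 : ℝ) (s : ℕ) (P Q : Finpartition (univ : Finset (Fin n)))
    (hP : P.IsEquipartition) (hQ : Q.IsEquipartition) (hQP : Q ≤ P)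
    (hb : 0 < b) (hζ : 0 < ζ) (hζ1 : ζ ≤ 1) (hη0 : 0 < η) (hη8 : η ≤ 1 / 8)
    (hη : 2 * η ≤ γ2 * b / 4096) (hη00 : 0 ≤ η0) (hη01 : √(8 * η0) ≤ γ2 * b / 4096)
    (hη02 : √(8 * η0) * 2 ≤ ζ / 8)
    (hσ : σ0 ≤ σ2) (hγ2 : 0 < γ2) (hγ : γ2 ≤ γ σ2) (hσb : σ2 ≤ b / 16) (hσ32 : σ2 ≤ 1 / 32)
    (hn1 : 16 ≤ n) (hn2 : 8 ≤ b * n) (hn3 : 2 * P.parts.card ≤ n)
    (hn4 : 2 * (P.parts.card : ℝ) ^ 2 ≤ ζ / 16 * s * n)
    (hG : NoHole G γ σ0) (hG' : NoHole Gᶜ γ σ0) (hδ : δ = ζ / 64)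
    (hs1 : (s : ℝ) ≤ (1 - ζ / 16) * P.parts.card) (hs2 : (P.parts.card : ℝ) ≤ (1 + ζ / 8) * s)
    (hs3 : P.parts.card ≤ 2 * s) (hs4 : 32 ≤ η ^ 2 * (b * s)) (hs5 : 512 ≤ ζ ^ 3 * s)
    (hs6 : 4 * (s : ℝ) ≤ δ * Q.parts.card)
    (hε0 : 0 < ε) (hg0 : 0 < g) (hg1 : g ≤ 1) (hδ10 : 0 < δ1) (hε1 : ε ≤ ζ / 16)
    (hε2 : 32 * (P.parts.card : ℝ) * ε ≤ δ1) (hε3 : 4 * (s : ℝ) * δ1 ≤ δ)
    (hε4 : (s : ℝ) ^ 2 * ε ≤ 1 / 2 * (g ^ (s ^ 2) * (1 / 2) ^ s))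
    (hε5 : 2 ^ s * (2 * (s + 2) * √ε) ≤ δ * (1 / 2 * (g ^ (s ^ 2) * (1 / 2) ^ s)))
    (hreg : Reg G ε Q)
    (hgr : ∀ 𝓑 : Fin s → Finset (Finset (Fin n)), (∀ i, 𝓑 i ⊆ Q.parts) →
        (∀ i j, i ≠ j → Disjoint (𝓑 i) (𝓑 j)) →
        (∀ i, 1 / (8 * ((P.parts.card : ℝ) + 1)) * n ≤ ∑ A ∈ 𝓑 i, (A.card : ℝ)) →
        ∃ a : Fin s → Finset (Fin n), (∀ i, a i ∈ 𝓑 i) ∧
          ∀ i j, i < j → ¬ GCP.BadP G ε g (a i) (a j))
    (𝓑 : Finset (Fin n) → Finset (Finset (Fin n)))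
    (h𝓑 : ∀ c ∈ P.parts, 𝓑 c ⊆ Q.parts ∧ (∀ A ∈ 𝓑 c, A ⊆ c) ∧
        3 / 4 * (c.card : ℝ) ≤ ∑ A ∈ 𝓑 c, (A.card : ℝ))
    (htyp : ∀ a : Finset (Fin n) → Finset (Fin n), (∀ c ∈ P.parts, a c ∈ 𝓑 c) →
        ∑ c ∈ P.parts, (cl G (a c) c + cl Gᶜ (a c) c) ≤ 8 * η0 * P.parts.card * n)
    (X : Finset (Fin n)) (hX : (X.card : ℝ) ≤ ζ / 256 * n) :
    ∃ u : Fin s → Fin n, (∀ i, u i ∉ X) ∧ (∀ i j, i ≠ j → G.Adj (u i) (u j)) ∧
        Spr G u b η ∧ DegS G u ζ := by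
  have hn' : (0 : ℝ) < n := by exact_mod_cast hn
  have hδ0 : 0 < δ := by rw [hδ]; positivity
  obtain ⟨c, 𝓒, hc, hcP, h𝓒1, h𝓒2, h𝓒3⟩ := cel hn G P Q hP hQ ε δ1 (ζ / 256) hδ10 hε2 hreg 𝓑 h𝓑 X
    hX s (by
      have : 16 * (ζ / 256) = ζ / 16 := by ring
      rw [this]; exact hs1)
  obtain ⟨A, hA1, hA2⟩ := hgr 𝓒 (fun i => (h𝓒1 i).trans (h𝓑 _ (hcP i)).1) (by
      intro i j hij
      rw [Finset.disjoint_left]
      intro A hA hA'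
      have h1 := (h𝓑 _ (hcP i)).2.1 A (h𝓒1 i hA)
      have h2 := (h𝓑 _ (hcP j)).2.1 A (h𝓒1 j hA')
      have hAne : A.Nonempty := Q.nonempty_of_mem_parts ((h𝓑 _ (hcP i)).1 (h𝓒1 i hA))
      have hd := P.disjoint (hcP i) (hcP j) (fun h => hij (hc h))
      obtain ⟨x, hx⟩ := hAne
      exact Finset.disjoint_left.1 hd (h1 hx) (h2 hx)) h𝓒2
  have hAB : ∀ i, A i ∈ 𝓑 (c i) := fun i => h𝓒1 i (hA1 i)
  have hAQ : ∀ i, A i ∈ Q.parts := fun i => (h𝓑 _ (hcP i)).1 (hAB i)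
  have hne : ∀ i, (A i).Nonempty := fun i => Q.nonempty_of_mem_parts (hAQ i)
  -- the parts
  obtain ⟨𝒴, h𝒴⟩ : ∃ 𝒴, 𝒴 = Q.parts.filter (fun Y => ∀ i, Y ≠ A i ∧
      GCP.Cut G (A i) Y ε (GCP.dn G (A i) Y)) := ⟨_, rfl⟩
  have h𝒴Q : 𝒴 ⊆ Q.parts := by rw [h𝒴]; exact Finset.filter_subset _ _
  have htot := tot hn G Q hQ A ε δ δ1 (fun i => (h𝓒3 i _ (hA1 i)).2) hs6 hε3
  have hcut : ∀ Y ∈ 𝒴, ∀ i, GCP.Cut G (A i) Y ε (GCP.dn G (A i) Y) := by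
    intro Y hY i
    rw [h𝒴, Finset.mem_filter] at hY
    exact (hY.2 i).2
  have hsum : ∑ Y ∈ 𝒴, (Y.card : ℝ) ≤ n := by
    calc ∑ Y ∈ 𝒴, (Y.card : ℝ) ≤ ∑ Y ∈ Q.parts, (Y.card : ℝ) :=
          Finset.sum_le_sum_of_subset_of_nonneg h𝒴Q fun _ _ _ => Nat.cast_nonneg _
      _ = n := by
          have := Q.sum_card_parts
          rw [Finset.card_univ, Fintype.card_fin] at this
          exact_mod_cast this
  obtain ⟨u, hu, hdev⟩ := clq G A (fun i => A i \ X) (fun i => Finset.sdiff_subset) hne (by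
      intro i
      have h1 := (h𝓒3 i _ (hA1 i)).1
      have h2 := Finset.card_sdiff_add_card_inter (A i) X
      omega) ε g δ hε0.le hg0 hg1 hδ0.le hA2 hε4 hε5 𝒴 hsum hcut
  have hu1 := Finset.mem_filter.1 hu
  have huX : ∀ i, u i ∉ X := by
    intro i
    have := (Fintype.mem_piFinset.1 hu1.1) i
    exact (Finset.mem_sdiff.1 this).2
  have hucl : ∀ i j, i ≠ j → G.Adj (u i) (u j) := by
    intro i j hij
    rcases lt_or_gt_of_ne hij with h | h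
    · exact hu1.2 i j h
    · exact (hu1.2 j i h).symm
  have hM : Mdl G u A 𝒴 δ := by
    refine ⟨?_, ?_, ?_⟩
    · intro Y hY Y' hY' hYY
      exact Q.disjoint (h𝒴Q hY) (h𝒴Q hY') hYY
    · rw [h𝒴]
      convert htot using 4
    · convert hdev using 7
  -- closeness
  have hcla : ∑ i, (cl G (A i) (c i) + cl Gᶜ (A i) (c i)) ≤ 8 * η0 * P.parts.card * n := by
    have hchoice : ∀ d ∈ P.parts, (𝓑 d).Nonempty := by
      intro d hd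
      rw [Finset.nonempty_iff_ne_empty]
      intro h0
      have h1 := (h𝓑 d hd).2.2
      rw [h0, Finset.sum_empty] at h1
      have h2 : 0 < d.card := (P.nonempty_of_mem_parts hd).card_pos
      have h3 : (0 : ℝ) < d.card := by exact_mod_cast h2
      linarith
    obtain ⟨a, ha⟩ : ∃ a : Finset (Fin n) → Finset (Fin n), (∀ i, a (c i) = A i) ∧
        ∀ d ∈ P.parts, a d ∈ 𝓑 d := by
      refine ⟨fun d => if h : ∃ i, c i = d then A h.choose else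
        (if hd : d ∈ P.parts then (hchoice d hd).choose else ∅), ?_, ?_⟩
      · intro i
        have h : ∃ j, c j = c i := ⟨i, rfl⟩
        simp only [h, dif_pos]
        rw [hc h.choose_spec]
      · intro d hd
        by_cases h : ∃ i, c i = d
        · simp only [h, dif_pos]
          have h1 := hAB h.choose
          rwa [h.choose_spec] at h1
        · simp only [h, dif_neg, hd, dif_pos, not_false_eq_true]
          exact (hchoice d hd).choose_spec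
    have h1 := htyp a ha.2
    refine le_trans ?_ h1
    calc ∑ i, (cl G (A i) (c i) + cl Gᶜ (A i) (c i))
        = ∑ i, (cl G (a (c i)) (c i) + cl Gᶜ (a (c i)) (c i)) :=
          Finset.sum_congr rfl fun i _ => by rw [ha.1 i]
      _ = ∑ d ∈ univ.image c, (cl G (a d) d + cl Gᶜ (a d) d) := by
          rw [Finset.sum_image (fun i _ j _ h => hc h)]
      _ ≤ ∑ d ∈ P.parts, (cl G (a d) d + cl Gᶜ (a d) d) := by
          refine Finset.sum_le_sum_of_subset_of_nonneg ?_ fun d _ _ =>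
            add_nonneg (cl_nonneg _ _ _) (cl_nonneg _ _ _)
          intro d hd
          obtain ⟨i, -, rfl⟩ := Finset.mem_image.1 hd
          exact hcP i
  have hclG : ∑ i, cl G (A i) (c i) ≤ 8 * η0 * P.parts.card * n := by
    refine le_trans (Finset.sum_le_sum fun i _ => ?_) hcla
    have := cl_nonneg Gᶜ (A i) (c i)
    linarith
  have hclG' : ∑ i, cl Gᶜ (A i) (c i) ≤ 8 * η0 * P.parts.card * n := by
    refine le_trans (Finset.sum_le_sum fun i _ => ?_) hcla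
    have := cl_nonneg G (A i) (c i)
    linarith
  have hk0 : (0 : ℝ) < P.parts.card := by
    have h1 : (0 : ℝ) < s := by
      by_contra h
      have h2 : (s : ℝ) = 0 := le_antisymm (not_lt.1 h) (Nat.cast_nonneg _)
      rw [h2] at hs4
      linarith
    have h2 : (0 : ℝ) ≤ ζ / 16 * P.parts.card := by positivity
    linarith
  have hsk : (s : ℝ) ≤ P.parts.card := by
    have h2 : (0 : ℝ) ≤ ζ / 16 * P.parts.card := by positivity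
    linarith
  -- homogeneous sets
  have hlow : ∀ H : SimpleGraph (Fin n), NoHole H γ σ0 →
      ∑ i, cl H (A i) (c i) ≤ 8 * η0 * P.parts.card * n → ∀ Z : Finset (Fin s), b * s ≤ Z.card →
      ∀ V0 : Finset (Fin n), (n : ℝ) / 8 ≤ V0.card →
      2 * η * Z.card * V0.card < ∑ i ∈ Z, ∑ v ∈ V0, GCR.rd (A i) (nh H v) := by
    intro H hH hcl Z hZ V0 hV0
    have h1 := hom H γ σ0 σ2 γ2 b η0 hσ hγ2 hγ hb hσb hσ32 hη00 hn1 hn2 hH P hP hs3 c A hc hcP hcl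
      Z hZ V0 hV0
    have hkn : 0 < (P.parts.card : ℝ) * n := by positivity
    have h2 : √(8 * η0) * ((P.parts.card : ℝ) * n) ≤ γ2 * b / 4096 * ((P.parts.card : ℝ) * n) :=
      mul_le_mul_of_nonneg_right hη01 hkn.le
    have h3 : (Z.card : ℝ) ≤ P.parts.card := by
      have h4 : Z.card ≤ s := by
        have := Finset.card_le_univ Z
        rwa [Fintype.card_fin] at this
      have h5 : (Z.card : ℝ) ≤ s := by exact_mod_cast h4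
      linarith
    have h4 : (V0.card : ℝ) ≤ n := by
      have := Finset.card_le_univ V0
      rw [Fintype.card_fin] at this
      exact_mod_cast this
    have h5 : 2 * η * Z.card * V0.card ≤ γ2 * b / 4096 * ((P.parts.card : ℝ) * n) := by
      calc 2 * η * Z.card * V0.card = 2 * η * ((Z.card : ℝ) * V0.card) := by ring
        _ ≤ 2 * η * ((P.parts.card : ℝ) * n) := by
            refine mul_le_mul_of_nonneg_left ?_ (by positivity)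
            exact mul_le_mul h3 h4 (Nat.cast_nonneg _) (Nat.cast_nonneg _)
        _ ≤ γ2 * b / 4096 * ((P.parts.card : ℝ) * n) := mul_le_mul_of_nonneg_right hη hkn.le
    have h6 : 0 < γ2 * b * ((P.parts.card : ℝ) * n) := by positivity
    linarith
  refine ⟨u, huX, hucl, ?_, ?_⟩
  · exact sprP hn G u A hne 𝒴 δ b η hM hb hη0 hη8 hs4 (by rw [hδ]; linarith)
      (hlow G hG hclG) (hlow Gᶜ hG' hclG')
  · exact degP G u A hne 𝒴 δ ε ζ η0 hM hε0.le hcut P hP c hc hcP hclG hζ hζ1 hη00 hη02 hs2 hs5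
      (by rw [hδ]; linarith) hε1 hn3 hn4

theorem blk (γ : ℝ → ℝ) (hγ : ∀ σ, 0 < σ → 0 < γ σ) (b ζ : ℝ) (hb : 0 < b) (hb1 : b ≤ 1)
    (hζ : 0 < ζ) (hζ1 : ζ ≤ 1) : ∃ η : ℝ, 0 < η ∧ η ≤ 1 / 8 ∧ ∀ l : ℕ, ∃ M : ℕ, ∃ σ0 : ℝ, 0 < σ0 ∧
    ∃ n0 : ℕ, ∀ n ≥ n0, ∀ G : SimpleGraph (Fin n), NoHole G γ σ0 → NoHole Gᶜ γ σ0 →
    ∃ s : ℕ, l ≤ s ∧ s ≤ M ∧ ∀ X : Finset (Fin n), (X.card : ℝ) ≤ ζ / 256 * n →
      ∃ u : Fin s → Fin n, (∀ i, u i ∉ X) ∧ (∀ i j, i ≠ j → G.Adj (u i) (u j)) ∧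
        Spr G u b η ∧ DegS G u ζ := by
  obtain ⟨σ2, hσ2⟩ : ∃ σ2 : ℝ, σ2 = b / 32 := ⟨_, rfl⟩
  have hσ20 : 0 < σ2 := by rw [hσ2]; positivity
  obtain ⟨γ2, hγ20, hγ21, hγ22⟩ : ∃ γ2 : ℝ, 0 < γ2 ∧ γ2 ≤ γ σ2 ∧ γ2 ≤ 1 :=
    ⟨min (γ σ2) 1, lt_min (hγ σ2 hσ20) one_pos, min_le_left _ _, min_le_right _ _⟩
  obtain ⟨η, hη⟩ : ∃ η : ℝ, η = γ2 * b / 8192 := ⟨_, rfl⟩
  have hγb : γ2 * b ≤ 1 * 1 := mul_le_mul hγ22 hb1 hb.le (by norm_num)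
  have hη0 : 0 < η := by rw [hη]; positivity
  have hη8 : η ≤ 1 / 8 := by rw [hη]; linarith
  obtain ⟨x, hx0, hx1, hx2⟩ : ∃ x : ℝ, 0 < x ∧ x ≤ γ2 * b / 4096 ∧ x ≤ ζ / 16 :=
    ⟨min (γ2 * b / 4096) (ζ / 16), lt_min (by positivity) (by positivity), min_le_left _ _,
      min_le_right _ _⟩
  obtain ⟨η0, hη00⟩ : ∃ η0 : ℝ, η0 = x ^ 2 / 8 := ⟨_, rfl⟩
  have hη0p : 0 < η0 := by rw [hη00]; positivity
  have hsq : √(8 * η0) = x := by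
    rw [hη00, show 8 * (x ^ 2 / 8) = x ^ 2 by ring, Real.sqrt_sq hx0.le]
  obtain ⟨δ, hδ⟩ : ∃ δ : ℝ, δ = ζ / 64 := ⟨_, rfl⟩
  have hδ0 : 0 < δ := by rw [hδ]; positivity
  refine ⟨η, hη0, hη8, fun l => ?_⟩
  have hpar := fun k : ℕ => par γ hγ ζ δ hζ hδ0 k ⌊(1 - ζ / 16) * k⌋₊
  choose s0 ε g δ1 hp1 hp2 hp3 hp4 hp5 hp6 hp7 hp8 hp9 hp10 hp11 using hpar
  obtain ⟨J, hJ⟩ := exists_nat_ge (2 / η0)
  have hJ0 : (0 : ℝ) < J := lt_of_lt_of_le (by positivity) hJ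
  have hJ0' : 0 < J := by exact_mod_cast hJ0
  obtain ⟨l0, hl0⟩ := exists_nat_ge (32 / (η ^ 2 * b) + 512 / ζ ^ 3)
  obtain ⟨M, hM0, hM⟩ := chain2 ε hp2 (fun k => ⌈4 * (k : ℝ) / δ⌉₊) (2 * (l0 + l) + 4) (by omega) J
  obtain ⟨σ0, hσ0, hσM⟩ := exists_le_all s0 hp1 M
  obtain ⟨n0, hn0⟩ := exists_nat_ge (8 / b + 32 * (M : ℝ) ^ 2 / ζ)
  refine ⟨M, min σ0 σ2, lt_min hσ0 hσ20, M + 16 + 2 * M + n0, fun n hn G hG hG' => ?_⟩
  have hn' : 0 < n := by omega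
  have hnr : (0 : ℝ) < n := by exact_mod_cast hn'
  have hnn0 : 8 / b + 32 * (M : ℝ) ^ 2 / ζ ≤ n := hn0.trans (by exact_mod_cast (by omega : n0 ≤ n))
  have hbn : 8 ≤ b * n := by
    have h1 : 8 / b ≤ n := by
      have : 0 ≤ 32 * (M : ℝ) ^ 2 / ζ := by positivity
      linarith
    rw [div_le_iff₀ hb] at h1
    linarith
  have hMn : 32 * (M : ℝ) ^ 2 ≤ ζ * n := by
    have h1 : 32 * (M : ℝ) ^ 2 / ζ ≤ n := by
      have : 0 ≤ 8 / b := by positivity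
      linarith
    rw [div_le_iff₀ hζ] at h1
    linarith
  obtain ⟨P, hP1, hP2, hP3, hP4, hP5⟩ := hM n (by omega) G
  obtain ⟨j, hj, hE⟩ := engV hJ0' G P hP2
  have hE' : ∑ c ∈ (P j).parts, ∑ A ∈ (P (j + 1)).parts.filter (fun A => A ⊆ c),
      (A.card : ℝ) * (cl G A c + cl Gᶜ A c) ≤ η0 * n ^ 2 := by
    refine le_trans (le_of_eq ?_) (hE.trans ?_)
    · rfl
    · rw [div_le_iff₀ hJ0]
      rw [div_le_iff₀ hη0p] at hJ
      have : (0 : ℝ) ≤ (n : ℝ) ^ 2 := by positivity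
      nlinarith
  obtain ⟨𝓑, h𝓑1, h𝓑2⟩ := typ2 hn' G (P j) (P (j + 1)) (hP1 j) (hP2 j) η0 hη0p.le
    (by convert hE' using 3)
  obtain ⟨k, hk⟩ : ∃ k, k = (P j).parts.card := ⟨_, rfl⟩
  have hkM : k ≤ M := by rw [hk]; exact hP3 j hj.le
  have hkM' : (k : ℝ) ≤ M := by exact_mod_cast hkM
  have hkl : 2 * (l0 + l) + 4 ≤ k := by rw [hk]; exact hP4 j
  have hkl' : 2 * ((l0 : ℝ) + l) + 4 ≤ k := by exact_mod_cast hkl
  obtain ⟨s, hs⟩ : ∃ s : ℕ, s = ⌊(1 - ζ / 16) * k⌋₊ := ⟨_, rfl⟩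
  have hk0 : (0 : ℝ) ≤ k := Nat.cast_nonneg _
  have hζk : ζ / 16 * k ≤ 1 / 16 * k := mul_le_mul_of_nonneg_right (by linarith) hk0
  have hζk0 : 0 ≤ ζ / 16 * k := by positivity
  have hs1 : (s : ℝ) ≤ (1 - ζ / 16) * k := by
    rw [hs]; exact Nat.floor_le (by linarith)
  have hs2 : (1 - ζ / 16) * k < (s : ℝ) + 1 := by
    rw [hs]; exact Nat.lt_floor_add_one _
  have hsl : (l0 : ℝ) + l + 1 ≤ s := by linarith
  have hsk : (s : ℝ) ≤ k := by linarith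
  have hl0' : (0 : ℝ) ≤ l := Nat.cast_nonneg _
  have hsl0 : 32 / (η ^ 2 * b) + 512 / ζ ^ 3 ≤ s := by linarith
  have hs4 : 32 ≤ η ^ 2 * (b * s) := by
    have h1 : 32 / (η ^ 2 * b) ≤ s := by
      have : 0 ≤ 512 / ζ ^ 3 := by positivity
      linarith
    rw [div_le_iff₀ (by positivity)] at h1
    linarith
  have hs5 : 512 ≤ ζ ^ 3 * s := by
    have h1 : 512 / ζ ^ 3 ≤ s := by
      have : 0 ≤ 32 / (η ^ 2 * b) := by positivity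
      linarith
    rw [div_le_iff₀ (by positivity)] at h1
    linarith
  have hs0 : (0 : ℝ) ≤ s := Nat.cast_nonneg _
  have hζs : 512 ≤ ζ * s := by
    have h1 : ζ ^ 3 * s ≤ ζ * s := by
      refine mul_le_mul_of_nonneg_right ?_ hs0
      have : ζ ^ 2 ≤ 1 := by
        have := pow_le_pow_left₀ hζ.le hζ1 2
        linarith
      calc ζ ^ 3 = ζ ^ 2 * ζ := by ring
        _ ≤ 1 * ζ := mul_le_mul_of_nonneg_right this hζ.le
        _ = ζ := one_mul ζ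
    linarith
  have hks : (k : ℝ) ≤ (1 + ζ / 8) * s := by
    have h1 : ζ * ζ * s ≤ ζ * 1 * s := by
      refine mul_le_mul_of_nonneg_right ?_ hs0
      exact mul_le_mul_of_nonneg_left hζ1 hζ.le
    have h2 : (1 - ζ / 16) * ((1 + ζ / 8) * s) = s + ζ * s / 16 - ζ * ζ * s / 128 := by ring
    have h3 : (1 - ζ / 16) * k ≤ (1 - ζ / 16) * ((1 + ζ / 8) * s) := by
      rw [h2]; linarith
    exact le_of_mul_le_mul_left h3 (by linarith)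
  have hks2 : k ≤ 2 * s := by
    have h1 : (k : ℝ) ≤ 2 * s := by
      have : ζ / 8 * s ≤ 1 * s := mul_le_mul_of_nonneg_right (by linarith) hs0
      linarith
    exact_mod_cast h1
  have hn4 : 2 * (k : ℝ) ^ 2 ≤ ζ / 16 * s * n := by
    have h1 : (k : ℝ) ^ 2 ≤ (M : ℝ) ^ 2 := pow_le_pow_left₀ hk0 hkM' 2
    have h2 : (1 : ℝ) ≤ s := by
      have : (0 : ℝ) ≤ l0 := Nat.cast_nonneg _
      linarith
    have h3 : ζ / 16 * 1 * n ≤ ζ / 16 * s * n := by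
      refine mul_le_mul_of_nonneg_right ?_ hnr.le
      exact mul_le_mul_of_nonneg_left h2 (by positivity)
    linarith
  refine ⟨s, ?_, ?_, ?_⟩
  · have : (l : ℝ) ≤ s := by
      have : (0 : ℝ) ≤ l0 := Nat.cast_nonneg _
      linarith
    exact_mod_cast this
  · have : (s : ℝ) ≤ M := hsk.trans hkM'
    exact_mod_cast this
  intro X hX
  have hQK := (hP5 j hj).2
  have hQK' : 4 * (k : ℝ) ≤ δ * (P (j + 1)).parts.card := by
    have h1 : 4 * (k : ℝ) / δ ≤ (P (j + 1)).parts.card := by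
      refine (Nat.le_ceil _).trans ?_
      rw [hk]
      exact_mod_cast hQK
    rw [div_le_iff₀ hδ0] at h1
    linarith
  have hreg : Reg G (ε k) (P (j + 1)) := by rw [hk]; exact (hP5 j hj).1
  have h9 := hp9 k
  have h8 := hp8 k
  have h10 := hp10 k
  have h11 := hp11 k
  rw [← hs] at h8 h9 h10 h11
  have hG1 : NoHole G γ (s0 k) := fun σ h => hG σ ((min_le_left _ _).trans ((hσM k hkM).trans h))
  refine core hn' G γ b ζ δ η η0 (min σ0 σ2) σ2 γ2 (ε k) (g k) (δ1 k) s (P j) (P (j + 1)) (hP1 j)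
    (hP1 (j + 1)) (hP2 j) hb hζ hζ1 hη0 hη8 (by rw [hη]; linarith) hη0p.le (by rw [hsq]; exact hx1)
    (by rw [hsq]; linarith) (min_le_right _ _) hγ20 hγ21 (by rw [hσ2]; linarith)
    (by rw [hσ2]; linarith) (by omega) hbn (by rw [← hk]; omega) (by rw [← hk]; exact hn4) hG hG' hδ
    (by rw [← hk]; exact hs1) (by rw [← hk]; exact hks) (by rw [← hk]; exact hks2) hs4 hs5
    (by linarith) (hp2 k) (hp3 k) (hp4 k) (hp5 k) (hp6 k) (by rw [← hk]; exact hp7 k) h8 h9 h10 hreg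
    ?_ 𝓑 h𝓑1 h𝓑2 X hX
  rw [← hk]
  exact h11 n hn' G hG1 (P (j + 1)) (hP1 (j + 1)) hreg

end GCU
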