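import Mathlib

/-!
# GCU-Blks: many disjoint blocks (Mathlib only)

Induction on the number of blocks: the images of the previous blocks are added to the excluded set.
-/

set_option autoImplicit false

open Finset

namespace GCU

theorem blks {n s : ℕ} (Pr : (Fin s → Fin n) → Prop) (m : ℝ)
    (h : ∀ X : Finset (Fin n), (X.card : ℝ) ≤ m → ∃ u : Fin s → Fin n, (∀ i, u i ∉ X) ∧ Pr u)
    (E : Finset (Fin n)) (B : ℕ) (hB : (E.card : ℝ) + s * B ≤ m) :
    ∃ u : Fin B → Fin s → Fin n, (∀ b i, u b i ∉ E) ∧ (∀ b, Pr (u b)) ∧
      ∀ b b' i j, u b i = u b' j → b = b' := by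
  classical
  induction B with
  | zero => exact ⟨fun b => b.elim0, fun b => b.elim0, fun b => b.elim0, fun b => b.elim0⟩
  | succ B ih =>
    have hB' : (E.card : ℝ) + s * B ≤ m := by
      refine le_trans ?_ hB
      push_cast
      nlinarith [Nat.cast_nonneg (α := ℝ) s]
    obtain ⟨u, h1, h2, h3⟩ := ih hB'
    let F : Finset (Fin n) := (Finset.univ : Finset (Fin B × Fin s)).image fun p => u p.1 p.2
    have hF : F.card ≤ B * s := by
      refine le_trans Finset.card_image_le ?_
      simp
    obtain ⟨w, hw1, hw2⟩ := h (E ∪ F) (by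
      have h4 : ((E ∪ F).card : ℝ) ≤ E.card + B * s := by
        have := Finset.card_union_le E F
        have h5 : (E ∪ F).card ≤ E.card + B * s := by omega
        exact_mod_cast h5
      nlinarith)
    have hw3 : ∀ b i j, w i ≠ u b j := by
      intro b i j hij
      apply hw1 i
      rw [hij]
      exact Finset.mem_union_right _ (Finset.mem_image.2 ⟨(b, j), Finset.mem_univ _, rfl⟩)
    refine ⟨Fin.cons w u, ?_, ?_, ?_⟩
    · intro b i
      refine Fin.cases ?_ (fun b => ?_) b
      · rw [Fin.cons_zero]
        exact fun hmem => hw1 i (Finset.mem_union_left _ hmem)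
      · rw [Fin.cons_succ]
        exact h1 b i
    · intro b
      refine Fin.cases ?_ (fun b => ?_) b
      · rw [Fin.cons_zero]; exact hw2
      · rw [Fin.cons_succ]; exact h2 b
    · intro b b'
      refine Fin.cases ?_ (fun b => ?_) b
      · refine Fin.cases ?_ (fun b' => ?_) b'
        · intro i j _; rfl
        · intro i j hij
          rw [Fin.cons_zero, Fin.cons_succ] at hij
          exact absurd hij (hw3 b' i j)
      · refine Fin.cases ?_ (fun b' => ?_) b'
        · intro i j hij
          rw [Fin.cons_zero, Fin.cons_succ] at hij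
          exact absurd hij.symm (hw3 b j i)
        · intro i j hij
          rw [Fin.cons_succ, Fin.cons_succ] at hij
          rw [h3 b b' i j hij]

end GCU
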