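import Pool.Agent.GCU.Defs
import Pool.Agent.GCQ.Ex

/-!
# GCU-Chb: Chebyshev's inequality

The expectation of `(|S ∩ Z| - ∑ i ∈ Z, x i) ^ 2` is `∑ i ∈ Z, x i (1 - x i) ≤ |Z|`, and
`t ^ 2 * |Z| ^ 2 * (indicator)` is at most this square.
-/

set_option autoImplicit false

open Finset

namespace GCU

private theorem Chb_pair_lt {s : ℕ} (x : Fin s → ℝ) {i j : Fin s} (h : i < j) :
    GCQ.ex x (fun S => (if i ∈ S then (1 : ℝ) else 0) * (if j ∈ S then 1 else 0)) = x i * x j := by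
  have h1 := GCQ.ex_ind x j (fun S => if i ∈ S then 1 else 0)
  have h2 : (fun S : Finset (Fin s) => (if i ∈ S then (1 : ℝ) else 0) * (if j ∈ S then 1 else 0)) =
      (fun S => if j ∈ S then (if i ∈ S.filter (fun l => l < j) then (1 : ℝ) else 0) else 0) := by
    funext S
    by_cases hj : j ∈ S
    · rw [if_pos hj, if_pos hj, mul_one]
      by_cases hi : i ∈ S
      · rw [if_pos hi, if_pos (mem_filter.2 ⟨hi, h⟩)]
      · rw [if_neg hi, if_neg fun h3 => hi (mem_filter.1 h3).1]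
    · rw [if_neg hj, if_neg hj, mul_zero]
  have h3 : (fun S : Finset (Fin s) => if i ∈ S.filter (fun l => l < j) then (1 : ℝ) else 0) =
      (fun S => if i ∈ S then (1 : ℝ) else 0) := by
    funext S
    by_cases hi : i ∈ S
    · rw [if_pos hi, if_pos (mem_filter.2 ⟨hi, h⟩)]
    · rw [if_neg hi, if_neg fun h3 => hi (mem_filter.1 h3).1]
  rw [h2, h1, h3, GCQ.ex_mem, mul_comm]

private theorem Chb_pair {s : ℕ} (x : Fin s → ℝ) (i j : Fin s) :
    GCQ.ex x (fun S => (if i ∈ S then (1 : ℝ) else 0) * (if j ∈ S then 1 else 0)) =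
      x i * x j + (if i = j then x i - x i * x i else 0) := by
  rcases lt_trichotomy i j with h | h | h
  · rw [Chb_pair_lt x h, if_neg h.ne, add_zero]
  · subst h
    rw [if_pos rfl]
    have h2 : (fun S : Finset (Fin s) => (if i ∈ S then (1 : ℝ) else 0) *
        (if i ∈ S then 1 else 0)) = (fun S => if i ∈ S then (1 : ℝ) else 0) := by
      funext S
      by_cases hi : i ∈ S
      · rw [if_pos hi, mul_one]
      · rw [if_neg hi, mul_zero]
    rw [h2, GCQ.ex_mem]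
    ring
  · have h2 : (fun S : Finset (Fin s) => (if i ∈ S then (1 : ℝ) else 0) *
        (if j ∈ S then 1 else 0)) =
        (fun S => (if j ∈ S then (1 : ℝ) else 0) * (if i ∈ S then 1 else 0)) := by
      funext S
      exact mul_comm _ _
    rw [h2, Chb_pair_lt x h, if_neg h.ne', add_zero, mul_comm]

private theorem Chb_cov {s : ℕ} (x : Fin s → ℝ) (i j : Fin s) :
    GCQ.ex x (fun S => ((if i ∈ S then (1 : ℝ) else 0) - x i) *
      ((if j ∈ S then (1 : ℝ) else 0) - x j)) = if i = j then x i - x i * x i else 0 := by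
  have h1 : (fun S : Finset (Fin s) => ((if i ∈ S then (1 : ℝ) else 0) - x i) *
      ((if j ∈ S then (1 : ℝ) else 0) - x j)) =
      fun S => ((if i ∈ S then (1 : ℝ) else 0) * (if j ∈ S then 1 else 0) +
        (-x j) * (if i ∈ S then (1 : ℝ) else 0)) +
        ((-x i) * (if j ∈ S then (1 : ℝ) else 0) + (x i * x j) * 1) := by
    funext S
    ring
  rw [h1, GCQ.ex_add x (fun S => (if i ∈ S then (1 : ℝ) else 0) * (if j ∈ S then 1 else 0) +
        (-x j) * (if i ∈ S then (1 : ℝ) else 0)) (fun S =>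
        (-x i) * (if j ∈ S then (1 : ℝ) else 0) + (x i * x j) * 1),
    GCQ.ex_add x (fun S => (if i ∈ S then (1 : ℝ) else 0) * (if j ∈ S then 1 else 0))
      (fun S => (-x j) * (if i ∈ S then (1 : ℝ) else 0)),
    GCQ.ex_add x (fun S => (-x i) * (if j ∈ S then (1 : ℝ) else 0)) (fun _ => (x i * x j) * 1),
    GCQ.ex_mul x (-x j) (fun S => if i ∈ S then (1 : ℝ) else 0),
    GCQ.ex_mul x (-x i) (fun S => if j ∈ S then (1 : ℝ) else 0),
    GCQ.ex_mul x (x i * x j) (fun _ => 1), Chb_pair, GCQ.ex_mem, GCQ.ex_mem, GCQ.ex_one]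
  ring

open Classical in
theorem chb {s : ℕ} (x : Fin s → ℝ) (hx : ∀ i, 0 ≤ x i ∧ x i ≤ 1) (Z : Finset (Fin s))
    (hZ : Z.Nonempty) (t : ℝ) (ht : 0 < t) :
    GCQ.ex x (fun S => if t * Z.card ≤ |((S ∩ Z).card : ℝ) - ∑ i ∈ Z, x i| then 1 else 0) ≤
      1 / (t ^ 2 * Z.card) := by
  have hz : (0 : ℝ) < Z.card := Nat.cast_pos.2 hZ.card_pos
  have htz : 0 < t * Z.card := mul_pos ht hz
  have hsq : ∀ S : Finset (Fin s), (((S ∩ Z).card : ℝ) - ∑ i ∈ Z, x i) ^ 2 =
      ∑ i ∈ Z, ∑ j ∈ Z, ((if i ∈ S then (1 : ℝ) else 0) - x i) *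
        ((if j ∈ S then (1 : ℝ) else 0) - x j) := by
    intro S
    have h1 : ((S ∩ Z).card : ℝ) = ∑ i ∈ Z, if i ∈ S then (1 : ℝ) else 0 := by
      rw [Finset.sum_boole, Finset.filter_mem_eq_inter, Finset.inter_comm]
    rw [h1, ← Finset.sum_sub_distrib, pow_two, Finset.sum_mul_sum]
  have hvar : GCQ.ex x (fun S => (((S ∩ Z).card : ℝ) - ∑ i ∈ Z, x i) ^ 2) ≤ Z.card := by
    have h1 : (fun S : Finset (Fin s) => (((S ∩ Z).card : ℝ) - ∑ i ∈ Z, x i) ^ 2) =
        fun S => ∑ i ∈ Z, ∑ j ∈ Z, ((if i ∈ S then (1 : ℝ) else 0) - x i) *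
          ((if j ∈ S then (1 : ℝ) else 0) - x j) := funext hsq
    rw [h1, GCQ.ex_sum x Z (fun i S => ∑ j ∈ Z, ((if i ∈ S then (1 : ℝ) else 0) - x i) *
          ((if j ∈ S then (1 : ℝ) else 0) - x j))]
    have h2 : ∀ i ∈ Z, GCQ.ex x (fun S => ∑ j ∈ Z, ((if i ∈ S then (1 : ℝ) else 0) - x i) *
          ((if j ∈ S then (1 : ℝ) else 0) - x j)) = x i - x i * x i := by
      intro i hi
      rw [GCQ.ex_sum x Z (fun j S => ((if i ∈ S then (1 : ℝ) else 0) - x i) *
          ((if j ∈ S then (1 : ℝ) else 0) - x j)), Finset.sum_congr rfl fun j _ => Chb_cov x i j,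
        Finset.sum_ite_eq, if_pos hi]
    rw [Finset.sum_congr rfl h2]
    calc ∑ i ∈ Z, (x i - x i * x i) ≤ ∑ i ∈ Z, (1 : ℝ) :=
          Finset.sum_le_sum fun i _ => by nlinarith [(hx i).1, (hx i).2]
      _ = Z.card := by rw [Finset.sum_const, nsmul_eq_mul, mul_one]
  have hle : GCQ.ex x (fun S => if t * Z.card ≤ |((S ∩ Z).card : ℝ) - ∑ i ∈ Z, x i| then 1 else 0) ≤
      GCQ.ex x (fun S => (1 / (t * Z.card) ^ 2) * (((S ∩ Z).card : ℝ) - ∑ i ∈ Z, x i) ^ 2) := by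
    refine GCQ.ex_le x hx _ _ fun S => ?_
    split_ifs with h
    · rw [one_div_mul_eq_div, le_div_iff₀ (by positivity), one_mul, ← sq_abs
        (((S ∩ Z).card : ℝ) - ∑ i ∈ Z, x i)]
      exact pow_le_pow_left₀ htz.le h 2
    · positivity
  refine hle.trans ?_
  rw [GCQ.ex_mul x (1 / (t * Z.card) ^ 2) (fun S => (((S ∩ Z).card : ℝ) - ∑ i ∈ Z, x i) ^ 2)]
  refine (mul_le_mul_of_nonneg_left hvar (by positivity)).trans (le_of_eq ?_)
  field_simp

end GCU
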