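import Pool.Agent.GCQ.KillF
import Pool.Agent.GCQ.Glue

/-!
# GCU-CoreR: assembly of the algebraic part (helper92)
-/

set_option autoImplicit false

open Finset Module

namespace GCU

open GCQ

private noncomputable def Core_Q {n s B r d1 d2 : ℕ} (u : Fin B → Fin s → Fin n)
    (Q1 : Fin d1 → Finset (Fin n)) (Q2 : Fin d2 → Finset (Fin n)) :
    (Fin B × Fin r) ⊕ (Fin d1 ⊕ Fin d2) → Finset (Fin n) :=
  Sum.elim (fun q => univ.image (u q.1)) (Sum.elim Q1 Q2)

open Classical in
theorem coreR {n s r k t e2 d' A B p d2 : ℕ} [Fact p.Prime] (G : SimpleGraph (Fin n))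
    (hs : r + k = s) (hp : s ≤ p) (hA : 2 ^ A ≤ p) (hA0 : 0 < A) (ht : 0 < t)
    (u : Fin B → Fin s → Fin n) (hcl : ∀ b i j, i ≠ j → G.Adj (u b i) (u b j))
    (H2' : ∀ b, ∀ U : Submodule (ZMod p) (Fin s → ZMod p), U ≠ ⊥ → Robust U k →
        s ^ 2 + n / A + 1 + s ^ 2 * t + 2 * s +
          ∑ v, finrank (ZMod p) (van U (tr G (u b) v)) < finrank (ZMod p) U * d')
    (Q1 : Fin (d' + p ^ s * e2) → Finset (Fin n)) (Q2 : Fin d2 → Finset (Fin n))
    (hQ1 : ∀ j, ∀ a ∈ Q1 j, ∀ b ∈ Q1 j, ¬ Gᶜ.Adj a b)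
    (hQ2 : ∀ j, ∀ a ∈ Q2 j, ∀ b ∈ Q2 j, ¬ Gᶜ.Adj a b)
    (hit1 : ∀ T : Finset (Fin n), t ≤ T.card → (univ.filter (fun j => Disjoint (Q1 j) T)).card ≤ e2)
    (hall2 : ∀ T : Finset (Fin n), T.card ≤ 2 * ((s + 1) * t) → Hall Q2 T)
    (H0 : s ^ 2 + n / A + 1 + s ^ 2 * t + 2 * s < d')
    (hV : ∀ S : Finset (Fin n), S.Nonempty → (∀ b i, u b i ∉ S) →
      ∃ v ∈ S, (MrGC.nb Gᶜ S v).card + 1 ≤ d') :
    MrGC.PR Gᶜ (B * r + (d' + p ^ s * e2 + d2)) := by
  have hu : ∀ b, Function.Injective (u b) := by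
    intro b i j hij
    by_contra hne
    have := hcl b i j hne
    rw [hij] at this
    exact G.irrefl this
  have hmain := glue (κ := (Fin B × Fin r) ⊕ (Fin (d' + p ^ s * e2) ⊕ Fin d2)) G
    (Core_Q u Q1 Q2) ?_ u hu (fun b => univ.image (fun i : Fin r => Sum.inl (b, i))) ?_ ?_ ?_
  · have hc : Fintype.card ((Fin B × Fin r) ⊕ (Fin (d' + p ^ s * e2) ⊕ Fin d2)) =
        B * r + (d' + p ^ s * e2 + d2) := by
      simp [Fintype.card_sum, Fintype.card_prod, Fintype.card_fin]
    rwa [hc] at hmain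
  · rintro (⟨b, i⟩ | j | j) x hx y hy hxy
    · simp only [Core_Q, Sum.elim_inl, Finset.mem_image, Finset.mem_univ, true_and] at hx hy
      obtain ⟨i1, rfl⟩ := hx
      obtain ⟨i2, rfl⟩ := hy
      rw [SimpleGraph.compl_adj] at hxy
      exact hxy.2 (hcl b i1 i2 (fun h => hxy.1 (by rw [h])))
    · exact hQ1 j x hx y hy hxy
    · exact hQ2 j x hx y hy hxy
  · intro b j hj
    obtain ⟨i, -, rfl⟩ := Finset.mem_image.1 hj
    simp [Core_Q]
  · intro b T0 hT0
    obtain ⟨x, Z1, Z2, hZ1, hZ2, hK⟩ := killF (p := p) (r := r) (k := k) (t := t) (e2 := e2)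
      (d' := d') (A := A) G (u b) T0 hT0 hs hp hA hA0 ht Q1 Q2
      (by intro T hT; convert hit1 T hT) (by rw [Fintype.card_fin]) hall2 H0 (H2' b)
    refine ⟨p, inferInstance, fun v j => Sum.elim
      (fun q : Fin B × Fin r => if q.1 = b then ∑ i, if u b i = v then x i q.2 else 0 else 0)
      (Sum.elim (fun j => Z1 v j) (fun j => Z2 v j)) j, ?_, ?_⟩
    · rintro v (⟨b', i⟩ | j | j) hv
      · simp only [Core_Q, Sum.elim_inl, Finset.mem_image, Finset.mem_univ, true_and,
          not_exists] at hv ⊢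
        split_ifs with h
        · subst h
          exact Finset.sum_eq_zero fun i' _ => if_neg (hv i')
        · rfl
      · exact hZ1 v j hv
      · exact hZ2 v j hv
    · intro N hN1 hN2 hN3
      refine hK N hN1 ?_ ?_ ?_
      · intro v j
        have h1 := hN2 v (Sum.inl (b, j)) (Finset.mem_image.2 ⟨j, Finset.mem_univ _, rfl⟩)
        rw [← h1]
        refine Finset.sum_congr rfl fun i _ => ?_
        simp only [Sum.elim_inl, if_true]
        congr 1
        rw [Finset.sum_eq_single i]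
        · rw [if_pos rfl]
        · intro i' _ hi'
          exact if_neg (fun h => hi' (hu b h))
        · intro h; exact absurd (Finset.mem_univ i) h
      · intro i j
        exact hN3 i (Sum.inr (Sum.inl j))
      · intro i j
        exact hN3 i (Sum.inr (Sum.inr j))
  · intro S hS hSu
    obtain ⟨v, hv, hvd⟩ := hV S hS hSu
    refine ⟨v, hv, fun w T' hT' => ?_⟩
    have hc1 : T'.card ≤ d' := by
      refine (Finset.card_le_card hT').trans ?_
      exact (Finset.card_insert_le _ _).trans hvd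
    have hmono1 : (univ.filter (fun j => ¬ Disjoint (Q1 j) T')).card ≤ hit (Core_Q (r := r) u Q1 Q2) T' := by
      unfold hit
      have : (univ.filter (fun j => ¬ Disjoint (Q1 j) T')).card =
          ((univ.filter (fun j => ¬ Disjoint (Q1 j) T')).map
            (⟨fun j => Sum.inr (Sum.inl j), fun a b h => by simpa using h⟩ :
              Fin (d' + p ^ s * e2) ↪ (Fin B × Fin r) ⊕ (Fin (d' + p ^ s * e2) ⊕ Fin d2))).card := by
        rw [Finset.card_map]
      rw [this]
      refine Finset.card_le_card ?_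
      intro j hj
      obtain ⟨a, ha, rfl⟩ := Finset.mem_map.1 hj
      rw [Finset.mem_filter] at ha ⊢
      exact ⟨Finset.mem_univ _, ha.2⟩
    have hmono2 : hit Q2 T' ≤ hit (Core_Q (r := r) u Q1 Q2) T' := by
      unfold hit
      have : (univ.filter (fun j => ¬ Disjoint (Q2 j) T')).card =
          ((univ.filter (fun j => ¬ Disjoint (Q2 j) T')).map
            (⟨fun j => Sum.inr (Sum.inr j), fun a b h => by simpa using h⟩ :
              Fin d2 ↪ (Fin B × Fin r) ⊕ (Fin (d' + p ^ s * e2) ⊕ Fin d2))).card := by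
        rw [Finset.card_map]
      rw [this]
      refine Finset.card_le_card ?_
      intro j hj
      obtain ⟨a, ha, rfl⟩ := Finset.mem_map.1 hj
      rw [Finset.mem_filter] at ha ⊢
      exact ⟨Finset.mem_univ _, ha.2⟩
    rcases le_or_gt T'.card (2 * ((s + 1) * t)) with h | h
    · exact (hall2 T' h T' (Finset.Subset.refl _)).trans hmono2
    · refine le_trans ?_ hmono1
      have htT : t ≤ T'.card := by nlinarith
      have h5 := hit1 T' htT
      have h6 := Finset.card_filter_add_card_filter_not (s := (univ : Finset (Fin (d' + p ^ s * e2))))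
        (fun j => Disjoint (Q1 j) T')
      rw [Finset.card_univ, Fintype.card_fin] at h6
      have h7 : e2 ≤ p ^ s * e2 := Nat.le_mul_of_pos_left _ (pow_pos (Fact.out : p.Prime).pos s)
      omega

end GCU
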