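import Pool.Agent.GCR.Defs
import Pool.Agent.GCQ.Defs

/-!
# Project GCU (MP_2c4812_co): definitions

THEOREM: for every `γ : ℝ → ℝ`, positive on `(0, ∞)`, there are `c > 0`, `σ0 > 0` and `n0` such that every graph on `n ≥ n0` vertices in which
for all `σ ≥ σ0` any two disjoint sets of at least `σ n` vertices have density in `[γ σ, 1 - γ σ]` satisfies `mr_+(G) + mr_+(Gᶜ) ≤ (1 - c) n`.
-/

set_option autoImplicit false

open Finset

namespace GCU

open Classical in
/-- the neighbourhood -/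
noncomputable def nh {n : ℕ} (G : SimpleGraph (Fin n)) (v : Fin n) : Finset (Fin n) :=
  univ.filter (fun w => G.Adj v w)

/-- the distance between the degrees to `A` and the degrees to `c` -/
noncomputable def cl {n : ℕ} (G : SimpleGraph (Fin n)) (A c : Finset (Fin n)) : ℝ :=
  ∑ v, (GCR.rd A (nh G v) - GCR.rd c (nh G v)) ^ 2

open Classical in
/-- every large part `Z` of the block `u` is homogeneous to at most half of the vertices -/
def Spr {n s : ℕ} (G : SimpleGraph (Fin n)) (u : Fin s → Fin n) (b η : ℝ) : Prop :=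
  ∀ Z : Finset (Fin s), b * s ≤ Z.card → (n : ℝ) / 2 ≤
    ((univ.filter (fun v => η * Z.card ≤ ((GCQ.tr G u v ∩ Z).card : ℝ) ∧
      ((GCQ.tr G u v ∩ Z).card : ℝ) ≤ (1 - η) * Z.card)).card : ℝ)

/-- the block `u` sees the degrees -/
def DegS {n s : ℕ} (G : SimpleGraph (Fin n)) (u : Fin s → Fin n) (ζ : ℝ) : Prop :=
  ∀ V0 : Finset (Fin n), ∑ v ∈ V0, ((GCQ.tr G u v).card : ℝ) ≤
    s / n * ∑ v ∈ V0, (GCQ.dg G v : ℝ) + ζ * s * n

open Classical in
/-- the traces on `u` are distributed like independent ones on each of the sets `Y ∈ 𝒴`, up to `δ n` -/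
def Mdl {n s : ℕ} (G : SimpleGraph (Fin n)) (u : Fin s → Fin n) (A : Fin s → Finset (Fin n))
    (𝒴 : Finset (Finset (Fin n))) (δ : ℝ) : Prop :=
  ((𝒴 : Set (Finset (Fin n))).PairwiseDisjoint id) ∧ (1 - δ) * n ≤ ∑ Y ∈ 𝒴, (Y.card : ℝ) ∧
  ∑ Y ∈ 𝒴, ∑ S : Finset (Fin s),
    |(((Y.filter (fun v => GCQ.tr G u v = S)).card : ℕ) : ℝ) -
      (∏ i, if i ∈ S then GCP.dn G (A i) Y else 1 - GCP.dn G (A i) Y) * Y.card| ≤ δ * n

open Classical in
/-- the number of parts `Y ≠ A` which are irregular to `A` -/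
noncomputable def irr {n : ℕ} (G : SimpleGraph (Fin n)) (ε : ℝ)
    (Q : Finpartition (univ : Finset (Fin n))) (A : Finset (Fin n)) : ℕ :=
  (Q.parts.filter (fun Y => Y ≠ A ∧ ¬ GCP.Cut G A Y ε (GCP.dn G A Y))).card

end GCU
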