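import Pool.Agent.GCU.Defs

/-!
# GCU-DegL: almost all vertices have many non-neighbours in the blocks

PLAN. `V0` = the set of the conclusion. If `L = ∅` then `V0 = ∅`. `|L| = s B` (`hinj`). For every `v`: `|nb Gᶜ L v| ≥ |L| - ∑ b, |tr G (u b) v| - (if v ∈ L then 1 else 0)` (`nb G L v`, `nb Gᶜ L v`, `L ∩ {v}` cover `L`, and `|nb G L v| ≤ ∑ b, |tr G (u b) v|`, `tr` uses `G.Adj (u b i) v`). Sum over `v ∈ V0`:
`(κ / 2) |L| |V0| ≥ ∑ v ∈ V0, |nb Gᶜ L v| ≥ |L| |V0| - ∑ b (s / n * ∑ v ∈ V0, dg G v + ζ s n) - |L| = |L| (|V0| - (1 / n) ∑ v ∈ V0, dg G v - ζ n - 1) = |L| ((1 / n) ∑ v ∈ V0, (n - dg G v) - ζ n - 1)`, and `n - dg G v ≥ dg Gᶜ v ≥ κ n` for all but `τ n` of the `v`, so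
the bracket is at least `κ (|V0| - τ n) - ζ n - 1`. Divide by `|L| > 0`: `(κ / 2) |V0| ≤ κ τ n + ζ n + 1`, i.e. `|V0| ≤ 2 τ n + (2 ζ / κ) n + 2 / κ`.
-/

set_option autoImplicit false

open Finset

namespace GCU

open Classical in
private theorem degl_nb {n s B : ℕ} (G : SimpleGraph (Fin n)) (u : Fin B → Fin s → Fin n)
    (L : Finset (Fin n)) (hL : L = univ.image (fun q : Fin B × Fin s => u q.1 q.2)) (v : Fin n) :
    L.card ≤ (MrGC.nb Gᶜ L v).card + ∑ b, (GCQ.tr G (u b) v).card + (if v ∈ L then 1 else 0) := by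
  have h1 : L ⊆ (MrGC.nb Gᶜ L v ∪ univ.biUnion (fun b => (GCQ.tr G (u b) v).image (u b))) ∪
      (if v ∈ L then {v} else ∅) := by
    intro w hw
    by_cases hvw : w = v
    · subst hvw
      rw [if_pos hw]
      exact Finset.mem_union_right _ (Finset.mem_singleton_self _)
    · refine Finset.mem_union_left _ ?_
      by_cases hadj : G.Adj v w
      · refine Finset.mem_union_right _ ?_
        have hw' := hw
        rw [hL, Finset.mem_image] at hw'
        obtain ⟨⟨b, i⟩, -, hbi⟩ := hw'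
        rw [Finset.mem_biUnion]
        refine ⟨b, Finset.mem_univ b, Finset.mem_image.2 ⟨i, ?_, hbi⟩⟩
        unfold GCQ.tr
        rw [Finset.mem_filter]
        refine ⟨Finset.mem_univ i, ?_⟩
        have h2 : u b i = w := hbi
        rw [h2]
        exact hadj.symm
      · refine Finset.mem_union_left _ ?_
        rw [MrGC.mem_nb]
        refine ⟨hw, ?_⟩
        rw [SimpleGraph.compl_adj]
        exact ⟨fun h => hvw h.symm, hadj⟩
  refine (Finset.card_le_card h1).trans ((Finset.card_union_le _ _).trans ?_)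
  refine add_le_add ((Finset.card_union_le _ _).trans (add_le_add le_rfl ?_)) ?_
  · refine Finset.card_biUnion_le.trans (Finset.sum_le_sum fun b _ => Finset.card_image_le)
  · split_ifs
    · rw [Finset.card_singleton]
    · rw [Finset.card_empty]

open Classical in
private theorem degl_dg {n : ℕ} (G : SimpleGraph (Fin n)) (v : Fin n) :
    GCQ.dg Gᶜ v + GCQ.dg G v ≤ n := by
  unfold GCQ.dg
  refine le_trans (le_of_eq (Finset.card_union_of_disjoint ?_).symm) ?_
  · rw [Finset.disjoint_left]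
    intro w h1 h2
    have a1 := ((@Finset.mem_filter (Fin n) (fun w => Gᶜ.Adj v w)
      (fun a => Classical.propDecidable _) univ w).1 h1).2
    have a2 := ((@Finset.mem_filter (Fin n) (fun w => G.Adj v w)
      (fun a => Classical.propDecidable _) univ w).1 h2).2
    exact ((SimpleGraph.compl_adj G v w).1 a1).2 a2
  · refine (Finset.card_le_univ _).trans ?_
    rw [Fintype.card_fin]

open Classical in
theorem degL {n s B : ℕ} (hn : 0 < n) (G : SimpleGraph (Fin n)) (u : Fin B → Fin s → Fin n)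
    (hinj : Function.Injective (fun q : Fin B × Fin s => u q.1 q.2)) (ζ κ τ : ℝ)
    (hκ : 0 < κ) (hz : 0 ≤ ζ) (hu : ∀ b, DegS G (u b) ζ)
    (hdeg : ((univ.filter (fun v => (GCQ.dg Gᶜ v : ℝ) < κ * n)).card : ℝ) ≤ τ * n)
    (L : Finset (Fin n)) (hL : L = univ.image (fun q : Fin B × Fin s => u q.1 q.2)) :
    ((univ.filter (fun v => ((MrGC.nb Gᶜ L v).card : ℝ) < κ / 2 * L.card)).card : ℝ) ≤
      2 * τ * n + 2 * ζ / κ * n + 2 / κ := by
  have hnr : (0 : ℝ) < n := by exact_mod_cast hn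
  have hLc : (L.card : ℝ) = B * s := by
    rw [hL, Finset.card_image_of_injective _ hinj, card_univ, Fintype.card_prod, Fintype.card_fin,
      Fintype.card_fin]
    push_cast
    ring
  have hτ : 0 ≤ τ * n := le_trans (Nat.cast_nonneg _) hdeg
  rcases Nat.eq_zero_or_pos L.card with h0 | h0
  · have h1 : univ.filter (fun v => ((MrGC.nb Gᶜ L v).card : ℝ) < κ / 2 * L.card) = ∅ := by
      refine Finset.filter_eq_empty_iff.2 fun v _ => ?_
      rw [h0, Nat.cast_zero, mul_zero, not_lt]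
      exact Nat.cast_nonneg _
    rw [h1, Finset.card_empty, Nat.cast_zero]
    have h2 : 0 ≤ 2 * ζ / κ * n := by positivity
    have h3 : 0 ≤ 2 / κ := by positivity
    linarith
  · have hLr : (0 : ℝ) < L.card := by exact_mod_cast h0
    obtain ⟨V0, hV0⟩ : ∃ V0, V0 = univ.filter
      (fun v => ((MrGC.nb Gᶜ L v).card : ℝ) < κ / 2 * L.card) := ⟨_, rfl⟩
    rw [← hV0]
    have a1 : ∑ v ∈ V0, ((MrGC.nb Gᶜ L v).card : ℝ) ≤ V0.card * (κ / 2 * L.card) := by
      have h := Finset.sum_le_card_nsmul V0 (fun v => ((MrGC.nb Gᶜ L v).card : ℝ))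
        (κ / 2 * L.card) (fun v hv => by
          rw [hV0, Finset.mem_filter] at hv
          exact hv.2.le)
      rwa [nsmul_eq_mul] at h
    have a2 : (V0.card : ℝ) * L.card ≤ ∑ v ∈ V0, ((MrGC.nb Gᶜ L v).card : ℝ) +
        ∑ b, ∑ v ∈ V0, ((GCQ.tr G (u b) v).card : ℝ) + L.card := by
      have h1 : ∀ v ∈ V0, (L.card : ℝ) ≤ ((MrGC.nb Gᶜ L v).card : ℝ) +
          ∑ b, ((GCQ.tr G (u b) v).card : ℝ) + (if v ∈ L then 1 else 0) := by
        intro v _
        have h := degl_nb G u L hL v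
        have h' : ((L.card : ℕ) : ℝ) ≤ (((MrGC.nb Gᶜ L v).card +
          ∑ b, (GCQ.tr G (u b) v).card + (if v ∈ L then 1 else 0) : ℕ) : ℝ) := by exact_mod_cast h
        push_cast at h'
        exact h'
      have h2 := Finset.sum_le_sum h1
      rw [Finset.sum_const, nsmul_eq_mul, Finset.sum_add_distrib, Finset.sum_add_distrib,
        Finset.sum_comm (s := V0)] at h2
      have h3 : ∑ v ∈ V0, (if v ∈ L then (1 : ℝ) else 0) ≤ L.card := by
        rw [← Finset.sum_filter, Finset.sum_const, nsmul_eq_mul, mul_one]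
        have h4 : V0.filter (fun v => v ∈ L) ⊆ L := fun v hv => (Finset.mem_filter.1 hv).2
        exact_mod_cast Finset.card_le_card h4
      linarith
    have a3 : ∑ b, ∑ v ∈ V0, ((GCQ.tr G (u b) v).card : ℝ) ≤
        L.card * ((∑ v ∈ V0, (GCQ.dg G v : ℝ)) / n + ζ * n) := by
      have h1 := Finset.sum_le_sum (s := (univ : Finset (Fin B))) fun b _ => hu b V0
      rw [Finset.sum_const, card_univ, Fintype.card_fin, nsmul_eq_mul] at h1
      refine h1.trans (le_of_eq ?_)
      rw [hLc]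
      ring
    have a4 : κ * n * (V0.card - τ * n) ≤ n * V0.card - ∑ v ∈ V0, (GCQ.dg G v : ℝ) := by
      have h1 : n * (V0.card : ℝ) - ∑ v ∈ V0, (GCQ.dg G v : ℝ) =
          ∑ v ∈ V0, ((n : ℝ) - GCQ.dg G v) := by
        rw [Finset.sum_sub_distrib, Finset.sum_const, nsmul_eq_mul]
        ring
      have h2 : ∀ v, (GCQ.dg Gᶜ v : ℝ) ≤ (n : ℝ) - GCQ.dg G v := by
        intro v
        have h := degl_dg G v
        have h' : ((GCQ.dg Gᶜ v : ℕ) : ℝ) + ((GCQ.dg G v : ℕ) : ℝ) ≤ (n : ℝ) := by exact_mod_cast h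
        linarith
      have h3 : ∑ v ∈ V0, ((n : ℝ) - GCQ.dg G v) ≥
          ∑ v ∈ V0.filter (fun v => ¬ (GCQ.dg Gᶜ v : ℝ) < κ * n), ((n : ℝ) - GCQ.dg G v) := by
        refine Finset.sum_le_sum_of_subset_of_nonneg (Finset.filter_subset _ _) ?_
        intro v _ _
        exact le_trans (Nat.cast_nonneg _) (h2 v)
      have h4 : ((V0.filter (fun v => ¬ (GCQ.dg Gᶜ v : ℝ) < κ * n)).card : ℝ) * (κ * n) ≤
          ∑ v ∈ V0.filter (fun v => ¬ (GCQ.dg Gᶜ v : ℝ) < κ * n), ((n : ℝ) - GCQ.dg G v) := by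
        have h := Finset.card_nsmul_le_sum (V0.filter (fun v => ¬ (GCQ.dg Gᶜ v : ℝ) < κ * n))
          (fun v => (n : ℝ) - GCQ.dg G v) (κ * n) (fun v hv => by
            rw [Finset.mem_filter, not_lt] at hv
            exact hv.2.trans (h2 v))
        rwa [nsmul_eq_mul] at h
      have h5 : (V0.card : ℝ) ≤ ((V0.filter (fun v => ¬ (GCQ.dg Gᶜ v : ℝ) < κ * n)).card : ℝ) +
          τ * n := by
        have h6 : (V0.filter (fun v => (GCQ.dg Gᶜ v : ℝ) < κ * n)).card +
          (V0.filter (fun v => ¬ (GCQ.dg Gᶜ v : ℝ) < κ * n)).card = V0.card :=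
          Finset.card_filter_add_card_filter_not _
        have h7 : (V0.filter (fun v => (GCQ.dg Gᶜ v : ℝ) < κ * n)).card ≤
            (univ.filter (fun v => (GCQ.dg Gᶜ v : ℝ) < κ * n)).card :=
          Finset.card_le_card (Finset.filter_subset_filter _ (Finset.subset_univ _))
        have h8 : ((V0.filter (fun v => (GCQ.dg Gᶜ v : ℝ) < κ * n)).card : ℝ) ≤ τ * n := by
          refine le_trans ?_ hdeg
          exact_mod_cast h7
        have h9 : (V0.card : ℝ) = ((V0.filter (fun v => (GCQ.dg Gᶜ v : ℝ) < κ * n)).card : ℝ) +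
          ((V0.filter (fun v => ¬ (GCQ.dg Gᶜ v : ℝ) < κ * n)).card : ℝ) := by
          exact_mod_cast h6.symm
        linarith
      have h10 : 0 < κ * n := by positivity
      have h11 := mul_le_mul_of_nonneg_right h5 h10.le
      rw [h1]
      nlinarith
    -- combine
    have b1 : (V0.card : ℝ) * L.card ≤ V0.card * (κ / 2 * L.card) +
        L.card * ((∑ v ∈ V0, (GCQ.dg G v : ℝ)) / n + ζ * n) + L.card := by linarith
    have b2 : (V0.card : ℝ) ≤ V0.card * (κ / 2) +
        ((∑ v ∈ V0, (GCQ.dg G v : ℝ)) / n + ζ * n) + 1 := by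
      have h : (V0.card : ℝ) * L.card ≤ (V0.card * (κ / 2) +
        ((∑ v ∈ V0, (GCQ.dg G v : ℝ)) / n + ζ * n) + 1) * L.card := by
        refine b1.trans (le_of_eq ?_)
        ring
      exact le_of_mul_le_mul_right h hLr
    have b3 : (∑ v ∈ V0, (GCQ.dg G v : ℝ)) / n ≤ V0.card - κ * (V0.card - τ * n) := by
      rw [div_le_iff₀ hnr]
      nlinarith
    have b4 : κ / 2 * V0.card ≤ κ * (τ * n) + ζ * n + 1 := by nlinarith
    have b5 : (V0.card : ℝ) ≤ (κ * (τ * n) + ζ * n + 1) / (κ / 2) := by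
      rw [le_div_iff₀ (by positivity)]
      linarith
    refine b5.trans (le_of_eq ?_)
    field_simp

end GCU
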