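import Pool.Agent.GCU.Defs

/-!
# GCU-DegV2: a vertex of small back degree

PLAN. If some `v ∈ S` is in none of the two exceptional sets then `nb Gᶜ S v` and `nb Gᶜ L v` are disjoint (`S`, `L` are disjoint) and their sizes sum up to at most `dg Gᶜ v ≤ D'`, so `|nb Gᶜ S v| ≤ D' - g0 |L|`. Otherwise `|S| ≤ τ n + σ n` and any `v ∈ S` works (`|nb Gᶜ S v| ≤ |S|`).
-/

set_option autoImplicit false

open Finset

namespace GCU

private theorem nb_sum {n : ℕ} (Ω : SimpleGraph (Fin n)) {S L : Finset (Fin n)}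
    (hSL : Disjoint S L) (v : Fin n) :
    (MrGC.nb Ω S v).card + (MrGC.nb Ω L v).card ≤ GCQ.dg Ω v := by
  classical
  unfold MrGC.nb GCQ.dg
  rw [← card_union_of_disjoint (disjoint_filter_filter hSL)]
  refine card_le_card ?_
  intro w hw
  rw [mem_union, mem_filter, mem_filter] at hw
  rw [mem_filter]
  rcases hw with hw | hw
  · exact ⟨mem_univ _, hw.2⟩
  · exact ⟨mem_univ _, hw.2⟩

private theorem nb_le {n : ℕ} (Ω : SimpleGraph (Fin n)) (S : Finset (Fin n)) (v : Fin n) :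
    (MrGC.nb Ω S v).card ≤ S.card := by
  classical
  unfold MrGC.nb
  exact card_filter_le _ _

open Classical in
theorem degV2 {n : ℕ} (G : SimpleGraph (Fin n)) (g0 σ τ : ℝ) (L : Finset (Fin n)) (D' : ℕ)
    (hD : ((univ.filter (fun v => D' < GCQ.dg Gᶜ v)).card : ℝ) ≤ τ * n)
    (hL : ((univ.filter (fun v => ((MrGC.nb Gᶜ L v).card : ℝ) < g0 * L.card)).card : ℝ) ≤ σ * n)
    (S : Finset (Fin n)) (hS : S.Nonempty) (hSL : Disjoint S L) :
    ∃ v ∈ S, ((MrGC.nb Gᶜ S v).card : ℝ) ≤ max (D' - g0 * L.card) ((τ + σ) * n) := by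
  by_cases hex : ∃ v ∈ S, ¬ D' < GCQ.dg Gᶜ v ∧ ¬ ((MrGC.nb Gᶜ L v).card : ℝ) < g0 * L.card
  · obtain ⟨v, hv, h1, h2⟩ := hex
    refine ⟨v, hv, le_trans ?_ (le_max_left _ _)⟩
    push Not at h1 h2
    have h3 := nb_sum Gᶜ hSL v
    have h4 : ((MrGC.nb Gᶜ S v).card : ℝ) + (MrGC.nb Gᶜ L v).card ≤ D' := by
      exact_mod_cast h3.trans h1
    linarith
  · push Not at hex
    obtain ⟨v, hv⟩ := hS
    refine ⟨v, hv, le_trans ?_ (le_max_right _ _)⟩
    have h1 : S ⊆ univ.filter (fun v => D' < GCQ.dg Gᶜ v) ∪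
        univ.filter (fun v => ((MrGC.nb Gᶜ L v).card : ℝ) < g0 * L.card) := by
      intro w hw
      rw [mem_union, mem_filter, mem_filter]
      by_cases h : D' < GCQ.dg Gᶜ w
      · exact Or.inl ⟨mem_univ _, h⟩
      · push Not at h
        exact Or.inr ⟨mem_univ _, hex w hw h⟩
    have h2 : (S.card : ℝ) ≤ ((univ.filter (fun v => D' < GCQ.dg Gᶜ v)).card : ℝ) +
        ((univ.filter (fun v => ((MrGC.nb Gᶜ L v).card : ℝ) < g0 * L.card)).card : ℝ) := by
      exact_mod_cast (card_le_card h1).trans (card_union_le _ _)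
    have h3 : ((MrGC.nb Gᶜ S v).card : ℝ) ≤ S.card := by
      exact_mod_cast nb_le Gᶜ S v
    linarith

end GCU
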