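import Pool.Agent.GCU.Defs
import Pool.Agent.GCP.Deg

/-!
# GCU-DichR: either the degeneracies have a small sum or the graph is nearly regular

PLAN. This is `GCQ.dich` (`Pool/Agent/GCQ/Dich.lean`, copy its private lemmas) for graphs without holes. Put `γ8 = min (γ (1 / 32)) (1 / 2)` and `κ = γ8 / 8`. Given `τ`, `η` (WLOG `τ ≤ 1`): `δ1 = γ8 / 16`, `σc = min δ1 (τ / 2)`, `γc = min (γ σc) 1`, `c1 = min (γ8 / 16) (min (γc * τ / 4) (η / 4))`, `σ0 = min (1 / 32) σc`, `n0` large.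
`D1, S1` for `G` and `D2, S2` for `Gᶜ` as in `GCQ.dich`; suppose `D1 + D2 > (1 - c1) n`. (a) If `|S1| ≥ n / 8` then `D1 ≤ (1 - γ8 / 2) |S1| + 1`: split `S1` into two halves `A, A'` (both at least `n / 32`), `NoHole Gᶜ` at `σ = 1 / 32`: `edg Gᶜ A A' ≥ γ8 |A| |A'|`, so some `v ∈ A` has at least `γ8 |A'|` non-neighbours in `A'`.
If `|S1| < n / 8` then only `D1 ≤ |S1|`. The same for `D2, S2`. (b) `|S1 ∩ S2| ≥ δ1 n`: otherwise `|S1| + |S2| ≤ (1 + δ1) n`; if both have at least `n / 8` elements then `D1 + D2 ≤ (1 - γ8 / 2)(1 + δ1) n + 2 < (1 - c1) n`; if `|S1| < n / 8` then `|S2| ≥ D2 > (1 - c1) n - n / 8 ≥ n / 2`,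
`D1 + D2 ≤ |S1| + |S2| - (γ8 / 2) |S2| + 1 ≤ (1 + δ1) n - γ8 n / 4 + 1 < (1 - c1) n` (`δ1 + c1 ≤ γ8 / 8 < γ8 / 4`); symmetric. (c) `|univ \ S1| ≤ (τ / 2) n` and `|univ \ S2| ≤ (τ / 2) n`: otherwise `NoHole` at `σc` for `S1 ∩ S2` and `univ \ S1`: some `v ∈ S1 ∩ S2` has at least `γc (τ / 2) n` neighbours outside `S1` and
`D1 + D2 ≤ dg G v + dg Gᶜ v - γc τ n / 2 ≤ (1 - c1) n`. (d) As in `GCQ.dich`: `D = ⌈D1 + c1 n⌉₊`, `D' = ⌈D2 + c1 n⌉₊`, the exceptional vertices are outside `S1 ∩ S2`, at most `τ n`; `D + D' ≤ n + 2 c1 n + 2 ≤ (1 + η) n`. (e) `D1 ≤ (1 - γ8 / 2) n + 1` in all cases, so `D ≤ (1 - γ8 / 2) n + c1 n + 2 ≤ (1 - κ) n` and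
`D2 > (1 - c1) n - D1 ≥ (γ8 / 2 - c1) n - 1 ≥ κ n`; the same with the roles exchanged.
-/

set_option autoImplicit false

open Finset

namespace GCU

private theorem mem_nbD {n : ℕ} {Ω : SimpleGraph (Fin n)} {S : Finset (Fin n)} {v u : Fin n} :
    u ∈ MrGC.nb Ω S v ↔ u ∈ S ∧ Ω.Adj v u := by
  classical
  simp [MrGC.nb]

/-- the least degeneracy with a witness -/
private theorem exists_minD {n : ℕ} (hn : 0 < n) (Ω : SimpleGraph (Fin n)) :
    ∃ D : ℕ, GCP.Degen Ω D ∧ ∃ S : Finset (Fin n), S.Nonempty ∧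
      ∀ v ∈ S, D ≤ (MrGC.nb Ω S v).card := by
  classical
  have hex : ∃ D, GCP.Degen Ω D := by
    refine ⟨n, fun S hS => ?_⟩
    obtain ⟨v, hv⟩ := hS
    exact ⟨v, hv, (card_le_univ _).trans (by simp)⟩
  obtain ⟨D, hD, hmin⟩ : ∃ D, GCP.Degen Ω D ∧ ∀ D' < D, ¬ GCP.Degen Ω D' :=
    ⟨Nat.find hex, Nat.find_spec hex, fun _ h => Nat.find_min hex h⟩
  refine ⟨D, hD, ?_⟩
  rcases Nat.eq_zero_or_pos D with h0 | h0
  · refine ⟨univ, ⟨⟨0, hn⟩, mem_univ _⟩, fun v _ => ?_⟩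
    rw [h0]
    exact Nat.zero_le _
  · have hm : ¬ GCP.Degen Ω (D - 1) := hmin (D - 1) (by omega)
    unfold GCP.Degen at hm
    push Not at hm
    obtain ⟨S, hS, h⟩ := hm
    refine ⟨S, hS, fun v hv => ?_⟩
    have := h v hv
    omega

private theorem edg_sum {n : ℕ} (G : SimpleGraph (Fin n)) (X Y : Finset (Fin n)) :
    GCP.edg G X Y = ∑ v ∈ X, (MrGC.nb G Y v).card := by
  classical
  unfold GCP.edg
  rw [card_filter, sum_product]
  refine sum_congr rfl fun v _ => ?_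
  have h : MrGC.nb G Y v = Y.filter (fun w => G.Adj v w) := by
    ext u
    rw [mem_nbD, mem_filter]
  rw [h, card_filter]

private theorem nb_compl {n : ℕ} (G : SimpleGraph (Fin n)) (Y : Finset (Fin n)) (v : Fin n)
    (hv : v ∉ Y) : (MrGC.nb G Y v).card + (MrGC.nb Gᶜ Y v).card = Y.card := by
  classical
  rw [← card_union_of_disjoint]
  · congr 1
    ext u
    rw [mem_union, mem_nbD, mem_nbD, SimpleGraph.compl_adj]
    constructor
    · rintro (h | h)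
      · exact h.1
      · exact h.1
    · intro h
      by_cases h1 : G.Adj v u
      · exact Or.inl ⟨h, h1⟩
      · exact Or.inr ⟨h, fun h2 => hv (h2 ▸ h), h1⟩
  · rw [disjoint_left]
    intro u hu hu'
    rw [mem_nbD] at hu hu'
    exact ((SimpleGraph.compl_adj G v u).1 hu'.2).2 hu.2

private theorem edg_compl {n : ℕ} (G : SimpleGraph (Fin n)) (X Y : Finset (Fin n))
    (h : Disjoint X Y) : GCP.edg G X Y + GCP.edg Gᶜ X Y = X.card * Y.card := by
  rw [edg_sum, edg_sum, ← sum_add_distrib]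
  rw [sum_congr rfl (fun v hv => nb_compl G Y v (disjoint_left.1 h hv)), sum_const, smul_eq_mul]

private theorem dg_eq {n : ℕ} (G : SimpleGraph (Fin n)) (S : Finset (Fin n)) (v : Fin n) :
    (MrGC.nb G S v).card + (MrGC.nb G (univ \ S) v).card = GCQ.dg G v := by
  classical
  unfold GCQ.dg
  rw [← card_union_of_disjoint]
  · congr 1
    ext u
    rw [mem_union, mem_nbD, mem_nbD, mem_filter, mem_sdiff]
    constructor
    · rintro (h | h)
      · exact ⟨mem_univ _, h.2⟩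
      · exact ⟨mem_univ _, h.2⟩
    · rintro ⟨_, h⟩
      by_cases h1 : u ∈ S
      · exact Or.inl ⟨h1, h⟩
      · exact Or.inr ⟨⟨mem_univ _, h1⟩, h⟩
  · rw [disjoint_left]
    intro u hu hu'
    rw [mem_nbD] at hu hu'
    exact (mem_sdiff.1 hu'.1).2 hu.1

private theorem dg_compl {n : ℕ} (G : SimpleGraph (Fin n)) (v : Fin n) :
    GCQ.dg G v + GCQ.dg Gᶜ v + 1 = n := by
  classical
  have h1 := nb_compl G (univ.erase v) v (notMem_erase v univ)
  have h2 : ∀ H : SimpleGraph (Fin n), (MrGC.nb H (univ.erase v) v).card = GCQ.dg H v := by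
    intro H
    unfold GCQ.dg
    congr 1
    ext u
    rw [mem_nbD, mem_filter, mem_erase]
    constructor
    · rintro ⟨_, h⟩
      exact ⟨mem_univ _, h⟩
    · rintro ⟨_, h⟩
      exact ⟨⟨fun h3 => H.irrefl (h3 ▸ h), mem_univ _⟩, h⟩
  rw [h2, h2, card_erase_of_mem (mem_univ v), card_univ, Fintype.card_fin] at h1
  have : 0 < n := v.pos
  omega

private theorem nb_le {n : ℕ} (G : SimpleGraph (Fin n)) (S : Finset (Fin n)) (v : Fin n) :
    (MrGC.nb G S v).card ≤ S.card :=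
  card_le_card (fun u hu => (mem_nbD.1 hu).1)

/-- step (a) -/
private theorem step_a {n : ℕ} (G : SimpleGraph (Fin n)) (g : ℝ) (hg : 0 < g) (hg1 : g ≤ 1 / 2)
    (hn : (16 : ℝ) ≤ n)
    (hG : ∀ X Y : Finset (Fin n), Disjoint X Y → 1 / 32 * (n : ℝ) ≤ X.card →
      1 / 32 * (n : ℝ) ≤ Y.card → g * (X.card * Y.card) ≤ GCP.edg Gᶜ X Y)
    (S : Finset (Fin n)) (D : ℕ)
    (hD : ∀ v ∈ S, D ≤ (MrGC.nb G S v).card) (hS : (n : ℝ) / 8 ≤ S.card) :
    (D : ℝ) ≤ (1 - g / 2) * S.card := by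
  classical
  obtain ⟨A, hAS, hA⟩ := exists_subset_card_eq (s := S) (n := S.card / 2) (Nat.div_le_self _ _)
  have hA' : (S \ A).card = S.card - S.card / 2 := by
    rw [card_sdiff_of_subset hAS, hA]
  have k1 : (S.card : ℝ) ≤ 2 * A.card + 1 := by
    rw [hA]
    have : S.card ≤ 2 * (S.card / 2) + 1 := by omega
    exact_mod_cast this
  have k2 : (S.card : ℝ) ≤ 2 * (S \ A).card := by
    rw [hA']
    have : S.card ≤ 2 * (S.card - S.card / 2) := by omega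
    exact_mod_cast this
  have k3 : (A.card : ℝ) + (S \ A).card = S.card := by
    rw [hA, hA']
    have : S.card / 2 + (S.card - S.card / 2) = S.card := by omega
    exact_mod_cast this
  have h2 := hG A (S \ A) disjoint_sdiff (by linarith) (by linarith)
  have hAne : A.Nonempty := by
    rw [← card_pos]
    have : (0 : ℝ) < A.card := by linarith
    exact_mod_cast this
  obtain ⟨v, hvA, hv⟩ : ∃ v ∈ A, g * ((S \ A).card : ℝ) ≤ ((MrGC.nb Gᶜ (S \ A) v).card : ℝ) := by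
    by_contra hcon
    push Not at hcon
    have h3 : ∑ v ∈ A, ((MrGC.nb Gᶜ (S \ A) v).card : ℝ) < ∑ _v ∈ A, g * ((S \ A).card : ℝ) :=
      sum_lt_sum_of_nonempty hAne (fun v hv => hcon v hv)
    rw [sum_const, nsmul_eq_mul] at h3
    rw [edg_sum] at h2
    push_cast at h2
    nlinarith
  have h8 := nb_compl G (S \ A) v (fun h => (mem_sdiff.1 h).2 hvA)
  have h8' : ((MrGC.nb G (S \ A) v).card : ℝ) + (MrGC.nb Gᶜ (S \ A) v).card = (S \ A).card := by
    exact_mod_cast h8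
  have h4 : (MrGC.nb G S v).card ≤ A.card + (MrGC.nb G (S \ A) v).card := by
    have h5 : MrGC.nb G S v ⊆ A ∪ MrGC.nb G (S \ A) v := by
      intro u hu
      rw [mem_union]
      rw [mem_nbD] at hu
      by_cases hu1 : u ∈ A
      · exact Or.inl hu1
      · exact Or.inr (mem_nbD.2 ⟨mem_sdiff.2 ⟨hu.1, hu1⟩, hu.2⟩)
    exact (card_le_card h5).trans (card_union_le _ _)
  have h6 : (D : ℝ) ≤ A.card + (MrGC.nb G (S \ A) v).card := by
    exact_mod_cast (hD v (hAS hvA)).trans h4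
  have h7 : g * (S.card : ℝ) ≤ g * (2 * (S \ A).card) := mul_le_mul_of_nonneg_left k2 hg.le
  linarith

/-- step (c) -/
private theorem step_c {n : ℕ} (G : SimpleGraph (Fin n)) (g τ : ℝ) (hg : 0 < g)
    (hτ : 0 < τ) (hn : 0 < n) (S T1 T2 : Finset (Fin n))
    (hSne : S.Nonempty) (hST1 : S ⊆ T1) (hST2 : S ⊆ T2) (D1 D2 : ℕ)
    (hD1 : ∀ v ∈ T1, D1 ≤ (MrGC.nb G T1 v).card) (hD2 : ∀ v ∈ T2, D2 ≤ (MrGC.nb Gᶜ T2 v).card)
    (hedge : Disjoint S (univ \ T1) → τ / 2 * n < ((univ \ T1).card : ℝ) →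
      g * ((S.card : ℝ) * (univ \ T1).card) ≤ GCP.edg G S (univ \ T1))
    (hD : (1 - g * τ / 4) * n < (D1 : ℝ) + D2) :
    ((univ \ T1).card : ℝ) ≤ τ / 2 * n := by
  classical
  by_contra hcon
  push Not at hcon
  have hn' : (0 : ℝ) < n := by exact_mod_cast hn
  have hdis : Disjoint S (univ \ T1) := by
    rw [disjoint_left]
    intro u hu hu'
    exact (mem_sdiff.1 hu').2 (hST1 hu)
  have h1 := hedge hdis hcon
  obtain ⟨v, hvS, hv⟩ : ∃ v ∈ S, g * ((univ \ T1).card : ℝ) ≤ (MrGC.nb G (univ \ T1) v).card := by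
    by_contra hcon2
    push Not at hcon2
    have h3 : ∑ v ∈ S, ((MrGC.nb G (univ \ T1) v).card : ℝ) < ∑ _v ∈ S, g * ((univ \ T1).card : ℝ) :=
      sum_lt_sum_of_nonempty hSne (fun v hv => hcon2 v hv)
    rw [sum_const, nsmul_eq_mul] at h3
    rw [edg_sum] at h1
    push_cast at h1
    nlinarith
  have h2 := dg_eq G T1 v
  have h3 := dg_eq Gᶜ T2 v
  have h4 := dg_compl G v
  have h5 := hD1 v (hST1 hvS)
  have h6 := hD2 v (hST2 hvS)
  have h7 : D1 + D2 + (MrGC.nb G (univ \ T1) v).card + 1 ≤ n := by omega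
  have h8 : (D1 : ℝ) + D2 + (MrGC.nb G (univ \ T1) v).card + 1 ≤ n := by exact_mod_cast h7
  have h9 : g * (τ / 2 * n) < g * ((univ \ T1).card : ℝ) := mul_lt_mul_of_pos_left hcon hg
  have h10 : 0 < g * τ * n := by positivity
  nlinarith

open Classical in
theorem dichR (γ : ℝ → ℝ) (hγ : ∀ σ, 0 < σ → 0 < γ σ) : ∃ κ : ℝ, 0 < κ ∧ κ ≤ 1 / 8 ∧
    ∀ τ η : ℝ, 0 < τ → 0 < η →
    ∃ c1 σ0 : ℝ, 0 < c1 ∧ 0 < σ0 ∧ ∃ n0 : ℕ, ∀ n ≥ n0, ∀ G : SimpleGraph (Fin n),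
      GCR.NoHole G γ σ0 → GCR.NoHole Gᶜ γ σ0 →
      (∃ D D' : ℕ, GCP.Degen G D ∧ GCP.Degen Gᶜ D' ∧ D + D' + 1 ≤ n ∧ (D : ℝ) + D' ≤ (1 - c1) * n) ∨
      (∃ D D' : ℕ, (D : ℝ) + D' ≤ (1 + η) * n ∧ (D : ℝ) ≤ (1 - κ) * n ∧
        (D' : ℝ) ≤ (1 - κ) * n ∧ κ * n ≤ D ∧ κ * n ≤ D' ∧
        ((univ.filter (fun v => D < GCQ.dg G v)).card : ℝ) ≤ τ * n ∧
        ((univ.filter (fun v => D' < GCQ.dg Gᶜ v)).card : ℝ) ≤ τ * n) := by
  obtain ⟨g8, hg8e⟩ : ∃ g8, g8 = min (γ (1 / 32)) (1 / 2) := ⟨_, rfl⟩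
  have hg8 : 0 < g8 := by rw [hg8e]; exact lt_min (hγ _ (by norm_num)) (by norm_num)
  have hg8a : g8 ≤ γ (1 / 32) := by rw [hg8e]; exact min_le_left _ _
  have hg8b : g8 ≤ 1 / 2 := by rw [hg8e]; exact min_le_right _ _
  refine ⟨g8 / 8, by positivity, by linarith, ?_⟩
  intro τ η hτ hη
  obtain ⟨σc, hσc, hσc1, hσc2⟩ : ∃ σc : ℝ, 0 < σc ∧ σc ≤ g8 / 16 ∧ σc ≤ τ / 2 :=
    ⟨min (g8 / 16) (τ / 2), by positivity, min_le_left _ _, min_le_right _ _⟩
  obtain ⟨gc, hgc, hgc1⟩ : ∃ gc : ℝ, 0 < gc ∧ gc ≤ γ σc := ⟨γ σc, hγ _ hσc, le_refl _⟩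
  obtain ⟨c1, hc1, hc1a, hc1b, hc1c⟩ : ∃ c1 : ℝ, 0 < c1 ∧ c1 ≤ g8 / 16 ∧ c1 ≤ gc * τ / 4 ∧ c1 ≤ η / 4 :=
    ⟨min (g8 / 16) (min (gc * τ / 4) (η / 4)), by positivity, min_le_left _ _,
      (min_le_right _ _).trans (min_le_left _ _), (min_le_right _ _).trans (min_le_right _ _)⟩
  refine ⟨c1, min (1 / 32) σc, hc1, lt_min (by norm_num) hσc,
    ⌈2 / η⌉₊ + ⌈8 / g8⌉₊ + 17, ?_⟩
  intro n hn G hG hGc
  have hn0 : 0 < n := by omega
  have hn' : (0 : ℝ) < n := by exact_mod_cast hn0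
  have hn16 : (16 : ℝ) ≤ n := by exact_mod_cast (by omega : 16 ≤ n)
  have hηn : 2 ≤ η * n := by
    have h1 : 2 / η ≤ n := (Nat.le_ceil _).trans (by exact_mod_cast (by omega : ⌈2 / η⌉₊ ≤ n))
    rw [div_le_iff₀ hη] at h1
    linarith
  have hγn : 8 ≤ g8 * n := by
    have h1 : 8 / g8 ≤ n := (Nat.le_ceil _).trans (by exact_mod_cast (by omega : ⌈8 / g8⌉₊ ≤ n))
    rw [div_le_iff₀ hg8] at h1
    linarith
  obtain ⟨D1, hdeg1, S1, hS1, hD1⟩ := exists_minD hn0 G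
  obtain ⟨D2, hdeg2, S2, hS2, hD2⟩ := exists_minD hn0 Gᶜ
  have hsum : D1 + D2 + 1 ≤ n := by
    obtain ⟨E, E', hE, hE1, hE2⟩ := GCP.degen_sum hn0 G
    obtain ⟨v, hv, hv1⟩ := hE1 S1 hS1
    obtain ⟨w, hw, hw1⟩ := hE2 S2 hS2
    have := hD1 v hv
    have := hD2 w hw
    omega
  by_cases hcase : (D1 : ℝ) + D2 ≤ (1 - c1) * n
  · exact Or.inl ⟨D1, D2, hdeg1, hdeg2, hsum, hcase⟩
  · push Not at hcase
    right
    have hsum' : (D1 : ℝ) + D2 + 1 ≤ n := by exact_mod_cast hsum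
    have hcc : Gᶜᶜ = G := compl_compl G
    have e1 : ∀ H : SimpleGraph (Fin n), GCR.NoHole H γ (min (1 / 32) σc) →
        ∀ X Y : Finset (Fin n), Disjoint X Y → 1 / 32 * (n : ℝ) ≤ X.card → 1 / 32 * (n : ℝ) ≤ Y.card →
        g8 * (X.card * Y.card) ≤ GCP.edg H X Y := by
      intro H hH X Y hXY hX hY
      have h1 := hH (1 / 32) (min_le_left _ _) X Y hXY hX hY
      have h2 : g8 * ((X.card : ℝ) * Y.card) ≤ γ (1 / 32) * (X.card * Y.card) :=
        mul_le_mul_of_nonneg_right hg8a (by positivity)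
      linarith
    have e2 : ∀ H : SimpleGraph (Fin n), GCR.NoHole H γ (min (1 / 32) σc) →
        ∀ X Y : Finset (Fin n), Disjoint X Y → σc * (n : ℝ) ≤ X.card → σc * (n : ℝ) ≤ Y.card →
        gc * (X.card * Y.card) ≤ GCP.edg H X Y := by
      intro H hH X Y hXY hX hY
      have h1 := hH σc (min_le_right _ _) X Y hXY hX hY
      have h2 : gc * ((X.card : ℝ) * Y.card) ≤ γ σc * (X.card * Y.card) :=
        mul_le_mul_of_nonneg_right hgc1 (by positivity)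
      linarith
    have a1 := step_a G g8 hg8 hg8b hn16 (e1 _ hGc) S1 D1 hD1
    have a2 := step_a Gᶜ g8 hg8 hg8b hn16 (by rw [hcc]; exact e1 _ hG) S2 D2 hD2
    have b1 : (S1.card : ℝ) ≤ n := by
      have : S1.card ≤ n := (card_le_univ _).trans (by simp)
      exact_mod_cast this
    have b2 : (S2.card : ℝ) ≤ n := by
      have : S2.card ≤ n := (card_le_univ _).trans (by simp)
      exact_mod_cast this
    have t1 : (D1 : ℝ) ≤ S1.card := by
      obtain ⟨v, hv⟩ := hS1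
      exact_mod_cast (hD1 v hv).trans (nb_le G S1 v)
    have t2 : (D2 : ℝ) ≤ S2.card := by
      obtain ⟨v, hv⟩ := hS2
      exact_mod_cast (hD2 v hv).trans (nb_le Gᶜ S2 v)
    have m1 : c1 * n ≤ g8 / 16 * n := mul_le_mul_of_nonneg_right hc1a hn'.le
    have m2 : c1 * n ≤ gc * τ / 4 * n := mul_le_mul_of_nonneg_right hc1b hn'.le
    have m3 : c1 * n ≤ η / 4 * n := mul_le_mul_of_nonneg_right hc1c hn'.le
    have m5 : g8 * n ≤ 1 / 2 * n := mul_le_mul_of_nonneg_right hg8b hn'.le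
    have hb : g8 / 16 * n ≤ (S1 ∩ S2).card := by
      by_contra hcon
      push Not at hcon
      have h1 : (S1.card : ℝ) + S2.card ≤ n + (S1 ∩ S2).card := by
        have h2 := card_union_add_card_inter S1 S2
        have h3 : (S1 ∪ S2).card ≤ n := (card_le_univ _).trans (by simp)
        have h4 : S1.card + S2.card ≤ n + (S1 ∩ S2).card := by omega
        exact_mod_cast h4
      by_cases k1 : (n : ℝ) / 8 ≤ S1.card
      · by_cases k2 : (n : ℝ) / 8 ≤ S2.card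
        · have a1' := a1 k1
          have a2' := a2 k2
          have h5 : (1 - g8 / 2) * ((S1.card : ℝ) + S2.card) ≤ (1 - g8 / 2) * (n + g8 / 16 * n) :=
            mul_le_mul_of_nonneg_left (by linarith) (by linarith)
          have h6 : 0 < g8 * g8 * n := by positivity
          nlinarith
        · push Not at k2
          have a1' := a1 k1
          have h7 : (n : ℝ) / 2 ≤ S1.card := by linarith
          have h8 : g8 / 2 * ((n : ℝ) / 2) ≤ g8 / 2 * S1.card :=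
            mul_le_mul_of_nonneg_left h7 (by linarith)
          nlinarith
      · push Not at k1
        have h7 : (n : ℝ) / 2 ≤ S2.card := by linarith
        have a2' := a2 (by linarith)
        have h8 : g8 / 2 * ((n : ℝ) / 2) ≤ g8 / 2 * S2.card :=
          mul_le_mul_of_nonneg_left h7 (by linarith)
        nlinarith
    have hSne : (S1 ∩ S2).Nonempty := by
      rw [← card_pos]
      have : (0 : ℝ) < (S1 ∩ S2).card := by linarith
      exact_mod_cast this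
    have hbσ : σc * n ≤ (S1 ∩ S2).card :=
      (mul_le_mul_of_nonneg_right hσc1 hn'.le).trans hb
    have hlow : (1 - gc * τ / 4) * n < (D1 : ℝ) + D2 := by linarith
    have hτσ : σc * n ≤ τ / 2 * n := mul_le_mul_of_nonneg_right hσc2 hn'.le
    have c1' := step_c G gc τ hgc hτ hn0 (S1 ∩ S2) S1 S2 hSne inter_subset_left
      inter_subset_right D1 D2 hD1 hD2
      (fun hdis hbig => e2 _ hG _ _ hdis hbσ (by linarith)) hlow
    have c2' := step_c Gᶜ gc τ hgc hτ hn0 (S1 ∩ S2) S2 S1 hSne inter_subset_right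
      inter_subset_left D2 D1 hD2 (by rw [compl_compl]; exact hD1)
      (fun hdis hbig => e2 _ hGc _ _ hdis hbσ (by linarith)) (by linarith)
    have hout : ((univ \ (S1 ∩ S2)).card : ℝ) ≤ τ * n := by
      have h1 : (univ \ (S1 ∩ S2)) ⊆ (univ \ S1) ∪ (univ \ S2) := by
        intro u hu
        rw [mem_sdiff, mem_inter] at hu
        rw [mem_union, mem_sdiff, mem_sdiff]
        by_cases h2 : u ∈ S1
        · exact Or.inr ⟨mem_univ _, fun h3 => hu.2 ⟨h2, h3⟩⟩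
        · exact Or.inl ⟨mem_univ _, h2⟩
      have h2 : ((univ \ (S1 ∩ S2)).card : ℝ) ≤ (univ \ S1).card + (univ \ S2).card := by
        exact_mod_cast (card_le_card h1).trans (card_union_le _ _)
      linarith
    have hc1n : 0 < c1 * n := by positivity
    have e1 : (D1 : ℝ) + c1 * n ≤ ⌈(D1 : ℝ) + c1 * n⌉₊ := Nat.le_ceil _
    have e1' : (⌈(D1 : ℝ) + c1 * n⌉₊ : ℝ) < D1 + c1 * n + 1 :=
      Nat.ceil_lt_add_one (by positivity)
    have e2 : (D2 : ℝ) + c1 * n ≤ ⌈(D2 : ℝ) + c1 * n⌉₊ := Nat.le_ceil _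
    have e2' : (⌈(D2 : ℝ) + c1 * n⌉₊ : ℝ) < D2 + c1 * n + 1 :=
      Nat.ceil_lt_add_one (by positivity)
    have f1 : (D1 : ℝ) ≤ (1 - g8 / 2) * n := by
      by_cases k1 : (n : ℝ) / 8 ≤ S1.card
      · exact (a1 k1).trans (mul_le_mul_of_nonneg_left b1 (by linarith))
      · push Not at k1
        linarith
    have f2 : (D2 : ℝ) ≤ (1 - g8 / 2) * n := by
      by_cases k1 : (n : ℝ) / 8 ≤ S2.card
      · exact (a2 k1).trans (mul_le_mul_of_nonneg_left b2 (by linarith))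
      · push Not at k1
        linarith
    have g1 : ∀ v ∈ S1 ∩ S2, GCQ.dg G v ≤ ⌈(D1 : ℝ) + c1 * n⌉₊ := by
      intro v hv
      have h1 := dg_compl G v
      have h2 := hD2 v (mem_inter.1 hv).2
      have h3 := dg_eq Gᶜ S2 v
      have h4 : GCQ.dg G v + D2 + 1 ≤ n := by omega
      have h5 : (GCQ.dg G v : ℝ) + D2 + 1 ≤ n := by exact_mod_cast h4
      have h6 : (GCQ.dg G v : ℝ) ≤ ⌈(D1 : ℝ) + c1 * n⌉₊ := by linarith
      exact_mod_cast h6
    have g2 : ∀ v ∈ S1 ∩ S2, GCQ.dg Gᶜ v ≤ ⌈(D2 : ℝ) + c1 * n⌉₊ := by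
      intro v hv
      have h1 := dg_compl G v
      have h2 := hD1 v (mem_inter.1 hv).1
      have h3 := dg_eq G S1 v
      have h4 : GCQ.dg Gᶜ v + D1 + 1 ≤ n := by omega
      have h5 : (GCQ.dg Gᶜ v : ℝ) + D1 + 1 ≤ n := by exact_mod_cast h4
      have h6 : (GCQ.dg Gᶜ v : ℝ) ≤ ⌈(D2 : ℝ) + c1 * n⌉₊ := by linarith
      exact_mod_cast h6
    refine ⟨⌈(D1 : ℝ) + c1 * n⌉₊, ⌈(D2 : ℝ) + c1 * n⌉₊, by linarith, by linarith, by linarith,
      by linarith, by linarith, ?_, ?_⟩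
    · refine le_trans ?_ hout
      have h1 : (univ.filter (fun v => ⌈(D1 : ℝ) + c1 * n⌉₊ < GCQ.dg G v)) ⊆ univ \ (S1 ∩ S2) := by
        intro u hu
        rw [mem_filter] at hu
        rw [mem_sdiff]
        exact ⟨mem_univ _, fun h2 => absurd (g1 u h2) (by omega)⟩
      exact_mod_cast card_le_card h1
    · refine le_trans ?_ hout
      have h1 : (univ.filter (fun v => ⌈(D2 : ℝ) + c1 * n⌉₊ < GCQ.dg Gᶜ v)) ⊆ univ \ (S1 ∩ S2) := by
        intro u hu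
        rw [mem_filter] at hu
        rw [mem_sdiff]
        exact ⟨mem_univ _, fun h2 => absurd (g2 u h2) (by omega)⟩
      exact_mod_cast card_le_card h1

end GCU
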