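import Pool.Agent.GCR.Hit
import Pool.Agent.GCP.Pot
import Pool.Agent.GCU.Defs

/-!
# GCU-FamR: families of cliques with the hitting property (helper92)
-/

set_option autoImplicit false

open Finset

namespace GCU

open GCR

theorem NoHole_mono {n : ℕ} {G : SimpleGraph (Fin n)} {γ : ℝ → ℝ} {σ0 σ1 : ℝ} (h : NoHole G γ σ0)
    (hσ : σ0 ≤ σ1) : NoHole G γ σ1 := fun σ hs => h σ (hσ.trans hs)

open Classical in
/-- families of cliques such that every set with `e n` elements is missed by few of them -/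
theorem famR (γ : ℝ → ℝ) (hγ : ∀ σ, 0 < σ → 0 < γ σ) (e : ℝ) (he : 0 < e) (he1 : e ≤ 1) (L : ℕ) :
    ∃ σ0 : ℝ, 0 < σ0 ∧ ∃ n0 : ℕ, ∀ n ≥ n0, ∀ G : SimpleGraph (Fin n), NoHole G γ σ0 →
      ∀ d : ℕ, ∃ Q : Fin d → Finset (Fin n), (∀ j, ∀ u ∈ Q j, ∀ v ∈ Q j, u ≠ v → G.Adj u v) ∧
        ∀ T : Finset (Fin n), e * n ≤ T.card →
          L * (univ.filter (fun j => Disjoint (Q j) T)).card ≤ n + d := by
  obtain ⟨σ0, hσ0, n0, hN⟩ := hitR γ hγ e he he1 L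
  refine ⟨σ0, hσ0, n0, fun n hn G hG d => ?_⟩
  obtain ⟨Q, hQ1, hQ2⟩ := GCP.pot
    (fun Q : Finset (Fin n) => ∀ u ∈ Q, ∀ v ∈ Q, u ≠ v → G.Adj u v)
    (fun T => e * n ≤ T.card) L (by
      intro w hw
      obtain ⟨Q, h1, h2⟩ := hN n hn G hG w hw
      refine ⟨Q, h1, ?_⟩
      convert h2 using 3) d
  refine ⟨Q, hQ1, fun T hT => ?_⟩
  convert hQ2 T hT using 3

end GCU
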