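import Mathlib

/-!
# GCU-Proc: an iteration (Mathlib only)

Let `h` be a nonnegative subadditive function of subsets of `Fin s` such that every `T` which leaves at most `r` elements of `Z0` uncovered
has `h T` at least `lam` times the number of these elements. If for every large set `Z` at least half of the sets `S v` split `Z` in
proportion between `η` and `1 - η`, then the mean of `h (S v)` is at least `η * b / (8 * N0) * lam * s`.
-/

set_option autoImplicit false

open Finset

namespace GCU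

open Classical in
private theorem proc_markov {n s : ℕ} (h : Finset (Fin s) → ℝ) (h0 : ∀ T, 0 ≤ h T)
    (S : Fin n → Finset (Fin s)) (H : ℝ) (hH : 0 < H) (hsum : ∑ v, h (S v) < H * n)
    (A : Finset (Fin n)) (hA : (n : ℝ) / 2 ≤ (A.card : ℝ)) : ∃ v ∈ A, h (S v) < 4 * H := by
  by_contra hcon
  push Not at hcon
  have h1 : (4 * H) * (A.card : ℝ) ≤ ∑ v, h (S v) := by
    calc (4 * H) * (A.card : ℝ) = ∑ _v ∈ A, (4 * H) := by
          rw [Finset.sum_const, nsmul_eq_mul, mul_comm]
      _ ≤ ∑ v ∈ A, h (S v) := Finset.sum_le_sum hcon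
      _ ≤ ∑ v, h (S v) :=
          Finset.sum_le_univ_sum_of_nonneg (fun v => h0 (S v))
  have hn : (0 : ℝ) ≤ n := Nat.cast_nonneg n
  have h2 : (4 * H) * ((n : ℝ) / 2) ≤ (4 * H) * (A.card : ℝ) :=
    mul_le_mul_of_nonneg_left hA (by positivity)
  nlinarith

open Classical in
theorem proc {n s : ℕ} (h : Finset (Fin s) → ℝ) (h0 : ∀ T, 0 ≤ h T)
    (hsub : ∀ A B, h (A ∪ B) ≤ h A + h B) (hempty : h ∅ ≤ 0) (Z0 : Finset (Fin s))
    (b η lam : ℝ) (hb : 0 < b) (hη0 : 0 < η) (hη1 : η ≤ 1 / 2) (hlam : 0 ≤ lam) (r : ℕ)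
    (hr : b * s ≤ r) (hZ0 : r < Z0.card)
    (hend : ∀ T : Finset (Fin s), (Z0 \ T).card ≤ r → lam * ((Z0 \ T).card : ℝ) ≤ h T)
    (N0 : ℕ) (hN0 : 0 < N0) (hN : (1 - η) ^ N0 < b) (S : Fin n → Finset (Fin s))
    (hS : ∀ Z : Finset (Fin s), r < Z.card → (n : ℝ) / 2 ≤
      ((univ.filter (fun v => η * Z.card ≤ ((S v ∩ Z).card : ℝ) ∧
        ((S v ∩ Z).card : ℝ) ≤ (1 - η) * Z.card)).card : ℝ)) :
    η * b / (8 * N0) * lam * s * n ≤ ∑ v, h (S v) := by
  have hs0 : (0 : ℝ) ≤ s := Nat.cast_nonneg s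
  have hN0' : (0 : ℝ) < N0 := by exact_mod_cast hN0
  by_cases hls : lam * s = 0
  · have e : η * b / (8 * N0) * lam * s * n = η * b / (8 * N0) * (lam * s) * n := by ring
    rw [e, hls, mul_zero, zero_mul]
    exact Finset.sum_nonneg fun v _ => h0 (S v)
  have hls' : 0 < lam * s := lt_of_le_of_ne (mul_nonneg hlam hs0) (Ne.symm hls)
  set H : ℝ := η * b / (8 * N0) * lam * s with hHdef
  have hH : 0 < H := by
    have e : H = η * b / (8 * N0) * (lam * s) := by rw [hHdef]; ring
    rw [e]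
    positivity
  by_contra hcon
  push Not at hcon
  have key : ∀ m : ℕ, ∃ T : Finset (Fin s), h T ≤ 4 * m * H ∧
      ((r < (Z0 \ T).card ∧ ((Z0 \ T).card : ℝ) ≤ (1 - η) ^ m * s) ∨
        ((Z0 \ T).card ≤ r ∧ η * b * s ≤ ((Z0 \ T).card : ℝ))) := by
    intro m
    induction m with
    | zero =>
      refine ⟨∅, by simpa using hempty, Or.inl ⟨by simpa using hZ0, ?_⟩⟩
      have hc : Z0.card ≤ s := by
        have := Finset.card_le_univ Z0
        rwa [Fintype.card_fin] at this
      have hc' : (Z0.card : ℝ) ≤ s := by exact_mod_cast hc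
      simpa using hc'
    | succ m ih =>
      obtain ⟨T, hT, hcase⟩ := ih
      rcases hcase with ⟨h1, h2⟩ | ⟨h1, h2⟩
      · obtain ⟨v, hv, hvH⟩ := proc_markov h h0 S H hH hcon _ (hS (Z0 \ T) h1)
        rw [Finset.mem_filter] at hv
        obtain ⟨-, hv1, hv2⟩ := hv
        have hcard : ((Z0 \ (T ∪ S v)).card : ℝ) =
            ((Z0 \ T).card : ℝ) - ((S v ∩ (Z0 \ T)).card : ℝ) := by
          have e1 : Z0 \ (T ∪ S v) = (Z0 \ T) \ S v := by
            rw [Finset.sdiff_union_distrib, Finset.sdiff_sdiff_left']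
          have e2 := Finset.card_sdiff_add_card_inter (Z0 \ T) (S v)
          rw [e1, Finset.inter_comm]
          have e3 : (((Z0 \ T) \ S v).card : ℝ) + (((Z0 \ T) ∩ S v).card : ℝ) =
              ((Z0 \ T).card : ℝ) := by exact_mod_cast e2
          linarith
        refine ⟨T ∪ S v, ?_, ?_⟩
        · have := hsub T (S v)
          push_cast
          linarith
        · by_cases hr' : r < (Z0 \ (T ∪ S v)).card
          · refine Or.inl ⟨hr', ?_⟩
            have h3 : (1 - η) * ((Z0 \ T).card : ℝ) ≤ (1 - η) * ((1 - η) ^ m * s) :=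
              mul_le_mul_of_nonneg_left h2 (by linarith)
            rw [hcard, pow_succ]
            linarith
          · refine Or.inr ⟨not_lt.mp hr', ?_⟩
            have h3 : (r : ℝ) ≤ ((Z0 \ T).card : ℝ) := by exact_mod_cast h1.le
            have h4 : η * (b * s) ≤ η * ((Z0 \ T).card : ℝ) :=
              mul_le_mul_of_nonneg_left (hr.trans h3) hη0.le
            rw [hcard]
            linarith
      · refine ⟨T, ?_, Or.inr ⟨h1, h2⟩⟩
        push_cast
        linarith
  obtain ⟨T, hT, hcase⟩ := key N0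
  rcases hcase with ⟨h1, h2⟩ | ⟨h1, h2⟩
  · have h3 : (1 - η) ^ N0 * s ≤ b * s := mul_le_mul_of_nonneg_right hN.le hs0
    have h4 : (r : ℝ) < ((Z0 \ T).card : ℝ) := by exact_mod_cast h1
    linarith
  · have h3 := hend T h1
    have h4 : lam * (η * b * s) ≤ lam * ((Z0 \ T).card : ℝ) := mul_le_mul_of_nonneg_left h2 hlam
    have h5 : 4 * (N0 : ℝ) * H = η * b * (lam * s) / 2 := by
      rw [hHdef]
      field_simp
      ring
    have h6 : 0 < η * b * (lam * s) := by positivity
    nlinarith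

end GCU
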