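import Pool.Agent.GCU.Marg
import Pool.Agent.GCU.Proc

/-!
# GCU-Gain: the gain of a supermodular function

`T0 ≠ univ` maximises `f T / (s - T.card)`, with maximum `lam`, and `proc` is applied to
`h T = lam * (Z0 \ T).card - f (T0 ∪ T)`, `Z0` the complement of `T0`, `marg` to `T0`.
-/

set_option autoImplicit false

open Finset

namespace GCU

open Classical in
theorem gain {n s k : ℕ} (f : Finset (Fin s) → ℝ) (hf0 : ∀ T, 0 ≤ f T)
    (hanti : ∀ A B, A ⊆ B → f B ≤ f A) (hsup : ∀ A B, f A + f B ≤ f (A ∪ B) + f (A ∩ B))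
    (hks : k ≤ s) (hk : ∀ T : Finset (Fin s), k ≤ T.card → f T = 0) (g b η : ℝ)
    (hb : 0 < b) (hη0 : 0 < η) (hη1 : η ≤ 1 / 2) (hbs : b * s ≤ ((s - k : ℕ) : ℝ))
    (N0 : ℕ) (hN0 : 0 < N0) (hN : (1 - η) ^ N0 < b) (S : Fin n → Finset (Fin s))
    (hg : ∀ i, g * n ≤ ((univ.filter (fun v => i ∈ S v)).card : ℝ))
    (hS : ∀ Z : Finset (Fin s), s - k < Z.card → (n : ℝ) / 2 ≤
      ((univ.filter (fun v => η * Z.card ≤ ((S v ∩ Z).card : ℝ) ∧
        ((S v ∩ Z).card : ℝ) ≤ (1 - η) * Z.card)).card : ℝ)) :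
    ∑ v, f (S v) ≤ f ∅ * ((1 - g - η * b / (8 * N0)) * n) := by
  rcases eq_or_lt_of_le (hf0 ∅) with hR | hR
  · have h0 : ∀ T, f T = 0 := fun T =>
      le_antisymm (by rw [hR]; exact hanti ∅ T (Finset.empty_subset T)) (hf0 T)
    rw [← hR, Finset.sum_eq_zero (fun v _ => h0 (S v)), zero_mul]
  have hs : 0 < s := by
    rcases Nat.eq_zero_or_pos s with h | h
    · have h1 : k ≤ (∅ : Finset (Fin s)).card := by
        rw [Finset.card_empty]; omega
      rw [hk ∅ h1] at hR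
      exact absurd hR (lt_irrefl _)
    · exact h
  have hsR : (0 : ℝ) < s := by exact_mod_cast hs
  have hcard : ∀ T : Finset (Fin s), T ≠ univ → T.card < s := by
    intro T hT
    have h1 : T.card < (univ : Finset (Fin s)).card :=
      Finset.card_lt_card (Finset.ssubset_univ_iff.2 hT)
    rwa [Finset.card_univ, Fintype.card_fin] at h1
  have hpos : ∀ T : Finset (Fin s), T ≠ univ → (0 : ℝ) < s - T.card := by
    intro T hT
    have : (T.card : ℝ) < s := by exact_mod_cast hcard T hT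
    linarith
  have hne : (∅ : Finset (Fin s)) ≠ univ := by
    intro h
    have h1 := congrArg Finset.card h
    rw [Finset.card_empty, Finset.card_univ, Fintype.card_fin] at h1
    omega
  obtain ⟨T0, hT0m, hmax⟩ := Finset.exists_max_image
    ((univ : Finset (Finset (Fin s))).filter (fun T => T ≠ univ))
    (fun T => f T / ((s : ℝ) - T.card)) ⟨∅, Finset.mem_filter.2 ⟨Finset.mem_univ _, hne⟩⟩
  have hT0 : T0 ≠ univ := (Finset.mem_filter.1 hT0m).2
  obtain ⟨lam, hlamdef⟩ : ∃ lam, lam = f T0 / ((s : ℝ) - T0.card) := ⟨_, rfl⟩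
  have hmax' : ∀ T : Finset (Fin s), T ≠ univ → f T / ((s : ℝ) - T.card) ≤ lam := by
    intro T hT
    rw [hlamdef]
    exact hmax T (Finset.mem_filter.2 ⟨Finset.mem_univ _, hT⟩)
  have hlamR : f ∅ ≤ lam * s := by
    have h1 := hmax' ∅ hne
    rw [Finset.card_empty, Nat.cast_zero, sub_zero, div_le_iff₀ hsR] at h1
    exact h1
  have hlam : 0 < lam := by
    by_contra h
    push Not at h
    have := mul_nonpos_of_nonpos_of_nonneg h hsR.le
    linarith
  have hle : ∀ T : Finset (Fin s), f T ≤ lam * (s - T.card) := by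
    intro T
    by_cases hT : T = univ
    · have h1 : f T = 0 := by
        apply hk
        rw [hT, Finset.card_univ, Fintype.card_fin]
        exact hks
      rw [h1, hT, Finset.card_univ, Fintype.card_fin, sub_self, mul_zero]
    · have h1 := hmax' T hT
      rwa [div_le_iff₀ (hpos T hT)] at h1
  have hfT0 : f T0 = lam * (s - T0.card) := by
    rw [hlamdef, div_mul_cancel₀ _ (hpos T0 hT0).ne']
  obtain ⟨Z0, hZ0⟩ : ∃ Z0 : Finset (Fin s), Z0 = T0ᶜ := ⟨_, rfl⟩
  have hsd : ∀ T : Finset (Fin s), (Z0 \ T).card + (T0 ∪ T).card = s := by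
    intro T
    have h1 : Z0 \ T = (T0 ∪ T)ᶜ := by
      rw [hZ0]
      ext x
      simp only [Finset.mem_sdiff, Finset.mem_compl, Finset.mem_union, not_or]
    rw [h1, Finset.card_compl_add_card, Fintype.card_fin]
  have hsdR : ∀ T : Finset (Fin s), ((Z0 \ T).card : ℝ) = s - (T0 ∪ T).card := by
    intro T
    have h1 : (((Z0 \ T).card + (T0 ∪ T).card : ℕ) : ℝ) = s := by rw [hsd T]
    push_cast at h1
    linarith
  have hZ0c : Z0.card + T0.card = s := by
    have := hsd ∅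
    rwa [Finset.sdiff_empty, Finset.union_empty] at this
  have hZ0R : (Z0.card : ℝ) = s - T0.card := by
    have h1 : ((Z0.card + T0.card : ℕ) : ℝ) = s := by rw [hZ0c]
    push_cast at h1
    linarith
  have hT0k : T0.card < k := by
    by_contra h
    push Not at h
    have h1 := hk T0 h
    rw [hfT0] at h1
    exact absurd h1 (mul_pos hlam (hpos T0 hT0)).ne'
  have hZr : s - k < Z0.card := by omega
  obtain ⟨h, hdef⟩ : ∃ h : Finset (Fin s) → ℝ, ∀ T, h T = lam * (Z0 \ T).card - f (T0 ∪ T) :=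
    ⟨fun T => lam * (Z0 \ T).card - f (T0 ∪ T), fun _ => rfl⟩
  have h0 : ∀ T, 0 ≤ h T := by
    intro T
    rw [hdef, hsdR]
    linarith [hle (T0 ∪ T)]
  have hsub : ∀ A B, h (A ∪ B) ≤ h A + h B := by
    intro A B
    have h1 := hsup (T0 ∪ A) (T0 ∪ B)
    have h2 : (T0 ∪ A) ∪ (T0 ∪ B) = T0 ∪ (A ∪ B) := by
      ext x; simp only [Finset.mem_union]; tauto
    have h3 : (T0 ∪ A) ∩ (T0 ∪ B) = T0 ∪ (A ∩ B) := by
      ext x; simp only [Finset.mem_union, Finset.mem_inter]; tauto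
    have h4 := Finset.card_union_add_card_inter (T0 ∪ A) (T0 ∪ B)
    rw [h2, h3] at h1 h4
    have h5 : ((T0 ∪ (A ∪ B)).card : ℝ) + (T0 ∪ (A ∩ B)).card = (T0 ∪ A).card + (T0 ∪ B).card := by
      exact_mod_cast h4
    have h6 := h0 (A ∩ B)
    rw [hdef, hsdR] at h6 ⊢
    rw [hdef, hdef, hsdR, hsdR]
    have h7 : lam * ((T0 ∪ (A ∪ B)).card : ℝ) + lam * (T0 ∪ (A ∩ B)).card =
        lam * (T0 ∪ A).card + lam * (T0 ∪ B).card := by
      rw [← mul_add, ← mul_add, h5]
    nlinarith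
  have hempty : h ∅ ≤ 0 := by
    rw [hdef, hsdR, Finset.union_empty, hfT0]
    linarith
  have hend : ∀ T : Finset (Fin s), (Z0 \ T).card ≤ s - k → lam * ((Z0 \ T).card : ℝ) ≤ h T := by
    intro T hT
    have h1 := hsd T
    have h2 : f (T0 ∪ T) = 0 := hk _ (by omega)
    rw [hdef, h2, sub_zero]
  have hproc := proc h h0 hsub hempty Z0 b η lam hb hη0 hη1 hlam.le (s - k) hbs hZr hend N0 hN0 hN S hS
  have hmarg := marg f hanti hsup S g hg T0
  have hone : ∀ v, f (S v) ≤ - (lam * ((Z0 ∩ S v).card : ℝ)) - h (S v) + f (S v ∩ T0) := by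
    intro v
    have h1 := hsup (S v) T0
    rw [Finset.union_comm (S v) T0] at h1
    have h2 := hdef (S v)
    have h3 : ((Z0 \ S v).card : ℝ) + (Z0 ∩ S v).card = Z0.card := by
      exact_mod_cast Finset.card_sdiff_add_card_inter Z0 (S v)
    have h4 : lam * ((Z0 \ S v).card : ℝ) + lam * (Z0 ∩ S v).card = f T0 := by
      rw [← mul_add, h3, hZ0R, hfT0]
    linarith
  have hcount : (Z0.card : ℝ) * (g * n) ≤ ∑ v, ((Z0 ∩ S v).card : ℝ) := by
    have h1 : ∑ v, ((Z0 ∩ S v).card : ℝ) =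
        ∑ i ∈ Z0, ((univ.filter (fun v => i ∈ S v)).card : ℝ) := by
      have h2 : ∀ v, ((Z0 ∩ S v).card : ℝ) = ∑ i ∈ Z0, (if i ∈ S v then (1 : ℝ) else 0) := by
        intro v
        rw [Finset.sum_ite, Finset.sum_const_zero, add_zero, Finset.sum_const, nsmul_eq_mul, mul_one,
          Finset.filter_mem_eq_inter]
      have h3 : ∀ i, ((univ.filter (fun v => i ∈ S v)).card : ℝ) =
          ∑ v, (if i ∈ S v then (1 : ℝ) else 0) := by
        intro i
        rw [Finset.sum_ite, Finset.sum_const_zero, add_zero, Finset.sum_const, nsmul_eq_mul, mul_one]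
      rw [Finset.sum_congr rfl (fun v _ => h2 v), Finset.sum_comm]
      exact Finset.sum_congr rfl (fun i _ => (h3 i).symm)
    rw [h1]
    calc (Z0.card : ℝ) * (g * n) = ∑ _i ∈ Z0, g * n := by rw [Finset.sum_const, nsmul_eq_mul]
      _ ≤ _ := Finset.sum_le_sum (fun i _ => hg i)
  have hsum : ∑ v, f (S v) ≤ - (lam * ∑ v, ((Z0 ∩ S v).card : ℝ)) - ∑ v, h (S v) + ∑ v, f (S v ∩ T0) := by
    calc ∑ v, f (S v) ≤ ∑ v, (- (lam * ((Z0 ∩ S v).card : ℝ)) - h (S v) + f (S v ∩ T0)) :=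
          Finset.sum_le_sum (fun v _ => hone v)
      _ = _ := by
          rw [Finset.sum_add_distrib, Finset.sum_sub_distrib, Finset.sum_neg_distrib, Finset.mul_sum]
  have h8 : lam * ((Z0.card : ℝ) * (g * n)) ≤ lam * ∑ v, ((Z0 ∩ S v).card : ℝ) :=
    mul_le_mul_of_nonneg_left hcount hlam.le
  have h9 : lam * ((Z0.card : ℝ) * (g * n)) = g * n * f T0 := by
    rw [hfT0, hZ0R]; ring
  have hN0R : (0 : ℝ) < N0 := by exact_mod_cast hN0
  have h10 : η * b / (8 * N0) * f ∅ * n ≤ η * b / (8 * N0) * lam * s * n := by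
    have h11 : 0 ≤ η * b / (8 * N0) * n := by positivity
    have h12 := mul_le_mul_of_nonneg_left hlamR h11
    nlinarith
  nlinarith

end GCU
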