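import Pool.Agent.GCU.Gain
import Pool.Agent.GCU.Defs

/-!
# GCU-GainU: the gain for robust subspaces

The dimension of the space of the vectors of `U` vanishing on `T` is a supermodular function of `T`.
-/

set_option autoImplicit false

open Finset Module

namespace GCU

private theorem mem_van {K : Type} [Field K] {s : ℕ} {U : Submodule K (Fin s → K)} {S : Finset (Fin s)}
    {z : Fin s → K} : z ∈ GCQ.van U S ↔ z ∈ U ∧ ∀ i ∈ S, z i = 0 := Iff.rfl

open Classical in
theorem gainU {K : Type} [Field K] {n s k : ℕ} (U : Submodule K (Fin s → K)) (hU : GCQ.Robust U k)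
    (hks : k ≤ s) (g b η : ℝ)
    (hb : 0 < b) (hη0 : 0 < η) (hη1 : η ≤ 1 / 2) (hbs : b * s ≤ ((s - k : ℕ) : ℝ))
    (N0 : ℕ) (hN0 : 0 < N0) (hN : (1 - η) ^ N0 < b) (S : Fin n → Finset (Fin s))
    (hg : ∀ i, g * n ≤ ((univ.filter (fun v => i ∈ S v)).card : ℝ))
    (hS : ∀ Z : Finset (Fin s), s - k < Z.card → (n : ℝ) / 2 ≤
      ((univ.filter (fun v => η * Z.card ≤ ((S v ∩ Z).card : ℝ) ∧
        ((S v ∩ Z).card : ℝ) ≤ (1 - η) * Z.card)).card : ℝ)) :
    ∑ v, (finrank K (GCQ.van U (S v)) : ℝ) ≤
      finrank K U * ((1 - g - η * b / (8 * N0)) * n) := by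
  have h0 : GCQ.van U (∅ : Finset (Fin s)) = U := by
    ext z
    rw [mem_van]
    simp
  have hmono : ∀ A B : Finset (Fin s), A ⊆ B → GCQ.van U B ≤ GCQ.van U A := by
    intro A B hAB z hz
    rw [mem_van] at hz ⊢
    exact ⟨hz.1, fun i hi => hz.2 i (hAB hi)⟩
  have key := gain (n := n) (k := k) (fun T : Finset (Fin s) => (finrank K (GCQ.van U T) : ℝ))
    (fun T => Nat.cast_nonneg _)
    (fun A B hAB => by
      have := Submodule.finrank_mono (hmono A B hAB)
      exact_mod_cast this)
    (fun A B => by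
      have h1 : GCQ.van U A ⊓ GCQ.van U B = GCQ.van U (A ∪ B) := by
        ext z
        rw [Submodule.mem_inf, mem_van, mem_van, mem_van]
        constructor
        · rintro ⟨⟨h1, h2⟩, -, h3⟩
          refine ⟨h1, fun i hi => ?_⟩
          rcases Finset.mem_union.1 hi with h | h
          · exact h2 i h
          · exact h3 i h
        · rintro ⟨h1, h2⟩
          exact ⟨⟨h1, fun i hi => h2 i (Finset.mem_union_left _ hi)⟩,
            h1, fun i hi => h2 i (Finset.mem_union_right _ hi)⟩
      have h2 : GCQ.van U A ⊔ GCQ.van U B ≤ GCQ.van U (A ∩ B) :=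
        sup_le (hmono _ _ Finset.inter_subset_left) (hmono _ _ Finset.inter_subset_right)
      have h3 := Submodule.finrank_sup_add_finrank_inf_eq (GCQ.van U A) (GCQ.van U B)
      have h4 := Submodule.finrank_mono h2
      rw [h1] at h3
      have h5 : finrank K (GCQ.van U A) + finrank K (GCQ.van U B) ≤
          finrank K (GCQ.van U (A ∪ B)) + finrank K (GCQ.van U (A ∩ B)) := by omega
      exact_mod_cast h5)
    hks
    (fun T hT => by
      have h6 := hU T hT
      rw [h6, finrank_bot]
      simp)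
    g b η hb hη0 hη1 hbs N0 hN0 hN S hg hS
  rw [h0] at key
  exact key

end GCU
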