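import Pool.Agent.GCU.OneR
import Pool.Agent.GCU.DichR
import Pool.Agent.GCR.One

/-!
# GCU-Main: the sum of the two ranks is at most `(1 - c) n` (assembly, helper92)
-/

set_option autoImplicit false

open Finset Filter

namespace GCU

open GCR GCQ

open Classical in
private lemma low {n : ℕ} (G : SimpleGraph (Fin n)) (κ τ : ℝ) (hκn : 2 ≤ κ * n) (D : ℕ)
    (hD : (D : ℝ) ≤ (1 - κ) * n)
    (h : ((univ.filter (fun v => D < dg G v)).card : ℝ) ≤ τ * n) :
    ((univ.filter (fun v => (dg Gᶜ v : ℝ) < κ / 2 * n)).card : ℝ) ≤ τ * n := by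
  refine le_trans ?_ h
  have h1 : (univ.filter (fun v => (dg Gᶜ v : ℝ) < κ / 2 * n)) ⊆ univ.filter (fun v => D < dg G v) := by
    intro v hv
    rw [Finset.mem_filter] at hv ⊢
    refine ⟨Finset.mem_univ _, ?_⟩
    by_contra hcon
    have h2 := dg_compl G v
    have h3 : (dg G v : ℝ) ≤ D := by exact_mod_cast not_lt.1 hcon
    have h4 : (dg G v : ℝ) + dg Gᶜ v + 1 = n := by exact_mod_cast h2
    linarith [hv.2]
  exact_mod_cast Finset.card_le_card h1

/-- graphs without homogeneous pairs: the sum of the two minimum ranks is at most `(1 - c) n` -/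
theorem final (γ : ℝ → ℝ) (hγ : ∀ σ, 0 < σ → 0 < γ σ) : ∃ c σ0 : ℝ, 0 < c ∧ 0 < σ0 ∧ ∃ n0 : ℕ,
    ∀ n ≥ n0, ∀ G : SimpleGraph (Fin n), NoHole G γ σ0 → NoHole Gᶜ γ σ0 →
    ∃ d d' : ℕ, MrGC.PR Gᶜ d ∧ MrGC.PR G d' ∧ (d : ℝ) + d' ≤ (1 - c) * n := by
  classical
  obtain ⟨κ, hκ, hκ1, hdich⟩ := dichR γ hγ
  obtain ⟨c, τ, hc, hτ, σ1, hσ1, n1, hone⟩ := oneR γ hγ κ hκ hκ1
  obtain ⟨c1, σ2, hc1, hσ2, n2, hdich⟩ := hdich τ c hτ hc
  obtain ⟨σ3, hσ3, n3, hdeg⟩ := GCR.one γ hγ (c1 / 4) (by positivity)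
  obtain ⟨n4, hn4⟩ := exists_nat_ge (2 / κ)
  refine ⟨min (c1 / 2) c, min σ1 (min σ2 σ3), lt_min (by positivity) hc,
    lt_min hσ1 (lt_min hσ2 hσ3), max (max n1 n4) (max n2 n3), fun n hn G hG hG' => ?_⟩
  have hn1 : n1 ≤ n := ((le_max_left _ _).trans (le_max_left _ _)).trans hn
  have hn4' : n4 ≤ n := ((le_max_right _ _).trans (le_max_left _ _)).trans hn
  have hn2 : n2 ≤ n := ((le_max_left _ _).trans (le_max_right _ _)).trans hn
  have hn3 : n3 ≤ n := ((le_max_right _ _).trans (le_max_right _ _)).trans hn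
  have hm1 : min σ1 (min σ2 σ3) ≤ σ1 := min_le_left _ _
  have hm2 : min σ1 (min σ2 σ3) ≤ σ2 := (min_le_right _ _).trans (min_le_left _ _)
  have hm3 : min σ1 (min σ2 σ3) ≤ σ3 := (min_le_right _ _).trans (min_le_right _ _)
  have hn : (0 : ℝ) ≤ n := Nat.cast_nonneg n
  have hκn : 2 ≤ κ * n := by
    have h1 : 2 / κ ≤ n := hn4.trans (by exact_mod_cast hn4')
    rw [div_le_iff₀ hκ] at h1
    linarith
  rcases hdich n hn2 G (NoHole_mono hG hm2) (NoHole_mono hG' hm2) with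
    ⟨D, D', hD, hD', hs, hsum⟩ | ⟨D, D', hsum, hD1, hD1', hD2, hD2', hE, hE'⟩
  · obtain ⟨d, h1, h2⟩ := hdeg n hn3 G (NoHole_mono hG hm3) D' (by omega) hD'
    obtain ⟨d', h1', h2'⟩ := hdeg n hn3 Gᶜ (NoHole_mono hG' hm3) D (by omega) (by rwa [compl_compl])
    rw [compl_compl] at h1'
    refine ⟨d, d', h1, h1', ?_⟩
    have h3 : min (c1 / 2) c * n ≤ c1 / 2 * n := mul_le_mul_of_nonneg_right (min_le_left _ _) hn
    linarith
  · have e1 := low G κ τ hκn D hD1 (by convert hE using 3)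
    have e2 := low Gᶜ κ τ hκn D' hD1' (by convert hE' using 3)
    obtain ⟨d, h1, h2⟩ := hone n hn1 G (NoHole_mono hG hm1) (NoHole_mono hG' hm1) D' hD1' hD2'
      (by convert hE' using 3) (by convert e1 using 3)
    obtain ⟨d', h1', h2'⟩ := hone n hn1 Gᶜ (NoHole_mono hG' hm1)
      (by rw [compl_compl]; exact NoHole_mono hG hm1) D hD1 hD2
      (by rw [compl_compl]; convert hE using 3) (by convert e2 using 3)
    rw [compl_compl] at h1'
    refine ⟨d, d', h1, h1', ?_⟩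
    have h3 : min (c1 / 2) c * n ≤ c * n := mul_le_mul_of_nonneg_right (min_le_right _ _) hn
    linarith

end GCU
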