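import Mathlib

/-!
# GCU-Marg: marginals and supermodular functions (Mathlib only)

PLAN. Induction on `T` (`Finset.induction_on`). `T = ∅`: both sides are `n * f ∅`. Step `T ∪ {i}`, `i ∉ T`: if `i ∉ S v` then `S v ∩ insert i T = S v ∩ T`. If `i ∈ S v` then `hsup` for `A = insert i (S v ∩ T)` (`= S v ∩ insert i T`) and `B = T`:
`A ∪ B = insert i T`, `A ∩ B = S v ∩ T`, so `f (S v ∩ insert i T) ≤ f (S v ∩ T) + (f (insert i T) - f T)`. The last bracket is `≤ 0` (`hanti`). Sum over `v`: `∑ v, f (S v ∩ insert i T) ≤ ∑ v, f (S v ∩ T) + #{v : i ∈ S v} * (f (insert i T) - f T)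
≤ ∑ v, f (S v ∩ T) + g * n * (f (insert i T) - f T)`.
-/

set_option autoImplicit false

open Finset

namespace GCU

open Classical in
theorem marg {n s : ℕ} (f : Finset (Fin s) → ℝ) (hanti : ∀ A B, A ⊆ B → f B ≤ f A)
    (hsup : ∀ A B, f A + f B ≤ f (A ∪ B) + f (A ∩ B)) (S : Fin n → Finset (Fin s)) (g : ℝ)
    (hg : ∀ i, g * n ≤ ((univ.filter (fun v => i ∈ S v)).card : ℝ)) (T : Finset (Fin s)) :
    ∑ v, f (S v ∩ T) ≤ n * f ∅ - g * n * (f ∅ - f T) := by
  induction T using Finset.induction_on with
  | empty => simp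
  | insert i T hi ih =>
    set c : ℝ := f (insert i T) - f T with hc
    have hc0 : c ≤ 0 := by
      have := hanti T (insert i T) (Finset.subset_insert _ _)
      rw [hc]; linarith
    have hstep : ∀ v, f (S v ∩ insert i T) ≤ f (S v ∩ T) + (if i ∈ S v then c else 0) := by
      intro v
      by_cases h : i ∈ S v
      · rw [if_pos h]
        have h1 := hsup (S v ∩ insert i T) T
        have e1 : (S v ∩ insert i T) ∪ T = insert i T := by
          ext x
          simp only [Finset.mem_union, Finset.mem_inter, Finset.mem_insert]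
          constructor
          · rintro (⟨_, h2⟩ | h2)
            · exact h2
            · exact Or.inr h2
          · rintro (rfl | h2)
            · exact Or.inl ⟨h, Or.inl rfl⟩
            · exact Or.inr h2
        have e2 : (S v ∩ insert i T) ∩ T = S v ∩ T := by
          ext x
          simp only [Finset.mem_inter, Finset.mem_insert]
          constructor
          · rintro ⟨⟨h2, _⟩, h3⟩
            exact ⟨h2, h3⟩
          · rintro ⟨h2, h3⟩
            exact ⟨⟨h2, Or.inr h3⟩, h3⟩
        rw [e1, e2] at h1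
        rw [hc]; linarith
      · rw [if_neg h, add_zero, Finset.inter_insert_of_notMem h]
    have hsum : ∑ v, f (S v ∩ insert i T) ≤ ∑ v, f (S v ∩ T) +
        ((univ.filter (fun v => i ∈ S v)).card : ℝ) * c := by
      refine (Finset.sum_le_sum fun v _ => hstep v).trans ?_
      rw [Finset.sum_add_distrib, ← Finset.sum_filter, Finset.sum_const, nsmul_eq_mul]
    have h2 : ((univ.filter (fun v => i ∈ S v)).card : ℝ) * c ≤ g * n * c :=
      mul_le_mul_of_nonpos_right (hg i) hc0
    have h3 : (n : ℝ) * f ∅ - g * n * (f ∅ - f T) + g * n * c =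
        n * f ∅ - g * n * (f ∅ - f (insert i T)) := by rw [hc]; ring
    linarith

end GCU
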