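import Pool.Agent.GCU.CoreR
import Pool.Agent.GCU.FamR
import Pool.Agent.GCU.Blk
import Pool.Agent.GCU.Blks
import Pool.Agent.GCU.GainU
import Pool.Agent.GCU.DegL
import Pool.Agent.GCU.DegV2
import Pool.Agent.GCQ.OneV

/-!
# GCU-OneR: the one sided bound for nearly regular graphs without holes (assembly, helper92)
-/

set_option autoImplicit false

open Finset Filter Module

namespace GCU

open GCR GCQ

private lemma ev {c : ℝ} (hc : 0 < c) (C : ℝ) : ∀ᶠ n : ℕ in atTop, C ≤ c * n :=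
  ((tendsto_natCast_atTop_atTop (R := ℝ)).const_mul_atTop hc).eventually_ge_atTop C

private lemma a3 {s ε : ℝ} (hs : 0 < s) (hε1 : ε ≤ 1) : ε / (8 * (s + 1) ^ 2) ≤ 1 := by
  rw [div_le_one (by positivity)]
  nlinarith [sq_nonneg s]

private lemma a6 {s M ε : ℝ} (hs : 0 ≤ s) (hsM : s ≤ M) (hε : 0 < ε) :
    s ^ 2 * (ε / (8 * (M + 1) ^ 2)) ≤ ε / 8 := by
  have hM : 0 ≤ M := hs.trans hsM
  rw [← mul_div_assoc, div_le_div_iff₀ (by positivity) (by norm_num)]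
  have h1 : s ^ 2 ≤ (M + 1) ^ 2 := pow_le_pow_left₀ hs (by linarith) 2
  nlinarith

private lemma a7 {s M ε : ℝ} (hs : 0 ≤ s) (hsM : s ≤ M) (hε : 0 < ε) :
    (2 * s + 3) * (ε / (8 * (M + 1) ^ 2)) ≤ ε / 2 := by
  have hM : 0 ≤ M := hs.trans hsM
  rw [← mul_div_assoc, div_le_div_iff₀ (by positivity) (by norm_num)]
  have h1 : (2 * s + 3) * ε ≤ (2 * M + 3) * ε := mul_le_mul_of_nonneg_right (by linarith) hε.le
  have h2 : (2 * M + 3) * 2 ≤ 8 * (M + 1) ^ 2 := by nlinarith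
  calc (2 * s + 3) * ε * 2 ≤ (2 * M + 3) * ε * 2 := by linarith
    _ = ε * ((2 * M + 3) * 2) := by ring
    _ ≤ ε * (8 * (M + 1) ^ 2) := mul_le_mul_of_nonneg_left h2 hε.le

private lemma a8 {P P0 e2 L n ε : ℝ} (hL : 0 < L) (hε : 0 < ε) (hP0 : 0 ≤ P0) (hP : P0 ≤ P)
    (hn : 0 < n) (he2 : 0 ≤ e2)
    (he : e2 * L ≤ 3 * n) (h : 3 * (P + 1) / ε ≤ L) : P0 * e2 + e2 ≤ ε * n := by
  have h1 : e2 ≤ 3 * n / L := by
    rw [le_div_iff₀ hL]; exact he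
  have h2 : 3 * (P + 1) ≤ L * ε := by
    rw [div_le_iff₀ hε] at h; exact h
  calc P0 * e2 + e2 = (P0 + 1) * e2 := by ring
    _ ≤ (P + 1) * e2 := mul_le_mul_of_nonneg_right (by linarith) he2
    _ ≤ (P + 1) * (3 * n / L) := mul_le_mul_of_nonneg_left h1 (by linarith)
    _ = 3 * (P + 1) * n / L := by ring
    _ ≤ ε * n := by
      rw [div_le_iff₀ hL]
      calc 3 * (P + 1) * n ≤ L * ε * n := mul_le_mul_of_nonneg_right h2 hn.le
        _ = ε * n * L := by ring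

private lemma a11 {s M e ε n t : ℝ} (hs : 0 ≤ s) (hsM : s ≤ M) (hn : 0 < n)
    (h3 : (2 * s + 3) * e ≤ ε / 2)
    (ht : t < e * n + 1) (h : (2 * M + 3) * 2 ≤ ε * n) : 2 * ((s + 1) * t) + t ≤ ε * n := by
  have h1 : (2 * s + 3) * t ≤ (2 * s + 3) * (e * n + 1) :=
    mul_le_mul_of_nonneg_left ht.le (by positivity)
  have h2 : (2 * s + 3) * e * n ≤ ε / 2 * n := mul_le_mul_of_nonneg_right h3 hn.le
  linarith

private lemma a13 {s M A n nA e ε t : ℝ} (hs : 0 ≤ s) (hsM : s ≤ M) (hA : 0 < A) (hn : 0 < n)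
    (hε : 0 < ε)
    (hnA : nA ≤ n / A) (hA1 : 1 / ε ≤ A) (he2 : s ^ 2 * e ≤ ε / 8) (ht : t < e * n + 1)
    (h : 4 * (2 * M ^ 2 + 2 * M + 1) ≤ ε * n) :
    s ^ 2 + nA + 1 + s ^ 2 * t + 2 * s ≤ 2 * ε * n := by
  have h1 : nA ≤ ε * n := by
    refine hnA.trans ?_
    rw [div_le_iff₀ hA]
    have h2 : 1 ≤ A * ε := by
      rw [div_le_iff₀ hε] at hA1; exact hA1
    calc n = 1 * n := (one_mul n).symm
      _ ≤ A * ε * n := mul_le_mul_of_nonneg_right h2 hn.le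
      _ = ε * n * A := by ring
  have h2 : s ^ 2 * t ≤ s ^ 2 * (e * n + 1) := mul_le_mul_of_nonneg_left ht.le (by positivity)
  have h3 : s ^ 2 * e * n ≤ ε / 8 * n := mul_le_mul_of_nonneg_right he2 hn.le
  have h4 : 0 < ε * n := by positivity
  have h5 : s ^ 2 ≤ M ^ 2 := pow_le_pow_left₀ hs hsM 2
  linarith

/-- the final numbers -/
private lemma num {κ θ ε1 D' n s b B r d' P e2 d2 m t : ℝ} (hκ : 0 < κ)
    (hε1 : ε1 = κ * θ / 256) (hb : b = κ / 16) (hsM : 32 / κ ≤ s)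
    (hBs : s * B ≤ θ * n) (hB0 : 0 ≤ B) (hr : r ≤ b * s + 1)
    (hd' : d' ≤ D' - κ / 4 * θ * n + 4 * ε1 * n + 1)
    (hp2 : P * e2 + e2 ≤ ε1 * n) (hm : m + t ≤ ε1 * n) (hd2 : d2 ≤ m + e2 + t)
    (hlast : 1 ≤ κ * θ / 128 * n) :
    B * r + (d' + P * e2 + d2) ≤ D' - κ * θ / 8 * n := by
  have h0 : 1 ≤ κ / 32 * s := by
    rw [div_le_iff₀ hκ] at hsM
    linarith
  have h1 : B * r ≤ 3 * κ / 32 * (θ * n) := by
    calc B * r ≤ B * (b * s + 1) := mul_le_mul_of_nonneg_left hr hB0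
      _ ≤ B * (b * s + κ / 32 * s) := mul_le_mul_of_nonneg_left (by linarith) hB0
      _ = 3 * κ / 32 * (s * B) := by rw [hb]; ring
      _ ≤ 3 * κ / 32 * (θ * n) := mul_le_mul_of_nonneg_left hBs (by positivity)
  have h2 : ε1 * n = κ * θ / 256 * n := by rw [hε1]
  have h3 : 4 * ε1 * n = κ * θ / 64 * n := by rw [hε1]; ring
  nlinarith

open Classical in
private lemma H2lem {n s r k t A d' p N1 D' : ℕ} [Fact p.Prime] (G : SimpleGraph (Fin n))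
    (u : Fin s → Fin n) (b η c1 ε1 : ℝ) (hn : (0 : ℝ) < n) (hb0 : 0 < b) (hη0 : 0 < η)
    (hη : η ≤ 1 / 2) (hks : k ≤ s) (hsk : s - k = r) (hr1 : b * s ≤ (r : ℝ)) (hN1 : 0 < N1)
    (hN1' : (1 - η) ^ N1 < b) (hc1 : c1 = η * b / (8 * N1)) (hspr : Spr G u b η)
    (hdg : ∀ i, (n : ℝ) - 1 - D' ≤ dg G (u i)) (hε : 0 ≤ 2 * ε1 * n)
    (herr : (((s ^ 2 + n / A + 1 + s ^ 2 * t + 2 * s : ℕ)) : ℝ) ≤ 2 * ε1 * n)
    (hkey : 2 * ε1 * n + ((D' : ℝ) + 1 - c1 * n) < d') :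
    ∀ U : Submodule (ZMod p) (Fin s → ZMod p), U ≠ ⊥ → Robust U k →
        s ^ 2 + n / A + 1 + s ^ 2 * t + 2 * s +
          ∑ v, finrank (ZMod p) (van U (tr G u v)) < finrank (ZMod p) U * d' := by
  intro U hU hrob
  have hgu := gainU (n := n) U hrob hks (((n : ℝ) - 1 - D') / n) b η hb0 hη0 hη
    (by rw [hsk]; exact hr1) N1 hN1 hN1' (tr G u) (by
      intro i
      rw [div_mul_cancel₀ _ hn.ne']
      refine (hdg i).trans (le_of_eq ?_)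
      unfold dg tr
      congr 1
      congr 1
      ext v
      simp) (by
      intro Z hZ
      rw [hsk] at hZ
      have hZ' : b * s ≤ Z.card := by
        have : (r : ℝ) ≤ Z.card := by exact_mod_cast hZ.le
        linarith
      convert hspr Z hZ' using 3)
  have hfr1 : (1 : ℝ) ≤ finrank (ZMod p) U := by
    have : 0 < finrank (ZMod p) U := by
      rw [Nat.pos_iff_ne_zero, Ne, Submodule.finrank_eq_zero]
      exact hU
    exact_mod_cast this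
  have e1 : (1 - ((n : ℝ) - 1 - D') / n - η * b / (8 * N1)) * n = D' + 1 - c1 * n := by
    rw [← hc1]
    field_simp
    ring
  rw [e1] at hgu
  obtain ⟨F, hF⟩ : ∃ F : ℝ, F = finrank (ZMod p) U := ⟨_, rfl⟩
  obtain ⟨W, hW⟩ : ∃ W : ℝ, W = ∑ v, (finrank (ZMod p) (van U (tr G u v)) : ℝ) := ⟨_, rfl⟩
  rw [← hF] at hfr1 hgu
  rw [← hW] at hgu
  have h5 : F * (2 * ε1 * n + (D' + 1 - c1 * n)) < F * d' := mul_lt_mul_of_pos_left hkey (by linarith)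
  have h6 : 1 * (2 * ε1 * n) ≤ F * (2 * ε1 * n) := mul_le_mul_of_nonneg_right hfr1 hε
  have h2 : ((s ^ 2 + n / A + 1 + s ^ 2 * t + 2 * s +
      ∑ v, finrank (ZMod p) (van U (tr G u v)) : ℕ) : ℝ) <
      ((finrank (ZMod p) U * d' : ℕ) : ℝ) := by
    rw [Nat.cast_add, Nat.cast_mul, ← hF, Nat.cast_sum, ← hW]
    have h7 : F * (2 * ε1 * n + (D' + 1 - c1 * n)) =
      F * (2 * ε1 * n) + F * (D' + 1 - c1 * n) := by ring
    linarith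
  exact_mod_cast h2

open Classical in
private lemma hVlem {n s B D' d' : ℕ} (G : SimpleGraph (Fin n)) (u : Fin B → Fin s → Fin n)
    (κ θ τ ε1 : ℝ) (hκ : 0 < κ) (hκ1 : κ ≤ 1 / 8) (hn : (0 : ℝ) < n) (hτ : τ ≤ κ / 64)
    (hz0 : κ / 2 * n ≤ (D' : ℝ) - κ / 4 * θ * n) (hs : (s : ℝ) + 1 ≤ ε1 * n)
    (hd1 : (D' : ℝ) - κ / 4 * θ * n + 4 * ε1 * n ≤ (d' : ℝ))
    (hv : 1 ≤ κ / 64 * n)
    (Ls : Finset (Fin n)) (hLs : Ls = univ.image (fun q : Fin B × Fin s => u q.1 q.2))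
    (hLc : θ * n - s ≤ (Ls.card : ℝ))
    (hD3 : ((univ.filter (fun v => D' < dg Gᶜ v)).card : ℝ) ≤ τ * n)
    (hdL : ((univ.filter (fun v => ((MrGC.nb Gᶜ Ls v).card : ℝ) < κ / 4 * Ls.card)).card : ℝ) ≤
      κ / 8 * n) :
    ∀ S : Finset (Fin n), S.Nonempty → (∀ b i, u b i ∉ S) →
      ∃ v ∈ S, (MrGC.nb Gᶜ S v).card + 1 ≤ d' := by
  intro S hS hSu
  have hSL : Disjoint S Ls := by
    rw [Finset.disjoint_right, hLs]
    intro x hx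
    obtain ⟨q, -, rfl⟩ := Finset.mem_image.1 hx
    exact hSu q.1 q.2
  obtain ⟨v, hv', hle⟩ := degV2 G (κ / 4) (κ / 8) τ Ls D' (by convert hD3 using 3)
    (by convert hdL using 3) S hS hSL
  refine ⟨v, hv', ?_⟩
  have h2 : (τ + κ / 8) * n ≤ (κ / 64 + κ / 8) * n :=
    mul_le_mul_of_nonneg_right (by linarith) hn.le
  have h4 : κ / 4 * (θ * n - s) ≤ κ / 4 * Ls.card := mul_le_mul_of_nonneg_left hLc (by positivity)
  have h5 : κ / 4 * s ≤ 1 * s := mul_le_mul_of_nonneg_right (by linarith) (Nat.cast_nonneg _)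
  have h0 : (0 : ℝ) ≤ s := Nat.cast_nonneg _
  have h3 : (D' : ℝ) - κ / 4 * Ls.card ≤ D' - κ / 4 * θ * n + ε1 * n - 1 := by linarith
  have h7 : max (D' - κ / 4 * (Ls.card : ℝ)) ((τ + κ / 8) * n) ≤
      D' - κ / 4 * θ * n + ε1 * n - 1 := by
    refine max_le h3 ?_
    linarith
  have h1 : ((MrGC.nb Gᶜ S v).card : ℝ) + 1 ≤ d' := by linarith
  exact_mod_cast h1

open Classical in
private lemma stage1 {n s M0 M l N1 p A L e2 t m d' D' : ℕ} [Fact p.Prime] (G : SimpleGraph (Fin n))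
    (κ b ζ η c1 θ ε1 e τ : ℝ) (hκ : 0 < κ) (hκ1 : κ ≤ 1 / 8) (hb : b = κ / 16)
    (hζ : ζ = κ ^ 2 / 64) (hη0 : 0 < η) (hη8 : η ≤ 1 / 8)
    (hN1 : 0 < N1) (hN1' : (1 - η) ^ N1 < b) (hc1 : c1 = η * b / (8 * N1)) (hθ0 : 0 < θ)
    (hθc : θ ≤ c1) (hθζ : θ ≤ ζ / 512) (hε1 : ε1 = κ * θ / 256) (hl : 32 / κ ≤ (l : ℝ))
    (hls : l + 1 ≤ s) (hsM0 : s ≤ M0) (hM : M = M0 + 1) (hA1 : 1 / ε1 ≤ (A : ℝ)) (hA0 : 0 < A)
    (hMp : M ≤ p) (hAp : 2 ^ A ≤ p) (he : e = ε1 / (8 * ((M : ℝ) + 1) ^ 2))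
    (hL1 : 3 * ((p : ℝ) ^ M + 1) / ε1 ≤ (L : ℝ)) (hL0 : 0 < L) (hτκ : τ ≤ κ / 64)
    (hτζ : τ ≤ ζ / 512) (hn3 : 1 ≤ n)
    (hv1 : 4 * (2 * (M : ℝ) ^ 2 + 2 * M + 1) ≤ ε1 * n) (hv2 : (2 * (M : ℝ) + 3) * 2 ≤ ε1 * n)
    (hv3 : (M : ℝ) + 2 ≤ ε1 * n) (hv4 : 4 / κ + 1 ≤ κ / 64 * n) (hv5 : 1 ≤ κ * θ / 128 * n)
    (hX : ∀ X : Finset (Fin n), (X.card : ℝ) ≤ ζ / 256 * n →
      ∃ u : Fin s → Fin n, (∀ i, u i ∉ X) ∧ (∀ i j, i ≠ j → G.Adj (u i) (u j)) ∧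
        Spr G u b η ∧ DegS G u ζ)
    (hfam : ∀ d : ℕ, ∃ Q : Fin d → Finset (Fin n),
      (∀ j, ∀ u ∈ Q j, ∀ v ∈ Q j, u ≠ v → G.Adj u v) ∧
        ∀ T : Finset (Fin n), e * n ≤ T.card →
          L * (univ.filter (fun j => Disjoint (Q j) T)).card ≤ n + d)
    (hD1 : (D' : ℝ) ≤ (1 - κ) * n) (hD2 : κ * n ≤ D')
    (hD3 : ((univ.filter (fun v => D' < dg Gᶜ v)).card : ℝ) ≤ τ * n)
    (hD4 : ((univ.filter (fun v => (dg Gᶜ v : ℝ) < κ / 2 * n)).card : ℝ) ≤ τ * n)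
    (ht : t = ⌈e * n⌉₊) (he2' : e2 = 3 * n / L) (hm : m = 2 * ((s + 1) * t))
    (hd' : d' = ⌈(D' : ℝ) - κ / 4 * θ * n + 4 * ε1 * n⌉₊) :
    ∃ d : ℕ, MrGC.PR Gᶜ d ∧ (d : ℝ) ≤ D' - κ * θ / 8 * n := by
  have hb0 : 0 < b := by rw [hb]; positivity
  have hζ0 : 0 < ζ := by rw [hζ]; positivity
  have hζ1 : ζ ≤ 1 := by
    rw [hζ]
    have : κ ^ 2 ≤ 1 ^ 2 := pow_le_pow_left₀ hκ.le (by linarith) 2
    linarith
  have hθ1 : θ ≤ 1 / 512 := by linarith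
  have hε0 : 0 < ε1 := by rw [hε1]; positivity
  have hκθ : κ * θ ≤ 1 / 8 * θ := mul_le_mul_of_nonneg_right hκ1 hθ0.le
  have hκθ' : κ * θ ≤ κ * (1 / 512) := mul_le_mul_of_nonneg_left hθ1 hκ.le
  have hε01 : ε1 ≤ 1 := by rw [hε1]; linarith
  have hε08 : ε1 ≤ κ / 1024 := by rw [hε1]; linarith
  have hM0' : (0 : ℝ) < M := by rw [hM]; positivity
  have hA0' : (0 : ℝ) < A := by exact_mod_cast hA0
  have hp0 : 1 ≤ p := (Fact.out : p.Prime).one_lt.le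
  have he0 : 0 < e := by rw [he]; positivity
  have hL0' : (0 : ℝ) < L := by exact_mod_cast hL0
  have hnpos : (0 : ℝ) < n := by exact_mod_cast hn3
  have hs0 : 0 < s := by omega
  have hs0' : (0 : ℝ) < s := by exact_mod_cast hs0
  have hsM : s ≤ M := by omega
  have hsM' : (s : ℝ) ≤ M := by exact_mod_cast hsM
  have hsκ : 32 / κ ≤ (s : ℝ) := by
    refine hl.trans ?_
    exact_mod_cast (by omega : l ≤ s)
  have hsp : s ≤ p := hsM.trans hMp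
  -- r and k
  obtain ⟨r, hr⟩ : ∃ r : ℕ, r = ⌈b * s⌉₊ := ⟨_, rfl⟩
  have hr1 : b * s ≤ (r : ℝ) := by rw [hr]; exact Nat.le_ceil _
  have hr2 : (r : ℝ) < b * s + 1 := by rw [hr]; exact Nat.ceil_lt_add_one (by positivity)
  have hrs : r ≤ s := by
    rw [hr, Nat.ceil_le]
    have : b * s ≤ 1 * s := mul_le_mul_of_nonneg_right (by rw [hb]; linarith) hs0'.le
    linarith
  obtain ⟨k, hk⟩ : ∃ k, k = s - r := ⟨_, rfl⟩
  have hrk : r + k = s := by omega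
  have hks : k ≤ s := by omega
  have hsk : s - k = r := by omega
  -- blocks
  obtain ⟨B, hB⟩ : ∃ B : ℕ, B = ⌊θ * n / s⌋₊ := ⟨_, rfl⟩
  have hB1 : (s : ℝ) * B ≤ θ * n := by
    have : (B : ℝ) ≤ θ * n / s := by rw [hB]; exact Nat.floor_le (by positivity)
    rw [le_div_iff₀ hs0'] at this
    linarith
  have hB2 : θ * n - s ≤ (s : ℝ) * B := by
    have : θ * n / s < (B : ℝ) + 1 := by rw [hB]; exact Nat.lt_floor_add_one _
    rw [div_lt_iff₀ hs0'] at this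
    linarith
  obtain ⟨u, hu1, hu2, hu3⟩ := blks (fun u : Fin s → Fin n =>
      (∀ i j, i ≠ j → G.Adj (u i) (u j)) ∧ Spr G u b η ∧ DegS G u ζ) (ζ / 256 * n)
    (fun X hXc => by
      obtain ⟨u, h1, h2, h3, h4⟩ := hX X hXc
      exact ⟨u, h1, h2, h3, h4⟩) (univ.filter (fun v => D' < dg Gᶜ v)) B (by
      have h1 : τ * n ≤ ζ / 512 * n := mul_le_mul_of_nonneg_right hτζ hnpos.le
      have h2 : θ * n ≤ ζ / 512 * n := mul_le_mul_of_nonneg_right hθζ hnpos.le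
      linarith)
  have hucl : ∀ b' i j, i ≠ j → G.Adj (u b' i) (u b' j) := fun b' => (hu2 b').1
  -- the set of the block vertices
  obtain ⟨Ls, hLs⟩ : ∃ Ls : Finset (Fin n), Ls = univ.image (fun q : Fin B × Fin s => u q.1 q.2) :=
    ⟨_, rfl⟩
  have hLinj : Function.Injective (fun q : Fin B × Fin s => u q.1 q.2) := by
    rintro ⟨b', i⟩ ⟨b'', j⟩ h
    have hb' : b' = b'' := hu3 b' b'' i j h
    subst hb'
    by_contra hne
    have hij : i ≠ j := fun h' => hne (by rw [h'])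
    have := hucl b' i j hij
    simp only at h
    rw [h] at this
    exact G.irrefl this
  have hLc : (Ls.card : ℝ) = s * B := by
    rw [hLs, Finset.card_image_of_injective _ hLinj, Finset.card_univ, Fintype.card_prod,
      Fintype.card_fin, Fintype.card_fin]
    push_cast
    ring
  -- degrees to the blocks
  have hdL := degL (by omega) G u hLinj ζ (κ / 2) τ (by positivity) hζ0.le (fun b' => (hu2 b').2.2)
    (by convert hD4 using 3) Ls hLs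
  have hdL' : ((univ.filter (fun v => ((MrGC.nb Gᶜ Ls v).card : ℝ) < κ / 4 * Ls.card)).card : ℝ) ≤
      κ / 8 * n := by
    have h1 : κ / 2 / 2 = κ / 4 := by ring
    rw [h1] at hdL
    refine hdL.trans ?_
    have h2 : τ * n ≤ κ / 64 * n := mul_le_mul_of_nonneg_right hτκ hnpos.le
    have h3 : 2 * ζ / (κ / 2) * n = κ / 16 * n := by
      rw [hζ]; field_simp; ring
    have h4 : 2 / (κ / 2) = 4 / κ := by field_simp; ring
    rw [h3, h4]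
    linarith
  -- families
  have ht0 : 0 < t := by rw [ht]; exact Nat.ceil_pos.2 (by positivity)
  have ht1 : e * n ≤ (t : ℝ) := by rw [ht]; exact Nat.le_ceil _
  have ht2 : (t : ℝ) < e * n + 1 := by rw [ht]; exact Nat.ceil_lt_add_one (by positivity)
  have he2L : (e2 : ℝ) * L ≤ 3 * n := by
    have : e2 * L ≤ 3 * n := by rw [he2']; exact Nat.div_mul_le_self _ _
    exact_mod_cast this
  have hp2 : (p : ℝ) ^ s * e2 + e2 ≤ ε1 * n :=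
    a8 hL0' hε0 (by positivity) (pow_le_pow_right₀ (by exact_mod_cast hp0) hsM) hnpos
      (Nat.cast_nonneg _) he2L hL1
  have hθn : 0 ≤ κ / 4 * θ * n := by positivity
  have hz0 : κ / 2 * n ≤ (D' : ℝ) - κ / 4 * θ * n := by
    have h1 : κ / 4 * θ * n ≤ κ / 4 * 1 * n := by
      have : κ / 4 * θ ≤ κ / 4 * 1 := mul_le_mul_of_nonneg_left (by linarith) (by positivity)
      exact mul_le_mul_of_nonneg_right this hnpos.le
    have h2 : 0 ≤ κ / 4 * n := by positivity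
    linarith
  have hd1 : (D' : ℝ) - κ / 4 * θ * n + 4 * ε1 * n ≤ (d' : ℝ) := by rw [hd']; exact Nat.le_ceil _
  have hεn : 0 < ε1 * n := by positivity
  have hκn : 0 ≤ κ / 2 * n := by positivity
  have hd2 : (d' : ℝ) < (D' : ℝ) - κ / 4 * θ * n + 4 * ε1 * n + 1 := by
    rw [hd']; exact Nat.ceil_lt_add_one (by linarith)
  have hmt : (m : ℝ) + t ≤ ε1 * n := by
    rw [hm]; push_cast
    refine a11 hs0'.le hsM' hnpos (e := e) ?_ ht2 hv2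
    rw [he]
    exact a7 hs0'.le hsM' hε0
  have herr : (((s ^ 2 + n / A + 1 + s ^ 2 * t + 2 * s : ℕ)) : ℝ) ≤ 2 * ε1 * n := by
    push_cast
    refine a13 hs0'.le hsM' hA0' hnpos hε0 Nat.cast_div_le hA1 (e := e) ?_ ht2 hv1
    rw [he]
    exact a6 hs0'.le hsM' hε0
  have hD1n : (D' : ℝ) ≤ n := by
    have : 0 ≤ κ * n := by positivity
    linarith
  have hε1n : ε1 * n ≤ 1 / 1024 * n := mul_le_mul_of_nonneg_right (by linarith) hnpos.le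
  have h1n : (1 : ℝ) ≤ n := by exact_mod_cast hn3
  have h1ε : 1 ≤ ε1 * n := by linarith
  have hdn : d' + p ^ s * e2 ≤ 2 * n := by
    have h1 : ((d' + p ^ s * e2 : ℕ) : ℝ) ≤ ((2 * n : ℕ) : ℝ) := by
      push_cast
      have h2 : (0 : ℝ) ≤ e2 := Nat.cast_nonneg _
      linarith
    exact_mod_cast h1
  obtain ⟨Q1, hQ1, hit1⟩ := hfam (d' + p ^ s * e2)
  have hmn : m + e2 ≤ 2 * n := by
    have h1 : ((m + e2 : ℕ) : ℝ) ≤ ((2 * n : ℕ) : ℝ) := by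
      push_cast
      have h2 : (0 : ℝ) ≤ (p : ℝ) ^ s * e2 := by positivity
      have h3 : (0 : ℝ) ≤ t := Nat.cast_nonneg _
      linarith
    exact_mod_cast h1
  obtain ⟨Q0, hQ0, hit0⟩ := hfam (m + e2)
  have hmiss : ∀ (x d : ℕ), d ≤ 2 * n → L * x ≤ n + d → x ≤ e2 := by
    intro x d hd hx
    rw [he2', Nat.le_div_iff_mul_le hL0]
    calc x * L = L * x := Nat.mul_comm _ _
      _ ≤ n + d := hx
      _ ≤ 3 * n := by omega
  have hte : ∀ T : Finset (Fin n), t ≤ T.card → e * n ≤ (T.card : ℝ) := fun T hT =>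
    ht1.trans (by exact_mod_cast hT)
  obtain ⟨d2, Q2, hd2', hQ2, hall2⟩ := fam2 G t m e2 (by
      rw [hm]
      have : t ≤ (s + 1) * t := Nat.le_mul_of_pos_left _ (Nat.succ_pos _)
      omega) Q0 hQ0
    (fun T hT => by
      have := hmiss _ _ hmn (hit0 T (hte T hT))
      convert this using 2)
  have hcl : ∀ Q : Finset (Fin n), (∀ a ∈ Q, ∀ b ∈ Q, a ≠ b → G.Adj a b) →
      ∀ a ∈ Q, ∀ b ∈ Q, ¬ Gᶜ.Adj a b := by
    intro Q hQ a ha b hb hab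
    rw [SimpleGraph.compl_adj] at hab
    exact hab.2 (hQ a ha b hb hab.1)
  have hc1n : θ * n ≤ c1 * n := mul_le_mul_of_nonneg_right hθc hnpos.le
  have hκθn : κ * θ * n ≤ 1 / 8 * θ * n := mul_le_mul_of_nonneg_right hκθ hnpos.le
  have hθn' : 0 < θ * n := by positivity
  have hcore := coreR (p := p) (s := s) (r := r) (k := k) (t := t) (e2 := e2) (d' := d') (A := A)
    G hrk hsp hAp hA0 ht0 u hucl
    (fun b' => H2lem (N1 := N1) (r := r) (D' := D') G (u b') b η c1 ε1 hnpos hb0 hη0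
      (by linarith) hks hsk hr1 hN1 hN1' hc1 (hu2 b').2.1 (by
        intro i
        have h1 := hu1 b' i
        rw [Finset.mem_filter, not_and] at h1
        have h2 := h1 (Finset.mem_univ _)
        have h3 := dg_compl G (u b' i)
        have h5 : n ≤ dg G (u b' i) + D' + 1 := by omega
        have h6 : (n : ℝ) ≤ dg G (u b' i) + D' + 1 := by exact_mod_cast h5
        linarith) (by linarith) herr (by linarith))
    Q1 Q2 (fun j => hcl _ (hQ1 j)) (fun j => hcl _ (hQ2 j))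
    (fun T hT => hmiss _ _ hdn (hit1 T (hte T hT)))
    (fun T hT => hall2 T (by rw [hm]; exact hT))
    (by
      have h1 : (((s ^ 2 + n / A + 1 + s ^ 2 * t + 2 * s : ℕ)) : ℝ) < d' := by linarith
      exact_mod_cast h1)
    (hVlem G u κ θ τ ε1 hκ hκ1 hnpos hτκ hz0 (by linarith) hd1 (by
      have : 0 < 4 / κ := by positivity
      linarith) Ls hLs (by rw [hLc]; exact hB2) hD3 hdL')
  refine ⟨_, hcore, ?_⟩
  push_cast
  exact num (b := b) (s := s) (ε1 := ε1) hκ hε1 hb hsκ hB1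
    (Nat.cast_nonneg _) hr2.le hd2.le hp2 hmt (by exact_mod_cast hd2') hv5

open Classical in
theorem oneR (γ : ℝ → ℝ) (hγ : ∀ σ, 0 < σ → 0 < γ σ) (κ : ℝ) (hκ : 0 < κ) (hκ1 : κ ≤ 1 / 8) :
    ∃ c τ : ℝ, 0 < c ∧ 0 < τ ∧ ∃ σ0 : ℝ, 0 < σ0 ∧ ∃ n0 : ℕ, ∀ n ≥ n0,
    ∀ G : SimpleGraph (Fin n), NoHole G γ σ0 → NoHole Gᶜ γ σ0 → ∀ D' : ℕ, (D' : ℝ) ≤ (1 - κ) * n →
    κ * n ≤ D' → ((univ.filter (fun v => D' < dg Gᶜ v)).card : ℝ) ≤ τ * n →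
    ((univ.filter (fun v => (dg Gᶜ v : ℝ) < κ / 2 * n)).card : ℝ) ≤ τ * n →
    ∃ d : ℕ, MrGC.PR Gᶜ d ∧ (d : ℝ) ≤ D' - c * n := by
  obtain ⟨b, hb⟩ : ∃ b : ℝ, b = κ / 16 := ⟨_, rfl⟩
  have hb0 : 0 < b := by rw [hb]; positivity
  have hb1 : b ≤ 1 := by rw [hb]; linarith
  obtain ⟨ζ, hζ⟩ : ∃ ζ : ℝ, ζ = κ ^ 2 / 64 := ⟨_, rfl⟩
  have hζ0 : 0 < ζ := by rw [hζ]; positivity
  have hζ1 : ζ ≤ 1 := by
    rw [hζ]
    have : κ ^ 2 ≤ 1 ^ 2 := pow_le_pow_left₀ hκ.le (by linarith) 2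
    linarith
  obtain ⟨η, hη0, hη8, hblk⟩ := blk γ hγ b ζ hb0 hb1 hζ0 hζ1
  obtain ⟨N0, hN0⟩ := exists_pow_lt_of_lt_one hb0 (show 1 - η < 1 by linarith)
  obtain ⟨N1, hN1, hN1'⟩ : ∃ N1 : ℕ, 0 < N1 ∧ (1 - η) ^ N1 < b :=
    ⟨N0 + 1, Nat.succ_pos _, lt_of_le_of_lt
      (pow_le_pow_of_le_one (by linarith) (by linarith) (Nat.le_succ _)) hN0⟩
  obtain ⟨c1, hc1⟩ : ∃ c1 : ℝ, c1 = η * b / (8 * N1) := ⟨_, rfl⟩
  have hN1r : (0 : ℝ) < N1 := by exact_mod_cast hN1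
  have hc10 : 0 < c1 := by rw [hc1]; positivity
  obtain ⟨θ, hθ0, hθc, hθζ⟩ : ∃ θ : ℝ, 0 < θ ∧ θ ≤ c1 ∧ θ ≤ ζ / 512 :=
    ⟨min c1 (ζ / 512), lt_min hc10 (by positivity), min_le_left _ _, min_le_right _ _⟩
  obtain ⟨ε1, hε1⟩ : ∃ ε1 : ℝ, ε1 = κ * θ / 256 := ⟨_, rfl⟩
  have hε0 : 0 < ε1 := by rw [hε1]; positivity
  have hε01 : ε1 ≤ 1 := by
    rw [hε1]
    have : κ * θ ≤ 1 * 1 := mul_le_mul (by linarith) (by linarith) hθ0.le (by norm_num)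
    linarith
  obtain ⟨l, hl⟩ := exists_nat_ge (32 / κ)
  obtain ⟨M0, σ1, hσ1, n1, hblk⟩ := hblk (l + 1)
  obtain ⟨M, hM⟩ : ∃ M : ℕ, M = M0 + 1 := ⟨_, rfl⟩
  have hM0' : (0 : ℝ) < M := by rw [hM]; positivity
  obtain ⟨A, hA1⟩ := exists_nat_ge (1 / ε1)
  have hA0' : (0 : ℝ) < A := lt_of_lt_of_le (by positivity) hA1
  have hA0 : 0 < A := by exact_mod_cast hA0'
  obtain ⟨p, hp1, hp2⟩ := Nat.exists_infinite_primes (max M (2 ^ A))
  have : Fact p.Prime := ⟨hp2⟩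
  have hMp : M ≤ p := (le_max_left _ _).trans hp1
  have hAp : 2 ^ A ≤ p := (le_max_right _ _).trans hp1
  obtain ⟨e, he⟩ : ∃ e : ℝ, e = ε1 / (8 * ((M : ℝ) + 1) ^ 2) := ⟨_, rfl⟩
  have he0 : 0 < e := by rw [he]; positivity
  have he1 : e ≤ 1 := by rw [he]; exact a3 hM0' hε01
  obtain ⟨L, hL1⟩ := exists_nat_ge (3 * ((p : ℝ) ^ M + 1) / ε1)
  have hL0' : (0 : ℝ) < L := lt_of_lt_of_le (by positivity) hL1
  have hL0 : 0 < L := by exact_mod_cast hL0'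
  obtain ⟨τ, hτ0, hτκ, hτζ⟩ : ∃ τ : ℝ, 0 < τ ∧ τ ≤ κ / 64 ∧ τ ≤ ζ / 512 :=
    ⟨min (κ / 64) (ζ / 512), lt_min (by positivity) (by positivity), min_le_left _ _,
      min_le_right _ _⟩
  obtain ⟨σ2, hσ2, n2, hfam⟩ := famR γ hγ e he0 he1 L
  have hev : ∀ᶠ n : ℕ in atTop, (n1 ≤ n ∧ n2 ≤ n ∧ 1 ≤ n) ∧
      ((4 * (2 * (M : ℝ) ^ 2 + 2 * M + 1) ≤ ε1 * n ∧
      (2 * (M : ℝ) + 3) * 2 ≤ ε1 * n ∧ (M : ℝ) + 2 ≤ ε1 * n ∧ 4 / κ + 1 ≤ κ / 64 * n) ∧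
      1 ≤ κ * θ / 128 * n) := by
    refine ((eventually_ge_atTop n1).and ((eventually_ge_atTop n2).and (eventually_ge_atTop 1))).and
      (((ev hε0 _).and ((ev hε0 _).and ((ev hε0 _).and
        (ev (by positivity) _)))).and (ev (by positivity) _))
  obtain ⟨n0, hn0⟩ := eventually_atTop.1 hev
  refine ⟨κ * θ / 8, τ, by positivity, hτ0, min σ1 σ2, lt_min hσ1 hσ2, n0,
    fun n hn G hG hG' D' hD1 hD2 hD3 hD4 => ?_⟩
  obtain ⟨⟨hn1, hn2, hn3⟩, ⟨hv1, hv2, hv3, hv4⟩, hv5⟩ := hn0 n hn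
  obtain ⟨s, hls, hsM0, hX⟩ := hblk n hn1 G (NoHole_mono hG (min_le_left _ _))
    (NoHole_mono hG' (min_le_left _ _))
  exact stage1 (M0 := M0) (M := M) (l := l) (N1 := N1) (p := p) (A := A) (L := L) G κ b ζ η c1 θ
    ε1 e τ hκ hκ1 hb hζ hη0 hη8 hN1 hN1' hc1 hθ0 hθc hθζ hε1 hl hls hsM0 hM hA1 hA0 hMp hAp he
    hL1 hL0 hτκ hτζ hn3 hv1 hv2 hv3 hv4 hv5 hX
    (fun d => hfam n hn2 G (NoHole_mono hG (min_le_right _ _)) d) hD1 hD2
    (by convert hD3 using 3) (by convert hD4 using 3) rfl rfl rfl rfl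

end GCU
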